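import Pool.Agent.T2H92.FP.Stm

set_option autoImplicit false

/-!
# Package AX: the limit in the direction of the axis
-/

open MeasureTheory ProbabilityTheory Filter Topology Finset
open scoped ENNReal

namespace Pool.Agent.T2H92.FP

noncomputable section

namespace PkgAX

theorem exp_nonneg_ae : ∀ᵐ x ∂(expMeasure 1), (0 : ℝ) ≤ x := by
  rw [ae_iff]
  have e : {a : ℝ | ¬ 0 ≤ a} = Set.Iio 0 := by
    ext x
    simp
  rw [e, expMeasure, gammaMeasure, withDensity_apply _ measurableSet_Iio]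
  exact lintegral_gammaPDF_of_nonpos le_rfl

theorem weights_nonneg {V : Type} [Countable V] {Ω : Type} [MeasurableSpace Ω] {P : Measure Ω}
    {ω : Sym2 V → Ω → ℝ} (h : ∀ e, Measurable (ω e) ∧ P.map (ω e) = expMeasure 1) :
    ∀ᵐ t ∂P, ∀ e, 0 ≤ ω e t := by
  rw [ae_all_iff]
  intro e
  have h1 : ∀ᵐ x ∂(P.map (ω e)), (0 : ℝ) ≤ x := by
    rw [(h e).2]
    exact exp_nonneg_ae
  exact ae_of_ae_map (h e).1.aemeasurable h1

theorem law {V : Type} [Countable V] {Ω : Type} [MeasurableSpace Ω] {P : Measure Ω}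
    [IsProbabilityMeasure P] {ω : Sym2 V → Ω → ℝ} (hi : iIndepFun ω P)
    (h : ∀ e, Measurable (ω e) ∧ P.map (ω e) = expMeasure 1) :
    P.map (fun t e => ω e t) = nu (Sym2 V) := by
  have h1 := iIndepFun.map_fun_eq_infinitePi_map₀' (fun e => (h e).1.aemeasurable) hi
  rw [h1, nu]
  congr 1
  funext e
  exact (h e).2

theorem ofReal_sum_le (l : List ℝ) : ENNReal.ofReal l.sum ≤ (l.map ENNReal.ofReal).sum := by
  induction l with
  | nil => simp
  | cons a l ih =>
    rw [List.sum_cons, List.map_cons, List.sum_cons]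
    exact ENNReal.ofReal_add_le.trans (add_le_add le_rfl ih)

theorem TT_le {D : ℕ} {Ω : Type} {ω : Sym2 (Fin (D + 1) → ℤ) → Ω → ℝ} {t : Ω}
    (h : ∀ e, 0 ≤ ω e t) (x : Fin (D + 1) → ℤ) :
    ENNReal.ofReal (TT ω x t) ≤ Ph (Half D 0) (pt x) (fun e => ω e t) 0 := by
  rw [Ph]
  refine le_iInf₂ fun v p => ?_
  by_cases hv : v = x
  swap
  · simp [pt, hv]
  subst hv
  have hle : Half D 0 ≤ SimpleGraph.fromRel (fun y z : Fin (D + 1) → ℤ => ∑ i, |y i - z i| = 1) :=
    fun a b hab => hab.1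
  have h1 : TT ω v t ≤ (p.edges.map (fun e => ω e t)).sum := by
    rw [TT]
    have hb : BddBelow (Set.range fun p : (SimpleGraph.fromRel
        (fun y z : Fin (D + 1) → ℤ => ∑ i, |y i - z i| = 1)).Walk 0 v =>
        (p.edges.map (fun e => ω e t)).sum) := by
      refine ⟨0, ?_⟩
      rintro _ ⟨q, rfl⟩
      apply List.sum_nonneg
      intro a ha
      rw [List.mem_map] at ha
      obtain ⟨e, -, rfl⟩ := ha
      exact h e
    refine (ciInf_le hb (p.mapLe hle)).trans (le_of_eq ?_)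
    simp only [SimpleGraph.Walk.edges_mapLe_eq_edges]
  refine (ENNReal.ofReal_le_ofReal h1).trans ?_
  refine (ofReal_sum_le _).trans ?_
  rw [List.map_map]
  exact le_self_add

theorem pt_eq (D n : ℕ) : n • (Pi.single 0 1 : Fin (D + 1) → ℤ) = Fin.cons (n : ℤ) 0 := by
  funext i
  refine Fin.cases ?_ (fun j => ?_) i
  · simp
  · simp

end PkgAX

theorem pAX (hMEAS : S_MEAS) (hEXPL : S_EXPL) (hBLK : S_BLK) : S_AX := by
  intro D mu hmu hC Ω _ P _ ω hi hω c hlim
  obtain ⟨C₀, hC₀, hE⟩ := hEXPL D mu hmu hC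
  have key : ∀ N : ℕ, 1 ≤ N → c ≤ mu + (C₀ + 1) / N := by
    intro N hN
    obtain ⟨R, hR⟩ := hE N hN
    have hN0 : (0 : ℝ) < N := by exact_mod_cast hN
    have hB : 0 ≤ mu * N + C₀ := by positivity
    obtain ⟨C, hC0, hb⟩ := hBLK D N R (mu * N + C₀) hN hB hR 1 one_pos
    -- the random variables
    set g : ℕ → Ω → ℝ≥0∞ := fun M t =>
      Ph (Half D 0) (pt (Fin.cons ((M * N : ℕ) : ℤ) 0)) (fun e => ω e t) 0 /
        ENNReal.ofReal (M * N) with hg
    have hΦ : Measurable fun (t : Ω) (e : Sym2 (Fin (D + 1) → ℤ)) => ω e t :=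
      measurable_pi_iff.2 fun e => (hω e).1
    have hgm : ∀ M, Measurable (g M) := by
      intro M
      rw [hg]
      exact ((hMEAS _ (Half D 0) (pt (Fin.cons ((M * N : ℕ) : ℤ) 0)) 0).comp hΦ).div_const _
    have hgi : ∀ M, ∫⁻ t, g M t ∂P = bb D (M * N) 0 / ENNReal.ofReal (M * N) := by
      intro M
      simp only [hg]
      simp only [div_eq_mul_inv]
      have hm : Measurable fun t => Ph (Half D 0) (pt (Fin.cons ((M * N : ℕ) : ℤ) 0))
          (fun e => ω e t) 0 := (hMEAS _ (Half D 0) (pt (Fin.cons ((M * N : ℕ) : ℤ) 0)) 0).comp hΦ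
      rw [lintegral_mul_const _ hm, bb, ← PkgAX.law hi hω, lintegral_map (hMEAS _ _ _ _) hΦ]
    -- the limit
    have hae : ∀ᵐ t ∂P, ENNReal.ofReal c ≤ liminf (fun M => g M t) atTop := by
      filter_upwards [hlim, PkgAX.weights_nonneg hω] with t ht hw
      have hsub : Tendsto (fun M : ℕ => M * N) atTop atTop :=
        tendsto_id.atTop_mul_const' hN
      have h1 := (ENNReal.continuous_ofReal.tendsto c).comp (ht.comp hsub)
      rw [← h1.liminf_eq]
      refine liminf_le_liminf ?_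
      filter_upwards [eventually_ge_atTop 1] with M hM
      have hM0 : (0 : ℝ) < M := by exact_mod_cast hM
      simp only [Function.comp_apply, hg]
      rw [ENNReal.ofReal_div_of_pos (by push_cast; positivity), PkgAX.pt_eq]
      push_cast
      refine ENNReal.div_le_div_right ?_ _
      have := PkgAX.TT_le hw (Fin.cons ((M * N : ℕ) : ℤ) 0)
      push_cast at this
      exact this
    have h2 : ENNReal.ofReal c ≤ liminf (fun M => ∫⁻ t, g M t ∂P) atTop := by
      calc ENNReal.ofReal c = ∫⁻ _, ENNReal.ofReal c ∂P := by rw [lintegral_const, measure_univ, mul_one]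
        _ ≤ ∫⁻ t, liminf (fun M => g M t) atTop ∂P := lintegral_mono_ae hae
        _ ≤ _ := lintegral_liminf_le hgm
    have h3 : Tendsto (fun M : ℕ => ENNReal.ofReal ((M * (mu * N + C₀ + 1) + C) / (M * N))) atTop
        (𝓝 (ENNReal.ofReal ((mu * N + C₀ + 1) / N))) := by
      refine (ENNReal.continuous_ofReal.tendsto _).comp ?_
      have h4 : Tendsto (fun M : ℕ => (mu * N + C₀ + 1) / N + C / N / (M : ℝ)) atTop
          (𝓝 ((mu * N + C₀ + 1) / N + 0)) :=
        tendsto_const_nhds.add (tendsto_const_nhds.div_atTop tendsto_natCast_atTop_atTop)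
      rw [add_zero] at h4
      refine h4.congr' ?_
      filter_upwards [eventually_ge_atTop 1] with M hM
      have hM0 : (0 : ℝ) < M := by exact_mod_cast hM
      field_simp
    have h5 : ENNReal.ofReal c ≤ ENNReal.ofReal ((mu * N + C₀ + 1) / N) := by
      refine h2.trans ?_
      rw [← h3.liminf_eq]
      refine liminf_le_liminf ?_
      filter_upwards [eventually_ge_atTop 1] with M hM
      have hM0 : (0 : ℝ) < M := by exact_mod_cast hM
      rw [hgi, ENNReal.ofReal_div_of_pos (by positivity)]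
      exact ENNReal.div_le_div_right (hb M) _
    have h6 : c ≤ (mu * N + C₀ + 1) / N :=
      (ENNReal.ofReal_le_ofReal_iff (by positivity)).1 h5
    calc c ≤ (mu * N + C₀ + 1) / N := h6
      _ = mu + (C₀ + 1) / N := by field_simp; ring
  have h7 : Tendsto (fun N : ℕ => mu + (C₀ + 1) / (N : ℝ)) atTop (𝓝 (mu + 0)) :=
    tendsto_const_nhds.add (tendsto_const_nhds.div_atTop tendsto_natCast_atTop_atTop)
  rw [add_zero] at h7
  refine ge_of_tendsto h7 ?_
  filter_upwards [eventually_ge_atTop 1] with N hN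
  exact key N hN

end

end Pool.Agent.T2H92.FP
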