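import Pool.Agent.T2H92.FP.Stm

/-! # Package B0: in-plane paths -/

set_option autoImplicit false

open MeasureTheory ProbabilityTheory Filter Topology
open scoped ENNReal

namespace Pool.Agent.T2H92.FP

namespace PkgB0

instance : IsProbabilityMeasure (expMeasure 1) := isProbabilityMeasure_expMeasure one_pos

theorem mean_exp : ∫⁻ x, ENNReal.ofReal x ∂(expMeasure 1) = 1 := by
  unfold expMeasure gammaMeasure
  have hm : Measurable (gammaPDF 1 1) := (measurable_gammaPDFReal 1 1).ennreal_ofReal
  rw [lintegral_withDensity_eq_lintegral_mul _ hm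
    ENNReal.measurable_ofReal, ← lintegral_gammaPDF_eq_one (a := 2) (r := 1) two_pos one_pos]
  refine lintegral_congr fun x => ?_
  rw [Pi.mul_apply]
  rcases lt_or_ge x 0 with hx | hx
  · rw [gammaPDF_of_neg hx, gammaPDF_of_neg hx, zero_mul]
  · rw [gammaPDF_of_nonneg hx, gammaPDF_of_nonneg hx, ← ENNReal.ofReal_mul (by
      rw [Real.Gamma_one]; positivity)]
    congr 1
    have h2 : (2 : ℝ) - 1 = 1 := by norm_num
    have h3 : Real.Gamma 2 = 1 := Real.Gamma_two
    rw [Real.Gamma_one, sub_self, Real.rpow_zero, h2, Real.rpow_one x, h3, Real.one_rpow, Real.one_rpow]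
    ring

theorem mean_coord {E : Type} (e : E) : ∫⁻ w, ENNReal.ofReal (w e) ∂(nu E) = 1 := by
  unfold nu
  have h := (measurePreserving_eval_infinitePi (fun _ : E => expMeasure 1) e)
  exact (h.lintegral_comp ENNReal.measurable_ofReal).trans mean_exp

theorem mean_list {E : Type} (l : List E) :
    ∫⁻ w, (l.map fun e => ENNReal.ofReal (w e)).sum ∂(nu E) = l.length := by
  induction l with
  | nil => simp
  | cons a l ih =>
    simp only [List.map_cons, List.sum_cons, List.length_cons]
    rw [lintegral_add_left ((measurable_pi_apply a).ennreal_ofReal), mean_coord, ih]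
    push_cast
    rw [add_comm]

theorem adj_cons {D : ℕ} {a b : Fin D → ℤ} (h : ∑ i, |a i - b i| = 1) :
    (Half D 0).Adj (Fin.cons 0 a) (Fin.cons 0 b) := by
  refine ⟨?_, ?_⟩
  · unfold Lat
    rw [SimpleGraph.fromRel_adj]
    refine ⟨?_, Or.inl ?_⟩
    · intro he
      have : a = b := (Fin.cons_right_injective (α := fun _ : Fin (D + 1) => ℤ) (0 : ℤ)) he
      rw [this] at h
      simp at h
    · rw [Fin.sum_univ_succ]
      simp only [Fin.cons_zero, Fin.cons_succ, sub_self, abs_zero, zero_add]
      exact h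
  · simp

theorem exists_walk {D : ℕ} (n : ℕ) : ∀ b : Fin D → ℤ, ∑ i, (b i).natAbs = n →
    ∃ p : (Half D 0).Walk 0 (Fin.cons 0 b), p.length = n := by
  induction n with
  | zero =>
    intro b hb
    have h0 : b = 0 := by
      funext i
      have := (Finset.sum_eq_zero_iff.1 hb) i (Finset.mem_univ i)
      exact Int.natAbs_eq_zero.1 this
    subst h0
    have he : (0 : Fin (D + 1) → ℤ) = Fin.cons 0 (0 : Fin D → ℤ) := by
      funext i
      refine Fin.cases ?_ (fun j => ?_) i <;> simp
    exact ⟨(SimpleGraph.Walk.nil : (Half D 0).Walk 0 0).copy rfl he, by simp⟩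
  | succ n ih =>
    intro b hb
    obtain ⟨i, hi⟩ : ∃ i, b i ≠ 0 := by
      by_contra hc
      push Not at hc
      rw [Finset.sum_eq_zero fun i _ => by rw [hc i]; rfl] at hb
      omega
    obtain ⟨y, hy1, hy2⟩ : ∃ y : ℤ, y.natAbs + 1 = (b i).natAbs ∧ |y - b i| = 1 := by
      rcases lt_or_gt_of_ne hi with h | h
      · refine ⟨b i + 1, by omega, ?_⟩
        rw [add_sub_cancel_left]; simp
      · refine ⟨b i - 1, by omega, ?_⟩
        have : b i - 1 - b i = -1 := by ring
        rw [this]; simp
    have e1 : ∑ j, (Function.update b i y j).natAbs = n := by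
      rw [← Finset.add_sum_erase _ _ (Finset.mem_univ i)] at hb ⊢
      rw [Function.update_self]
      have : ∑ x ∈ Finset.univ.erase i, (Function.update b i y x).natAbs =
          ∑ x ∈ Finset.univ.erase i, (b x).natAbs :=
        Finset.sum_congr rfl fun j hj => by
          rw [Function.update_of_ne (Finset.ne_of_mem_erase hj)]
      rw [this]
      omega
    obtain ⟨p, hp⟩ := ih _ e1
    have hadj : (Half D 0).Adj (Fin.cons 0 (Function.update b i y)) (Fin.cons 0 b) := by
      refine adj_cons ?_
      rw [← Finset.add_sum_erase _ _ (Finset.mem_univ i), Function.update_self, hy2,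
        Finset.sum_eq_zero fun j hj => by
          rw [Function.update_of_ne (Finset.ne_of_mem_erase hj), sub_self, abs_zero], add_zero]
    exact ⟨p.concat hadj, by rw [SimpleGraph.Walk.length_concat, hp]⟩

end PkgB0

open PkgB0 in
theorem pB0 : S_B0 := by
  intro D z'
  obtain ⟨p, hp⟩ := exists_walk _ z' rfl
  unfold bb
  have h0 : (Fin.cons ((0 : ℕ) : ℤ) z' : Fin (D + 1) → ℤ) = Fin.cons 0 z' := by simp
  rw [h0]
  calc ∫⁻ w, Ph (Half D 0) (pt (Fin.cons 0 z')) w 0 ∂(nu (Sym2 (Fin (D + 1) → ℤ)))
      ≤ ∫⁻ w, (p.edges.map fun e => ENNReal.ofReal (w e)).sum ∂(nu (Sym2 (Fin (D + 1) → ℤ))) := by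
        refine lintegral_mono fun w => ?_
        unfold Ph
        refine (iInf₂_le (Fin.cons 0 z') p).trans ?_
        simp [pt]
    _ = (p.edges.length : ℝ≥0∞) := mean_list _
    _ = ENNReal.ofReal (∑ i, |(z' i : ℝ)|) := by
        rw [SimpleGraph.Walk.length_edges, hp, ← ENNReal.ofReal_natCast]
        congr 1
        push_cast
        refine Finset.sum_congr rfl fun i _ => ?_
        rw [Nat.cast_natAbs, Int.cast_abs]
    _ ≤ _ := le_rfl

end Pool.Agent.T2H92.FP
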