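import Pool.Agent.T2H92.FP.Stm

set_option autoImplicit false

/-!
# Package BLK: induction on blocks
-/

open MeasureTheory ProbabilityTheory Filter Topology Finset
open scoped ENNReal

namespace Pool.Agent.T2H92.FP

noncomputable section

namespace PkgBLK

/-- the box -/
def Y (D R : ℕ) : Finset (Fin D → ℤ) := Fintype.piFinset fun _ : Fin D => Finset.Icc (-(R : ℤ)) R

theorem mem_Y {D R : ℕ} {y : Fin D → ℤ} : y ∈ Y D R ↔ ∀ i, |y i| ≤ R := by
  rw [Y, Fintype.mem_piFinset]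
  refine forall_congr' fun i => ?_
  rw [mem_Icc, abs_le]

/-- a symmetric law on the box -/
theorem quad {D R : ℕ} {q : (Fin D → ℤ) → ℝ} (h0 : ∀ y, 0 ≤ q y) (hs : ∀ y, q (-y) = q y)
    (h1 : ∑ y ∈ Y D R, q y = 1) (a η : ℝ) (hη : 0 ≤ η) (z : Fin D → ℤ) :
    ∑ y ∈ Y D R, q y * (a + η * ∑ i, (((z - y) i : ℤ) : ℝ) ^ 2) ≤
      a + η * (D * R ^ 2) + η * ∑ i, (z i : ℝ) ^ 2 := by
  have hE : ∀ i, ∑ y ∈ Y D R, q y * (y i : ℝ) = 0 := by
    intro i
    have h2 : ∑ y ∈ Y D R, q y * (y i : ℝ) = ∑ y ∈ Y D R, q y * (-(y i : ℝ)) := by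
      apply Finset.sum_equiv (Equiv.neg _)
      · intro y
        rw [Equiv.neg_apply, mem_Y, mem_Y]
        simp only [Pi.neg_apply, abs_neg]
      · intro y _
        rw [Equiv.neg_apply, hs, Pi.neg_apply]
        push_cast
        ring
    have h3 : ∑ y ∈ Y D R, q y * (-(y i : ℝ)) = - ∑ y ∈ Y D R, q y * (y i : ℝ) := by
      rw [← Finset.sum_neg_distrib]
      exact Finset.sum_congr rfl fun y _ => by ring
    linarith
  have hV : ∀ i, ∑ y ∈ Y D R, q y * (y i : ℝ) ^ 2 ≤ (R : ℝ) ^ 2 := by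
    intro i
    calc ∑ y ∈ Y D R, q y * (y i : ℝ) ^ 2 ≤ ∑ y ∈ Y D R, q y * (R : ℝ) ^ 2 := by
          refine Finset.sum_le_sum fun y hy => mul_le_mul_of_nonneg_left ?_ (h0 y)
          have h2 : |(y i : ℝ)| ≤ R := by exact_mod_cast mem_Y.1 hy i
          rw [← sq_abs]
          exact pow_le_pow_left₀ (abs_nonneg _) h2 2
      _ = (R : ℝ) ^ 2 := by rw [← Finset.sum_mul, h1, one_mul]
  have e1 : ∑ y ∈ Y D R, q y * (a + η * ∑ i, (((z - y) i : ℤ) : ℝ) ^ 2) =
      a * ∑ y ∈ Y D R, q y + η * ∑ i, ((z i : ℝ) ^ 2 * ∑ y ∈ Y D R, q y -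
        2 * (z i : ℝ) * ∑ y ∈ Y D R, q y * (y i : ℝ) + ∑ y ∈ Y D R, q y * (y i : ℝ) ^ 2) := by
    have e2 : ∀ y, q y * (a + η * ∑ i, (((z - y) i : ℤ) : ℝ) ^ 2) = a * q y +
        η * ∑ i, ((z i : ℝ) ^ 2 * q y - 2 * (z i : ℝ) * (q y * (y i : ℝ)) +
          q y * (y i : ℝ) ^ 2) := by
      intro y
      rw [mul_add, mul_comm (q y) a]
      congr 1
      rw [mul_left_comm, Finset.mul_sum]
      congr 1
      refine Finset.sum_congr rfl fun i _ => ?_
      rw [Pi.sub_apply]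
      push_cast
      ring
    simp only [e2]
    rw [Finset.sum_add_distrib, ← Finset.mul_sum, ← Finset.mul_sum, Finset.sum_comm]
    congr 2
    refine Finset.sum_congr rfl fun i _ => ?_
    rw [Finset.sum_add_distrib, Finset.sum_sub_distrib, ← Finset.mul_sum, ← Finset.mul_sum]
  rw [e1, h1, mul_one]
  have e3 : ∑ i, ((z i : ℝ) ^ 2 * 1 - 2 * (z i : ℝ) * ∑ y ∈ Y D R, q y * (y i : ℝ) +
      ∑ y ∈ Y D R, q y * (y i : ℝ) ^ 2) ≤ ∑ i, (z i : ℝ) ^ 2 + D * (R : ℝ) ^ 2 := by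
    calc _ ≤ ∑ i, ((z i : ℝ) ^ 2 + (R : ℝ) ^ 2) := by
          refine Finset.sum_le_sum fun i _ => ?_
          rw [hE i]
          linarith [hV i]
      _ = _ := by
          rw [Finset.sum_add_distrib, Finset.sum_const, card_univ, Fintype.card_fin, nsmul_eq_mul]
  have := mul_le_mul_of_nonneg_left e3 hη
  linarith

theorem main (hPI : S_PI) (hB0 : S_B0) {D N R : ℕ} {B : ℝ} (hN : 1 ≤ N) (hB : 0 ≤ B)
    (hint : ∫⁻ w, Ph (Slab D N) (term D N R) w 0 ∂(nu (Sym2 (Fin (D + 1) → ℤ))) ≤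
      ENNReal.ofReal B) {η : ℝ} (hη : 0 < η) :
    ∀ (M : ℕ) (z : Fin D → ℤ), bb D (M * N) z ≤
      ENNReal.ofReal (M * (B + η * (D * R ^ 2)) + D / η + η * ∑ i, (z i : ℝ) ^ 2) := by
  obtain ⟨π, hs, h1, hstep⟩ := hPI D N R hN
  have h1' : ∑ y ∈ Y D R, π y = 1 := h1
  have hfin : ∀ y ∈ Y D R, π y ≠ ⊤ := by
    intro y hy h
    have := Finset.single_le_sum (f := π) (fun _ _ => zero_le) hy
    rw [h1', h] at this
    simp at this
  intro M
  induction M with
  | zero =>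
    intro z
    rw [zero_mul]
    refine (hB0 D z).trans (ENNReal.ofReal_le_ofReal ?_)
    have e1 : ∀ i, |(z i : ℝ)| ≤ 1 / η + η * (z i : ℝ) ^ 2 := by
      intro i
      have h2 : 0 ≤ (1 / η) * (1 - η * |(z i : ℝ)|) ^ 2 := by positivity
      have h3 : (1 / η) * (1 - η * |(z i : ℝ)|) ^ 2 =
          1 / η + η * (z i : ℝ) ^ 2 - 2 * |(z i : ℝ)| := by
        rw [← sq_abs (z i : ℝ)]
        field_simp
        ring
      have h4 := abs_nonneg (z i : ℝ)
      linarith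
    calc ∑ i, |(z i : ℝ)| ≤ ∑ i, (1 / η + η * (z i : ℝ) ^ 2) := Finset.sum_le_sum fun i _ => e1 i
      _ = _ := by
        rw [Finset.sum_add_distrib, Finset.sum_const, card_univ, Fintype.card_fin, nsmul_eq_mul,
          ← Finset.mul_sum]
        push_cast
        ring
  | succ M ih =>
    intro z
    have hN' : (M + 1) * N = N + M * N := by ring
    rw [hN']
    refine (hstep (M * N) z).trans ?_
    set a : ℝ := M * (B + η * (D * R ^ 2)) + D / η with ha
    have ha0 : 0 ≤ a := by positivity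
    have e1 : ∑ y ∈ Y D R, π y * bb D (M * N) (z - y) ≤
        ENNReal.ofReal (a + η * (D * R ^ 2) + η * ∑ i, (z i : ℝ) ^ 2) := by
      calc ∑ y ∈ Y D R, π y * bb D (M * N) (z - y) ≤
          ∑ y ∈ Y D R, ENNReal.ofReal ((π y).toReal *
            (a + η * ∑ i, (((z - y) i : ℤ) : ℝ) ^ 2)) := by
            refine Finset.sum_le_sum fun y hy => ?_
            rw [ENNReal.ofReal_mul ENNReal.toReal_nonneg, ENNReal.ofReal_toReal (hfin y hy)]
            exact mul_le_mul_right (ih (z - y)) _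
        _ = ENNReal.ofReal (∑ y ∈ Y D R, (π y).toReal *
            (a + η * ∑ i, (((z - y) i : ℤ) : ℝ) ^ 2)) := by
            rw [ENNReal.ofReal_sum_of_nonneg]
            intro y _
            positivity
        _ ≤ _ := by
            apply ENNReal.ofReal_le_ofReal
            refine quad (fun _ => ENNReal.toReal_nonneg) (fun y => by rw [hs]) ?_ a η hη.le z
            rw [← ENNReal.toReal_sum hfin, h1', ENNReal.toReal_one]
    refine (add_le_add hint e1).trans ?_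
    rw [← ENNReal.ofReal_add hB (by positivity)]
    apply ENNReal.ofReal_le_ofReal
    rw [ha]
    push_cast
    linarith

end PkgBLK

theorem pBLK (hPI : S_PI) (hB0 : S_B0) : S_BLK := by
  intro D N R B hN hB hint ε hε
  set K : ℝ := D * (R : ℝ) ^ 2 with hK
  have hK0 : 0 ≤ K := by positivity
  set η : ℝ := ε / (K + 1) with hη
  have hη0 : 0 < η := by positivity
  have hηK : η * K ≤ ε := by
    rw [hη, div_mul_eq_mul_div, div_le_iff₀ (by positivity)]
    nlinarith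
  refine ⟨D / η, by positivity, fun M => ?_⟩
  refine (PkgBLK.main hPI hB0 hN hB hint hη0 M 0).trans (ENNReal.ofReal_le_ofReal ?_)
  have hM : (0 : ℝ) ≤ M := Nat.cast_nonneg M
  have e : ∑ i : Fin D, (((0 : Fin D → ℤ) i : ℤ) : ℝ) ^ 2 = 0 := by simp
  rw [e, mul_zero, add_zero]
  have := mul_le_mul_of_nonneg_left hηK hM
  rw [← hK]
  linarith

end

end Pool.Agent.T2H92.FP
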