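import Pool.Agent.T2H92.FP.Stm

/-! # Package COUNT: weighted count of paths without immediate reversals -/

set_option autoImplicit false

namespace Pool.Agent.T2H92.FP

namespace PkgCOUNT

/-- steps -/
abbrev S (d : ℕ) : Type := Fin d × Bool

/-- sign of a step -/
def sg {d : ℕ} (t : S d) : ℤ := if t.2 then 1 else -1

/-- vector of a step -/
def vec {d : ℕ} (t : S d) : Fin d → ℤ := Pi.single t.1 (sg t)

/-- opposite step -/
def opp {d : ℕ} (t : S d) : S d := (t.1, !t.2)

theorem vec_opp {d : ℕ} (t : S d) : vec (opp t) = - vec t := by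
  obtain ⟨i, b⟩ := t
  unfold vec opp sg
  rw [← Pi.single_neg]
  cases b <;> simp

theorem vec_inj {d : ℕ} {s t : S d} (h : vec s = vec t) : s = t := by
  obtain ⟨i, b⟩ := s
  obtain ⟨j, c⟩ := t
  have h0 : ∀ b : Bool, sg ((i, b) : S d) ≠ 0 := by intro b; cases b <;> simp [sg]
  have hij : i = j := by
    by_contra hij
    have := congrFun h i
    unfold vec at this
    rw [Pi.single_eq_same, Pi.single_eq_of_ne hij] at this
    exact h0 b this
  subst hij
  have := congrFun h i
  unfold vec at this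
  rw [Pi.single_eq_same, Pi.single_eq_same] at this
  cases b <;> cases c <;> simp [sg] at this ⊢

theorem sum_vec {d : ℕ} (t : S d) : ∑ i, vec t i = sg t := by
  unfold vec
  rw [Finset.sum_pi_single']
  simp

theorem adj_step {d : ℕ} {u v : Fin d → ℤ} (h : (Lat d).Adj u v) : ∃ t : S d, v = u + vec t := by
  unfold Lat at h
  rw [SimpleGraph.fromRel_adj] at h
  have h1 : ∑ i, |v i - u i| = 1 := by
    rcases h.2 with h | h
    · rw [← h]
      exact Finset.sum_congr rfl fun i _ => abs_sub_comm _ _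
    · exact h
  obtain ⟨i, hi⟩ : ∃ i, v i - u i ≠ 0 := by
    by_contra hc
    push Not at hc
    rw [Finset.sum_eq_zero fun i _ => by rw [hc i, abs_zero]] at h1
    exact absurd h1 (by norm_num)
  have h2 := Finset.add_sum_erase Finset.univ (fun i => |v i - u i|) (Finset.mem_univ i)
  rw [h1] at h2
  have h3 : 1 ≤ |v i - u i| := Int.one_le_abs hi
  have h4 : 0 ≤ ∑ x ∈ Finset.univ.erase i, |v x - u x| := Finset.sum_nonneg fun _ _ => abs_nonneg _
  have h5 : ∑ x ∈ Finset.univ.erase i, |v x - u x| = 0 := by omega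
  have h6 : |v i - u i| = 1 := by omega
  have h7 : ∀ j, j ≠ i → v j = u j := by
    intro j hj
    have := (Finset.sum_eq_zero_iff_of_nonneg fun _ _ => abs_nonneg _).1 h5 j
      (Finset.mem_erase.2 ⟨hj, Finset.mem_univ j⟩)
    have := abs_eq_zero.1 this
    omega
  rcases (abs_eq (by norm_num : (0 : ℤ) ≤ 1)).1 h6 with h8 | h8
  · refine ⟨(i, true), funext fun j => ?_⟩
    unfold vec sg
    by_cases hj : j = i
    · subst hj
      rw [Pi.add_apply, Pi.single_eq_same]; simp; omega
    · rw [Pi.add_apply, Pi.single_eq_of_ne hj, add_zero, h7 j hj]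
  · refine ⟨(i, false), funext fun j => ?_⟩
    unfold vec sg
    by_cases hj : j = i
    · subst hj
      rw [Pi.add_apply, Pi.single_eq_same]; simp; omega
    · rw [Pi.add_apply, Pi.single_eq_of_ne hj, add_zero, h7 j hj]

/-- the step of an edge -/
noncomputable def st {d : ℕ} {u v : Fin d → ℤ} (h : (Lat d).Adj u v) : S d := (adj_step h).choose

theorem st_spec {d : ℕ} {u v : Fin d → ℤ} (h : (Lat d).Adj u v) : v = u + vec (st h) :=
  (adj_step h).choose_spec

/-- the steps of a walk -/
noncomputable def enc {d : ℕ} : ∀ {u v : Fin d → ℤ}, (Lat d).Walk u v → List (S d)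
  | _, _, .nil => []
  | _, _, .cons h p => st h :: enc p

/-- allowed lists of steps after the step `s` -/
def ok {d : ℕ} : S d → List (S d) → Prop
  | _, [] => True
  | s, t :: l => t ≠ opp s ∧ ok t l

/-- weight of a list -/
noncomputable def wt {d : ℕ} (z g : ℝ) : List (S d) → ℝ
  | [] => 1
  | t :: l => z * g ^ sg t * wt z g l

theorem wt_enc {d : ℕ} {z g : ℝ} (hg : g ≠ 0) {u v : Fin d → ℤ} (p : (Lat d).Walk u v) :
    wt z g (enc p) = z ^ p.length * g ^ (∑ i, v i - ∑ i, u i) := by
  induction p with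
  | nil => simp [enc, wt]
  | cons h p ih =>
    rename_i u v w
    have h1 : ∑ i, v i = ∑ i, u i + sg (st h) := by
      have h2 := st_spec h
      conv_lhs => rw [h2]
      simp only [Pi.add_apply, Finset.sum_add_distrib, sum_vec]
    rw [enc, wt, ih, SimpleGraph.Walk.length_cons, h1, pow_succ]
    have e : ∑ i, w i - ∑ i, u i = sg (st h) + (∑ i, w i - (∑ i, u i + sg (st h))) := by ring
    rw [e, zpow_add₀ hg]
    ring

theorem enc_inj {d : ℕ} {u v : Fin d → ℤ} (p : (Lat d).Walk u v) :
    ∀ q : (Lat d).Walk u v, enc p = enc q → p = q := by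
  induction p with
  | nil =>
    intro q h
    cases q with
    | nil => rfl
    | cons h' q' => simp [enc] at h
  | cons h p ih =>
    rename_i u v w
    intro q hq
    cases q with
    | nil => simp [enc] at hq
    | cons h' q' =>
      rename_i v'
      simp only [enc, List.cons.injEq] at hq
      have h1 := st_spec h
      have h2 := st_spec h'
      have h3 : v = v' := by rw [h1, h2, hq.1]
      subst h3
      rw [ih q' hq.2]

theorem ok_enc {d : ℕ} {u v w : Fin d → ℤ} (h : (Lat d).Adj u v) (p : (Lat d).Walk v w)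
    (hp : (SimpleGraph.Walk.cons h p).IsPath) : ok (st h) (enc p) := by
  induction p generalizing u with
  | nil => simp [enc, ok]
  | cons h' p ih =>
    rename_i v v' w
    rw [enc, ok]
    refine ⟨?_, ih h' hp.of_cons⟩
    intro he
    have h1 := st_spec h
    have h2 := st_spec h'
    rw [he, vec_opp] at h2
    have h3 : v' = u := by
      funext i
      have a := congrFun h1 i
      have b := congrFun h2 i
      rw [Pi.add_apply] at a
      rw [Pi.add_apply, Pi.neg_apply] at b
      omega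
    have h4 := (SimpleGraph.Walk.cons_isPath_iff _ _).1 hp
    apply h4.2
    rw [SimpleGraph.Walk.support_cons]
    refine List.mem_cons_of_mem _ ?_
    rw [← h3]
    exact SimpleGraph.Walk.start_mem_support p

theorem wt_nonneg {d : ℕ} {z g : ℝ} (hz : 0 < z) (hg : 0 < g) (l : List (S d)) : 0 ≤ wt z g l := by
  induction l with
  | nil => simp [wt]
  | cons t l ih => rw [wt]; positivity

/-- splitting a finite set of lists by the head -/
theorem split_heads {d : ℕ} {z g : ℝ} (hz : 0 < z) (hg : 0 < g) (L : Finset (List (S d)))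
    (Q : S d → Prop) [DecidablePred Q] (hQ : ∀ t l, t :: l ∈ L → Q t)
    (Bd : S d → ℝ)
    (hB : ∀ t, Q t → ∀ L' : Finset (List (S d)), (∀ l ∈ L', t :: l ∈ L) → ∑ l ∈ L', wt z g l ≤ Bd t) :
    ∑ l ∈ L, wt z g l ≤ 1 + ∑ t ∈ Finset.univ.filter Q, z * g ^ sg t * Bd t := by
  classical
  have hsub : L ⊆ {[]} ∪ (Finset.univ.filter Q).biUnion fun t =>
      ((L.filter fun l => l.head? = some t).image List.tail).image (List.cons t) := by
    intro l hl
    rw [Finset.mem_union]
    cases l with
    | nil => left; simp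
    | cons t l =>
      right
      rw [Finset.mem_biUnion]
      refine ⟨t, Finset.mem_filter.2 ⟨Finset.mem_univ _, hQ t l hl⟩, ?_⟩
      rw [Finset.mem_image]
      refine ⟨l, ?_, rfl⟩
      rw [Finset.mem_image]
      exact ⟨t :: l, Finset.mem_filter.2 ⟨hl, rfl⟩, rfl⟩
  calc ∑ l ∈ L, wt z g l ≤ ∑ l ∈ {[]} ∪ (Finset.univ.filter Q).biUnion fun t =>
      ((L.filter fun l => l.head? = some t).image List.tail).image (List.cons t), wt z g l :=
        Finset.sum_le_sum_of_subset_of_nonneg hsub fun l _ _ => wt_nonneg hz hg l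
    _ ≤ ∑ l ∈ ({[]} : Finset (List (S d))), wt z g l +
        ∑ l ∈ (Finset.univ.filter Q).biUnion fun t =>
      ((L.filter fun l => l.head? = some t).image List.tail).image (List.cons t), wt z g l := by
        rw [← Finset.sum_union_inter]
        have := Finset.sum_nonneg fun l (_ : l ∈ ({[]} : Finset (List (S d))) ∩
          (Finset.univ.filter Q).biUnion fun t =>
          ((L.filter fun l => l.head? = some t).image List.tail).image (List.cons t)) =>
            wt_nonneg hz hg l
        linarith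
    _ ≤ 1 + ∑ t ∈ Finset.univ.filter Q, z * g ^ sg t * Bd t := by
        refine add_le_add (by simp [wt]) ?_
        rw [Finset.sum_biUnion]
        swap
        · intro t _ t' _ htt'
          rw [Function.onFun, Finset.disjoint_left]
          intro l h1 h2
          rw [Finset.mem_image] at h1 h2
          obtain ⟨a, _, rfl⟩ := h1
          obtain ⟨b, _, h3⟩ := h2
          exact htt' (List.cons.inj h3).1.symm
        refine Finset.sum_le_sum fun t ht => ?_
        rw [Finset.sum_image (by intro a _ b _ h; exact (List.cons.inj h).2)]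
        simp only [wt]
        rw [← Finset.mul_sum]
        refine mul_le_mul_of_nonneg_left ?_ (by positivity)
        refine hB t (Finset.mem_filter.1 ht).2 _ ?_
        intro l hl
        rw [Finset.mem_image] at hl
        obtain ⟨l', hl', rfl⟩ := hl
        rw [Finset.mem_filter] at hl'
        cases l' with
        | nil => simp at hl'
        | cons a l'' =>
          simp only [List.head?_cons, Option.some.injEq] at hl'
          rw [← hl'.2]
          exact hl'.1

/-- potential of a step -/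
def ph {d : ℕ} (φ₁ φ₂ : ℝ) (t : S d) : ℝ := if t.2 then φ₁ else φ₂

theorem sum_allowed {d : ℕ} {z g φ₁ φ₂ ρ K : ℝ} (hK : 0 ≤ K)
    (h1 : z * (d * g * φ₁ + (d - 1) * g⁻¹ * φ₂) ≤ ρ * φ₁)
    (h2 : z * ((d - 1) * g * φ₁ + d * g⁻¹ * φ₂) ≤ ρ * φ₂) (s : S d) :
    ∑ t ∈ Finset.univ.filter (fun t => t ≠ opp s), z * g ^ sg t * (K * ph φ₁ φ₂ t) ≤
      K * (ρ * ph φ₁ φ₂ s) := by
  have hall : ∑ t : S d, z * g ^ sg t * (K * ph φ₁ φ₂ t) =
      K * (z * (d * g * φ₁ + d * g⁻¹ * φ₂)) := by
    rw [Fintype.sum_prod_type]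
    have : ∀ i : Fin d, ∑ b : Bool, z * g ^ sg ((i, b) : S d) * (K * ph φ₁ φ₂ ((i, b) : S d)) =
        K * (z * (g * φ₁ + g⁻¹ * φ₂)) := by
      intro i
      rw [Fintype.sum_bool]
      simp only [sg, ph, if_true, zpow_one, Bool.false_eq_true, if_false, zpow_neg]
      ring
    simp only [this, Finset.sum_const, Finset.card_univ, Fintype.card_fin, nsmul_eq_mul]
    ring
  have hsplit : ∑ t ∈ Finset.univ.filter (fun t => t ≠ opp s), z * g ^ sg t * (K * ph φ₁ φ₂ t) =
      ∑ t : S d, z * g ^ sg t * (K * ph φ₁ φ₂ t) -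
        z * g ^ sg (opp s) * (K * ph φ₁ φ₂ (opp s)) := by
    rw [Finset.filter_ne', ← Finset.add_sum_erase _ _ (Finset.mem_univ (opp s))]
    ring
  rw [hsplit, hall]
  obtain ⟨i, b⟩ := s
  cases b
  · simp only [opp, sg, ph, Bool.not_false, if_true, zpow_one, Bool.false_eq_true, if_false]
    have := mul_le_mul_of_nonneg_left h2 hK
    linarith
  · simp only [opp, sg, ph, Bool.not_true, if_true, Bool.false_eq_true, if_false, zpow_neg, zpow_one]
    have := mul_le_mul_of_nonneg_left h1 hK
    linarith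

theorem bound {d : ℕ} {z g φ₁ φ₂ ρ K : ℝ} (hz : 0 < z) (hg : 0 < g) (hK : 0 ≤ K)
    (hρ0 : 0 ≤ ρ) (p1 : 0 < φ₁) (p2 : 0 < φ₂)
    (h1 : z * (d * g * φ₁ + (d - 1) * g⁻¹ * φ₂) ≤ ρ * φ₁)
    (h2 : z * ((d - 1) * g * φ₁ + d * g⁻¹ * φ₂) ≤ ρ * φ₂)
    (k1 : 1 ≤ K * ((1 - ρ) * φ₁)) (k2 : 1 ≤ K * ((1 - ρ) * φ₂)) (m : ℕ) :
    ∀ (s : S d) (L : Finset (List (S d))), (∀ l ∈ L, ok s l ∧ l.length ≤ m) →
      ∑ l ∈ L, wt z g l ≤ K * ph φ₁ φ₂ s := by
  induction m with
  | zero =>
    intro s L hL
    have hsub : L ⊆ {[]} := by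
      intro l hl
      have := (hL l hl).2
      rw [Finset.mem_singleton]
      exact List.length_eq_zero_iff.1 (by omega)
    have h3 : ∑ l ∈ L, wt z g l ≤ 1 := by
      refine (Finset.sum_le_sum_of_subset_of_nonneg hsub fun l _ _ => wt_nonneg hz hg l).trans ?_
      simp [wt]
    refine h3.trans ?_
    unfold ph
    split_ifs
    · have hρ : 0 ≤ K * φ₁ * ρ := by positivity
      linarith
    · have hρ : 0 ≤ K * φ₂ * ρ := by positivity
      linarith
  | succ m ih =>
    intro s L hL
    have h3 := split_heads hz hg L (fun t => t ≠ opp s) (fun t l hl => (hL _ hl).1.1)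
      (fun t => K * ph φ₁ φ₂ t) (fun t _ L' hL' => ih t L' fun l hl => by
        have := hL _ (hL' l hl)
        refine ⟨this.1.2, ?_⟩
        have h4 := this.2
        rw [List.length_cons] at h4
        omega)
    have h4 := sum_allowed hK h1 h2 s
    refine h3.trans ?_
    have h5 : 1 ≤ K * ((1 - ρ) * ph φ₁ φ₂ s) := by
      unfold ph
      split_ifs
      · exact k1
      · exact k2
    linarith

end PkgCOUNT

open PkgCOUNT in
theorem pCOUNT : S_COUNT := by
  classical
  rintro d g z hd hg hz ⟨φ₁, φ₂, ρ, p1, p2, hρ, h1, h2⟩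
  have hg0 : 0 < g := by linarith
  have hd' : (1 : ℝ) ≤ d := by exact_mod_cast hd
  have hρ0 : 0 ≤ ρ := by
    have h3 : 0 ≤ z * (d * g * φ₁ + (d - 1) * g⁻¹ * φ₂) := by
      have : 0 ≤ (d : ℝ) - 1 := by linarith
      positivity
    exact nonneg_of_mul_nonneg_left (h3.trans h1) p1
  have hρ1 : 0 < 1 - ρ := by linarith
  set K0 : ℝ := 1 / ((1 - ρ) * φ₁) + 1 / ((1 - ρ) * φ₂) with hK0
  have hK0' : 0 ≤ K0 := by positivity
  have k1 : 1 ≤ K0 * ((1 - ρ) * φ₁) := by
    rw [hK0, add_mul, one_div, inv_mul_cancel₀ (by positivity)]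
    have : 0 ≤ 1 / ((1 - ρ) * φ₂) * ((1 - ρ) * φ₁) := by positivity
    linarith
  have k2 : 1 ≤ K0 * ((1 - ρ) * φ₂) := by
    rw [hK0, add_mul, one_div, one_div, inv_mul_cancel₀ (by positivity : (1 - ρ) * φ₂ ≠ 0)]
    have : 0 ≤ ((1 - ρ) * φ₁)⁻¹ * ((1 - ρ) * φ₂) := by positivity
    linarith
  refine ⟨1 + ∑ t ∈ Finset.univ.filter (fun _ : S d => True), z * g ^ sg t * (K0 * ph φ₁ φ₂ t),
    ?_, ?_⟩
  · have : ∀ t : S d, 0 ≤ z * g ^ sg t * (K0 * ph φ₁ φ₂ t) := by
      intro t
      have : 0 ≤ ph φ₁ φ₂ t := by unfold ph; split_ifs <;> linarith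
      positivity
    have := Finset.sum_nonneg fun t (_ : t ∈ Finset.univ.filter (fun _ : S d => True)) => this t
    linarith
  · intro x F hF
    have e1 : ∀ p ∈ F, z ^ p.length = wt z g (enc p) * g ^ (-∑ i, x i) := by
      intro p _
      rw [wt_enc hg0.ne', mul_assoc, ← zpow_add₀ hg0.ne']
      simp
    rw [Finset.sum_congr rfl e1, ← Finset.sum_mul]
    refine mul_le_mul_of_nonneg_right ?_ (by positivity)
    rw [← Finset.sum_image (f := fun l => wt z g l) (g := fun p : (Lat d).Walk 0 x => enc p)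
      (fun p _ q _ h => enc_inj p q h)]
    refine split_heads hz hg0 _ (fun _ => True) (fun _ _ _ => trivial) (fun t => K0 * ph φ₁ φ₂ t) ?_
    intro t _ L' hL'
    refine bound hz hg0 hK0' hρ0 p1 p2 h1 h2 k1 k2 (L'.sup List.length) t L' ?_
    intro l hl
    refine ⟨?_, Finset.le_sup (f := List.length) hl⟩
    have h3 := hL' l hl
    rw [Finset.mem_image] at h3
    obtain ⟨p, hp, hpl⟩ := h3
    have hpath := hF p hp
    cases p with
    | nil => simp [enc] at hpl
    | cons h p' =>
      simp only [enc, List.cons.injEq] at hpl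
      rw [← hpl.1, ← hpl.2]
      exact ok_enc h p' hpath

end Pool.Agent.T2H92.FP
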