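import Pool.Agent.T2H92.FP.Stm

/-! # FP, package DIAG (helper21) -/

set_option autoImplicit false

open MeasureTheory ProbabilityTheory Filter Topology
open scoped ENNReal

namespace Pool.Agent.T2H92.FP

namespace PkgDIAG

/-- one step of the lattice -/
lemma adj_single {d : ℕ} (u : Fin d → ℤ) (i : Fin d) : (Lat d).Adj u (u + Pi.single i 1) := by
  unfold Lat
  rw [SimpleGraph.fromRel_adj]
  refine ⟨fun h => ?_, Or.inr ?_⟩
  · have := congrFun h i
    simp at this
  · have : ∀ j, |((u + Pi.single i 1 : Fin d → ℤ) j) - u j| = if j = i then 1 else 0 := by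
      intro j
      by_cases hj : j = i
      · subst hj
        simp
      · simp [hj]
    rw [Finset.sum_congr rfl fun j _ => this j]
    simp

lemma reach_sum {d : ℕ} (u : Fin d → ℤ) (S : Finset (Fin d)) :
    (Lat d).Reachable u (u + ∑ i ∈ S, Pi.single i 1) := by
  classical
  induction S using Finset.induction_on with
  | empty => simp
  | insert i S hi ih =>
    rw [Finset.sum_insert hi, add_comm (Pi.single i 1), ← add_assoc]
    exact ih.trans (adj_single _ i).reachable

lemma reach_one {d : ℕ} (u : Fin d → ℤ) : (Lat d).Reachable u (u + 1) := by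
  have h := reach_sum u Finset.univ
  have h1 : (∑ i : Fin d, Pi.single i (1 : ℤ)) = (1 : Fin d → ℤ) := by
    have := Finset.univ_sum_single (1 : Fin d → ℤ)
    simpa using this
  rwa [h1] at h

lemma reach_n {d : ℕ} (n : ℕ) : (Lat d).Reachable 0 (n • (1 : Fin d → ℤ)) := by
  induction n with
  | zero => simp
  | succ n ih =>
    rw [succ_nsmul]
    exact ih.trans (reach_one _)

instance countable_walk {V : Type} [Countable V] (G : SimpleGraph V) (u v : V) :
    Countable (G.Walk u v) :=
  Function.Injective.countable (f := fun p : G.Walk u v => p.support)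
    fun _ _ h => SimpleGraph.Walk.ext_support h

instance countable_sym2 {V : Type} [Countable V] : Countable (Sym2 V) :=
  inferInstanceAs (Countable (Quot _))

lemma exp_nonneg_ae {Ω : Type} [MeasurableSpace Ω] (P : Measure Ω) (f : Ω → ℝ)
    (hf : Measurable f) (h : P.map f = expMeasure 1) : ∀ᵐ t ∂P, 0 ≤ f t := by
  have h1 : P (f ⁻¹' Set.Iio 0) = 0 := by
    rw [← Measure.map_apply hf measurableSet_Iio, h]
    unfold expMeasure gammaMeasure
    rw [withDensity_apply _ measurableSet_Iio]
    exact lintegral_exponentialPDF_of_nonpos le_rfl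
  rw [ae_iff]
  convert h1 using 2
  ext t
  simp

end PkgDIAG

open PkgDIAG

theorem pDIAG (hCOUNT : S_COUNT) (hLAP : S_LAP) : S_DIAG := by
  intro d g θ s hd hg hθ hNB hs Ω _ P _ ω hind hω L hL
  by_contra hlt
  push Not at hlt
  have hg0 : 0 < g := by linarith
  have hz0 : (0 : ℝ) < 1 / (1 + θ) := by positivity
  obtain ⟨K, hK, hcount⟩ := hCOUNT d g (1 / (1 + θ)) hd hg hz0 hNB
  -- the weights are nonnegative
  have hnn : ∀ᵐ t ∂P, ∀ e, 0 ≤ ω e t := by
    rw [ae_all_iff]
    exact fun e => exp_nonneg_ae P (ω e) (hω e).1 (hω e).2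
  -- the events
  set x : ℕ → Fin d → ℤ := fun n => n • (1 : Fin d → ℤ) with hx
  set A : ℕ → Set Ω := fun n => {t | (∀ e, 0 ≤ ω e t) ∧ TT ω (x n) t < s * n} with hA
  set r : ℝ := Real.exp (θ * s) * g ^ (-(d : ℤ)) with hr
  have hr0 : 0 ≤ r := by positivity
  have hr1 : r < 1 := by
    rw [hr]
    have h1 : g ^ (-(d : ℤ)) = Real.exp (-(d * Real.log g)) := by
      rw [Real.exp_neg, zpow_neg, zpow_natCast, Real.exp_nat_mul, Real.exp_log hg0]
    rw [h1, ← Real.exp_add, Real.exp_lt_one_iff]
    linarith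
  have hbound : ∀ n : ℕ, P (A n) ≤ ENNReal.ofReal (K * r ^ n) := by
    intro n
    have hsub : A n ⊆ ⋃ p : {p : (Lat d).Walk 0 (x n) // p.IsPath},
        {t | (p.1.edges.map (fun e => ω e t)).sum ≤ s * n} := by
      rintro t ⟨h1, h2⟩
      have hne : Nonempty ((Lat d).Walk 0 (x n)) := reach_n n
      have h3 : (⨅ p : (Lat d).Walk 0 (x n), (p.edges.map (fun e => ω e t)).sum) < s * n := h2
      obtain ⟨p, hp⟩ := exists_lt_of_ciInf_lt h3
      rw [Set.mem_iUnion]
      classical
      refine ⟨⟨p.bypass, p.bypass_isPath⟩, ?_⟩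
      have h4 : (p.bypass.edges.map (fun e => ω e t)).sum ≤ (p.edges.map (fun e => ω e t)).sum := by
        refine List.Sublist.sum_le_sum (p.edges_bypass_sublist_edges.map _) ?_
        intro a ha
        rw [List.mem_map] at ha
        obtain ⟨e, -, rfl⟩ := ha
        exact h1 e
      exact h4.trans hp.le
    refine (measure_mono hsub).trans ((measure_iUnion_le _).trans ?_)
    have hE : ∑ i, x n i = (n : ℤ) * d := by
      simp [hx, mul_comm]
    have hkey : ∀ p : {p : (Lat d).Walk 0 (x n) // p.IsPath},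
        P {t | (p.1.edges.map (fun e => ω e t)).sum ≤ s * n} ≤
          ENNReal.ofReal (Real.exp (θ * (s * n)) * (1 / (1 + θ)) ^ p.1.length) :=
      fun p => hLAP _ (Lat d) Ω P ω hind hω 0 (x n) p.1 p.2 θ (s * n) hθ
    refine (ENNReal.tsum_le_tsum hkey).trans ?_
    rw [ENNReal.tsum_eq_iSup_sum]
    refine iSup_le fun F => ?_
    rw [← ENNReal.ofReal_sum_of_nonneg fun p _ => by positivity]
    refine ENNReal.ofReal_le_ofReal ?_
    rw [← Finset.mul_sum]
    have h5 := hcount (x n) (F.map ⟨Subtype.val, Subtype.val_injective⟩) (by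
      intro p hp
      rw [Finset.mem_map] at hp
      obtain ⟨q, -, rfl⟩ := hp
      exact q.2)
    rw [Finset.sum_map] at h5
    simp only [Function.Embedding.coeFn_mk] at h5
    calc Real.exp (θ * (s * n)) * ∑ p ∈ F, (1 / (1 + θ)) ^ p.1.length
        ≤ Real.exp (θ * (s * n)) * (K * g ^ (-∑ i, x n i)) :=
          mul_le_mul_of_nonneg_left h5 (Real.exp_pos _).le
      _ = K * r ^ n := by
          rw [hr, mul_pow, ← Real.exp_nat_mul, hE, ← zpow_natCast (g ^ (-(d : ℤ))), ← zpow_mul]
          have e1 : θ * (s * n) = n * (θ * s) := by ring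
          have e2 : -((n : ℤ) * d) = -(d : ℤ) * n := by ring
          rw [e1, e2]
          ring
  have hsum : ∑' n, P (A n) ≠ ∞ := by
    have h1 : ∑' n, P (A n) ≤ ∑' n : ℕ, ENNReal.ofReal (K * r ^ n) := ENNReal.tsum_le_tsum hbound
    have h2 : Summable fun n : ℕ => K * r ^ n := (summable_geometric_of_lt_one hr0 hr1).mul_left K
    rw [← ENNReal.ofReal_tsum_of_nonneg (fun n => by positivity) h2] at h1
    exact ne_top_of_le_ne_top ENNReal.ofReal_ne_top h1
  have hev := ae_eventually_notMem hsum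
  have hall : ∀ᵐ t ∂P, False := by
    filter_upwards [hev, hL, hnn] with t h1 h2 h3
    have h4 : ∀ᶠ n : ℕ in atTop, TT ω (n • (1 : Fin d → ℤ)) t / n < s := h2.eventually_lt_const hlt
    obtain ⟨n, h5, h6, h7⟩ := (h1.and (h4.and (eventually_gt_atTop 0))).exists
    apply h5
    refine ⟨h3, ?_⟩
    have hn : (0 : ℝ) < n := by exact_mod_cast h7
    rwa [div_lt_iff₀ hn] at h6
  rw [ae_iff] at hall
  simp at hall

end Pool.Agent.T2H92.FP
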