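import Pool.Agent.T2H92.FP.Stm

set_option autoImplicit false

/-!
# Package EXPL: exploration of the slab
-/

open MeasureTheory ProbabilityTheory Filter Topology Finset
open scoped ENNReal

namespace Pool.Agent.T2H92.FP

noncomputable section

namespace PkgEXPL

variable {D : ℕ}

/-- the layer `k` of `S` -/
def lay (S : Finset (Fin (D + 1) → ℤ)) (k : ℤ) : Finset (Fin (D + 1) → ℤ) :=
  S.filter fun v => v 0 = k

/-- insertion of the coordinate `0` -/
def cs (k : ℤ) (u : Fin D → ℤ) : Fin (D + 1) → ℤ := Fin.cons k u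

theorem cs_zero (k : ℤ) (u : Fin D → ℤ) : cs k u 0 = k := by
  simp [cs]

theorem cs_succ (k : ℤ) (u : Fin D → ℤ) (i : Fin D) : cs k u i.succ = u i := by
  simp [cs]

theorem cs_tail (v : Fin (D + 1) → ℤ) : cs (v 0) (Fin.tail v) = v := by
  rw [cs, Fin.cons_self_tail]

theorem tail_cs (k : ℤ) (u : Fin D → ℤ) : Fin.tail (cs k u) = u := by
  rw [cs, Fin.tail_cons]

theorem cs_inj {k : ℤ} {u u' : Fin D → ℤ} (h : cs k u = cs k u') : u = u' := by
  rw [← tail_cs k u, h, tail_cs]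

/-- the projection of the layer `k` -/
def pl (S : Finset (Fin (D + 1) → ℤ)) (k : ℤ) : Finset (Fin D → ℤ) :=
  (lay S k).image Fin.tail

theorem mem_pl {S : Finset (Fin (D + 1) → ℤ)} {k : ℤ} {u : Fin D → ℤ} :
    u ∈ pl S k ↔ cs k u ∈ S := by
  rw [pl, mem_image]
  constructor
  · rintro ⟨v, hv, rfl⟩
    rw [lay, mem_filter] at hv
    rw [← hv.2, cs_tail]
    exact hv.1
  · intro h
    refine ⟨cs k u, ?_, tail_cs k u⟩
    rw [lay, mem_filter]
    exact ⟨h, cs_zero k u⟩

theorem card_pl (S : Finset (Fin (D + 1) → ℤ)) (k : ℤ) : (pl S k).card = (lay S k).card := by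
  rw [pl]
  apply card_image_of_injOn
  intro v hv v' hv' h
  rw [mem_coe, lay, mem_filter] at hv hv'
  rw [← cs_tail v, ← cs_tail v', hv.2, hv'.2, h]

/-- in-plane boundary edges of the layer `k` -/
def ep (S : Finset (Fin (D + 1) → ℤ)) (k : ℤ) :
    Finset ((Fin (D + 1) → ℤ) × (Fin (D + 1) → ℤ)) :=
  (bp (pl S k)).image fun p => (cs k p.1, cs k p.2)

/-- vertical edges above the layer `k` -/
def ev (k : ℤ) (B : Finset (Fin D → ℤ)) : Finset ((Fin (D + 1) → ℤ) × (Fin (D + 1) → ℤ)) :=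
  B.image fun u => (cs k u, cs (k + 1) u)

theorem card_ep (S : Finset (Fin (D + 1) → ℤ)) (k : ℤ) : (ep S k).card = (bp (pl S k)).card := by
  rw [ep]
  apply card_image_of_injective
  rintro ⟨a, b⟩ ⟨a', b'⟩ h
  rw [Prod.mk.injEq] at h
  exact Prod.ext (cs_inj h.1) (cs_inj h.2)

theorem card_ev (k : ℤ) (B : Finset (Fin D → ℤ)) : (ev k B).card = B.card := by
  rw [ev]
  apply card_image_of_injective
  intro a a' h
  rw [Prod.mk.injEq] at h
  exact cs_inj h.1

theorem lat_adj {d : ℕ} {u v : Fin d → ℤ} (h : ∑ i, |u i - v i| = 1) : (Lat d).Adj u v := by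
  rw [Lat, SimpleGraph.fromRel_adj]
  refine ⟨?_, Or.inl h⟩
  rintro rfl
  simp at h

/-- what we need of an edge of the exploration -/
structure Ok (N : ℕ) (S : Finset (Fin (D + 1) → ℤ)) (k : ℤ)
    (p : (Fin (D + 1) → ℤ) × (Fin (D + 1) → ℤ)) : Prop where
  h1 : p.1 ∈ S
  h2 : p.2 ∉ S
  adj : (Slab D N).Adj p.1 p.2
  lev : p.2 0 = k
  near : ∀ i : Fin D, |p.2 i.succ| ≤ |p.1 i.succ| + 1

theorem ep_ok {N : ℕ} {S : Finset (Fin (D + 1) → ℤ)} {k : ℤ} (hS : ∀ v ∈ S, 0 ≤ v 0) (hk : k < N)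
    {p : (Fin (D + 1) → ℤ) × (Fin (D + 1) → ℤ)} (hp : p ∈ ep S k) : Ok N S k p := by
  rw [ep, mem_image] at hp
  obtain ⟨⟨s, v⟩, hq, rfl⟩ := hp
  rw [bp, mem_filter, mem_product] at hq
  obtain ⟨⟨h1, -⟩, h3, h4⟩ := hq
  simp only at h1 h3 h4
  have h1' : cs k s ∈ S := mem_pl.1 h1
  have hk0 : 0 ≤ k := by
    have := hS _ h1'
    rwa [cs_zero] at this
  rw [nbr, mem_image] at h3
  obtain ⟨⟨i, c⟩, -, rfl⟩ := h3
  simp only
  have hne : ∀ j, j ≠ i → Function.update s i (s i + if c then 1 else -1) j = s j := fun j hj =>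
    Function.update_of_ne hj _ _
  have heq : Function.update s i (s i + if c then 1 else -1) i = s i + if c then 1 else -1 :=
    Function.update_self _ _ _
  refine ⟨h1', fun h => h4 (mem_pl.2 h), ⟨lat_adj ?_, ?_⟩, by simp only [cs_zero], ?_⟩
  · rw [Fin.sum_univ_succ]
    dsimp only
    rw [cs_zero, cs_zero, sub_self, abs_zero, zero_add]
    simp only [cs_succ]
    rw [Finset.sum_eq_single i]
    · rw [heq]
      cases c <;> simp
    · intro j _ hj
      rw [hne j hj, sub_self, abs_zero]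
    · intro h
      exact absurd (mem_univ i) h
  · simp only [cs_zero, min_self]
    exact ⟨hk0, hk⟩
  · intro j
    dsimp only
    rw [cs_succ, cs_succ]
    by_cases hj : j = i
    · subst hj
      rw [heq]
      refine (abs_add_le _ _).trans ?_
      cases c <;> simp
    · rw [hne j hj]
      linarith

theorem ev_ok {N : ℕ} {S : Finset (Fin (D + 1) → ℤ)} {k : ℤ} {B : Finset (Fin D → ℤ)}
    (hS : ∀ v ∈ S, 0 ≤ v 0) (hk : k < N) (hB : ∀ u ∈ B, cs k u ∈ S ∧ cs (k + 1) u ∉ S)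
    {p : (Fin (D + 1) → ℤ) × (Fin (D + 1) → ℤ)} (hp : p ∈ ev k B) : Ok N S (k + 1) p := by
  rw [ev, mem_image] at hp
  obtain ⟨u, hu, rfl⟩ := hp
  obtain ⟨h1, h2⟩ := hB u hu
  have hk0 : 0 ≤ k := by
    have := hS _ h1
    rwa [cs_zero] at this
  refine ⟨h1, h2, ⟨lat_adj ?_, ?_⟩, by simp only [cs_zero], ?_⟩
  · rw [Fin.sum_univ_succ]
    dsimp only
    rw [cs_zero, cs_zero]
    simp [cs_succ]
  · simp only [cs_zero]
    rw [min_eq_left (by omega)]
    exact ⟨hk0, hk⟩
  · intro j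
    dsimp only
    rw [cs_succ, cs_succ]
    linarith

/-- the boundary edges used in one step -/
theorem edges (hISO : S_ISO) {N : ℕ} {S : Finset (Fin (D + 1) → ℤ)} {t : ℤ} (htN : t < N)
    (hS : ∀ v ∈ S, 0 ≤ v 0 ∧ v 0 ≤ t) {ra rb : ℕ}
    (hra : ra + 2 * ef (lay S (t - 1)).card ≤ 2 * D * (lay S (t - 1)).card)
    (hrb : rb + 2 * ef (lay S t).card ≤
      2 * D * (lay S t).card + ((lay S (t - 1)).card - (lay S t).card)) :
    ∃ A₁ A₂ A₃ : Finset ((Fin (D + 1) → ℤ) × (Fin (D + 1) → ℤ)),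
      A₁.card = ra ∧ A₂.card = rb ∧ A₃.card = (lay S t).card ∧
      (∀ p ∈ A₁, Ok N S (t - 1) p) ∧ (∀ p ∈ A₂, Ok N S t p) ∧ (∀ p ∈ A₃, Ok N S (t + 1) p) := by
  have hS0 : ∀ v ∈ S, 0 ≤ v 0 := fun v hv => (hS v hv).1
  obtain ⟨A₁, hA₁, hc₁⟩ := Finset.exists_subset_card_eq (s := ep S (t - 1)) (n := ra) (by
    have h := hISO D (pl S (t - 1))
    rw [card_pl] at h
    rw [card_ep]
    omega)
  have hdisj : Disjoint (ep S t) (ev (t - 1) (pl S (t - 1) \ pl S t)) := by
    rw [Finset.disjoint_left]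
    intro p hp hq
    rw [ep, mem_image] at hp
    rw [ev, mem_image] at hq
    obtain ⟨x, -, rfl⟩ := hp
    obtain ⟨u, -, hu⟩ := hq
    rw [Prod.mk.injEq] at hu
    have := congrFun hu.1 0
    rw [cs_zero, cs_zero] at this
    omega
  obtain ⟨A₂, hA₂, hc₂⟩ := Finset.exists_subset_card_eq
    (s := ep S t ∪ ev (t - 1) (pl S (t - 1) \ pl S t)) (n := rb) (by
    have h := hISO D (pl S t)
    rw [card_pl] at h
    have h2 := Finset.le_card_sdiff (pl S t) (pl S (t - 1))
    rw [card_pl, card_pl] at h2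
    rw [card_union_of_disjoint hdisj, card_ep, card_ev]
    omega)
  refine ⟨A₁, A₂, ev t (pl S t), hc₁, hc₂, by rw [card_ev, card_pl], ?_, ?_, ?_⟩
  · intro p hp
    exact ep_ok hS0 (by omega) (hA₁ hp)
  · intro p hp
    rcases mem_union.1 (hA₂ hp) with h | h
    · exact ep_ok hS0 htN h
    · have h3 : Ok N S (t - 1 + 1) p := by
        refine ev_ok hS0 (by omega) ?_ h
        intro u hu
        rw [Finset.mem_sdiff, mem_pl, mem_pl] at hu
        rw [sub_add_cancel]
        exact hu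
      rwa [sub_add_cancel] at h3
  · intro p hp
    refine ev_ok hS0 htN ?_ hp
    intro u hu
    refine ⟨mem_pl.1 hu, fun h => ?_⟩
    have := (hS _ h).2
    rw [cs_zero] at this
    omega

theorem lay_insert_eq {S : Finset (Fin (D + 1) → ℤ)} {v : Fin (D + 1) → ℤ} (hv : v ∉ S) :
    (lay (insert v S) (v 0)).card = (lay S (v 0)).card + 1 := by
  rw [lay, filter_insert, if_pos rfl, card_insert_of_notMem, lay]
  rw [mem_filter]
  exact fun h => hv h.1

theorem lay_insert_ne {S : Finset (Fin (D + 1) → ℤ)} {v : Fin (D + 1) → ℤ} {k : ℤ} (hv : v 0 ≠ k) :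
    lay (insert v S) k = lay S k := by
  rw [lay, filter_insert, if_neg hv, lay]

theorem card_ofReal (n : ℕ) : (n : ℝ≥0∞) = ENNReal.ofReal (n : ℝ) := (ENNReal.ofReal_natCast n).symm

/-- arithmetic of one step -/
theorem arith {ι : Type} {A₁ A₂ A₃ : Finset ι} {F : ι → ℝ≥0∞} {x₁ x₂ x₃ y : ℝ} {r₁ r₂ r₃ : ℕ}
    (h₁ : A₁.card = r₁) (h₂ : A₂.card = r₂) (h₃ : A₃.card = r₃) (h0 : 1 ≤ r₃)
    (hF₁ : ∀ p ∈ A₁, F p ≤ ENNReal.ofReal x₁) (hF₂ : ∀ p ∈ A₂, F p ≤ ENNReal.ofReal x₂)
    (hF₃ : ∀ p ∈ A₃, F p ≤ ENNReal.ofReal x₃) (hx₁ : 0 ≤ x₁) (hx₂ : 0 ≤ x₂) (hx₃ : 0 ≤ x₃)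
    (hy : 1 + r₁ * x₁ + r₂ * x₂ + r₃ * x₃ ≤ ((r₁ : ℝ) + r₂ + r₃) * y) :
    (1 + (∑ p ∈ A₁, F p + ∑ p ∈ A₂, F p + ∑ p ∈ A₃, F p)) / ((r₁ + r₂ + r₃ : ℕ) : ℝ≥0∞) ≤
      ENNReal.ofReal y := by
  have key : ∀ (A : Finset ι) (r : ℕ) (x : ℝ), A.card = r → (∀ p ∈ A, F p ≤ ENNReal.ofReal x) →
      0 ≤ x → ∑ p ∈ A, F p ≤ ENNReal.ofReal (r * x) := by
    intro A r x hA hF hx
    refine (Finset.sum_le_card_nsmul A F _ hF).trans ?_
    rw [hA, nsmul_eq_mul, card_ofReal, ← ENNReal.ofReal_mul (Nat.cast_nonneg r)]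
  have hr₁ : (0 : ℝ) ≤ r₁ := Nat.cast_nonneg _
  have hr₂ : (0 : ℝ) ≤ r₂ := Nat.cast_nonneg _
  have hr₃ : (0 : ℝ) ≤ r₃ := Nat.cast_nonneg _
  have e1 : 1 + (∑ p ∈ A₁, F p + ∑ p ∈ A₂, F p + ∑ p ∈ A₃, F p) ≤
      ENNReal.ofReal (1 + r₁ * x₁ + r₂ * x₂ + r₃ * x₃) := by
    rw [ENNReal.ofReal_add (by positivity) (by positivity),
      ENNReal.ofReal_add (by positivity) (by positivity),
      ENNReal.ofReal_add (by norm_num) (by positivity), ENNReal.ofReal_one]
    have := add_le_add (add_le_add (key A₁ r₁ x₁ h₁ hF₁ hx₁) (key A₂ r₂ x₂ h₂ hF₂ hx₂))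
      (key A₃ r₃ x₃ h₃ hF₃ hx₃)
    calc _ ≤ 1 + (ENNReal.ofReal (r₁ * x₁) + ENNReal.ofReal (r₂ * x₂) + ENNReal.ofReal (r₃ * x₃)) :=
          add_le_add le_rfl this
      _ = _ := by ring
  apply ENNReal.div_le_of_le_mul
  refine e1.trans ?_
  rw [card_ofReal, ← ENNReal.ofReal_mul' (Nat.cast_nonneg _)]
  apply ENNReal.ofReal_le_ofReal
  push_cast
  linarith

/-- the top layer is reached -/
theorem top_case {N R : ℕ} {S : Finset (Fin (D + 1) → ℤ)} (hb : 1 ≤ (lay S (N : ℤ)).card)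
    (hR : ∀ v ∈ S, ∀ i : Fin D, |v i.succ| ≤ R) (w : Sym2 (Fin (D + 1) → ℤ) → ℝ) :
    PhS (Slab D N) (term D N R) w S = 0 := by
  obtain ⟨v, hv⟩ := card_pos.1 hb
  rw [lay, mem_filter] at hv
  apply le_antisymm _ zero_le
  rw [PhS]
  refine (iInf₂_le v hv.1).trans ?_
  rw [Ph]
  refine (iInf₂_le v SimpleGraph.Walk.nil).trans ?_
  rw [SimpleGraph.Walk.edges_nil, List.map_nil, List.sum_nil, zero_add, term,
    if_pos ⟨hv.2, hR v hv.1⟩]

/-- the claim of the induction -/
theorem claim (hISO : S_ISO) (hONE : S_ONE) {mu : ℝ} (hmu : 0 ≤ mu) {AM BM : ℕ} {h : ℕ → ℕ → ℝ}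
    {ra rb : ℕ → ℕ → ℕ} (hBM : 1 ≤ BM) (hAB : BM ≤ AM) (hh : ∀ a b, 0 ≤ h a b)
    (hC : ∀ a b, a ≤ AM → 1 ≤ b → b ≤ BM →
      ra a b + 2 * ef a ≤ 2 * D * a ∧ rb a b + 2 * ef b ≤ 2 * D * b + (a - b) ∧
      (a = AM → ra a b = 0) ∧ (b = BM → rb a b = 0) ∧
      1 + ra a b * h (a + 1) b + rb a b * h a (b + 1) + b * (h b 1 - mu) ≤
        ((ra a b : ℝ) + rb a b + b) * h a b) (N R : ℕ) :
    ∀ (n t : ℕ) (S : Finset (Fin (D + 1) → ℤ)), t ≤ N → (∀ v ∈ S, 0 ≤ v 0 ∧ v 0 ≤ t) →
      (lay S ((t : ℤ) - 1)).card ≤ AM → 1 ≤ (lay S t).card → (lay S t).card ≤ BM →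
      (N - t) * (AM + BM + 1) + (AM - (lay S ((t : ℤ) - 1)).card) + (BM - (lay S t).card) ≤ n →
      (∀ v ∈ S, ∀ i : Fin D, |v i.succ| + n ≤ R) →
      ∫⁻ w, PhS (Slab D N) (term D N R) w S ∂(nu (Sym2 (Fin (D + 1) → ℤ))) ≤
        ENNReal.ofReal (mu * ((N : ℝ) - t) + h (lay S ((t : ℤ) - 1)).card (lay S t).card) := by
  intro n
  induction n with
  | zero =>
    intro t S htN hS ha hb1 hb2 hms hR
    have htN' : t = N := by
      by_contra hne
      have h1 : 1 ≤ N - t := by omega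
      have h2 : 1 * (AM + BM + 1) ≤ (N - t) * (AM + BM + 1) := Nat.mul_le_mul_right _ h1
      omega
    subst htN'
    simp only [top_case hb1 (fun v hv i => by have := hR v hv i; simpa using this),
      lintegral_zero, zero_le]
  | succ n ih =>
    intro t S htN hS ha hb1 hb2 hms hR
    rcases Nat.lt_or_ge t N with hlt | hge
    swap
    · have htN' : t = N := by omega
      subst htN'
      simp only [top_case hb1 (fun v hv i => by have := hR v hv i; push_cast at this; linarith),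
        lintegral_zero, zero_le]
    set a := (lay S ((t : ℤ) - 1)).card with hadef
    set b := (lay S t).card with hbdef
    obtain ⟨c1, c2, c3, c4, c5⟩ := hC a b ha hb1 hb2
    obtain ⟨A₁, A₂, A₃, hA1, hA2, hA3, o1, o2, o3⟩ := edges hISO (N := N) (S := S) (t := t)
      (by omega) hS (ra := ra a b) (rb := rb a b) (by rw [← hadef]; exact c1)
      (by rw [← hadef, ← hbdef]; exact c2)
    -- the new sets
    have hb' : ∀ {k : ℤ} {p : (Fin (D + 1) → ℤ) × (Fin (D + 1) → ℤ)}, Ok N S k p →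
        ∀ v ∈ insert p.2 S, ∀ i : Fin D, |v i.succ| + n ≤ R := by
      intro k p hp v hv i
      rcases mem_insert.1 hv with rfl | hv
      · have h1 := hp.near i
        have h2 := hR _ hp.h1 i
        push_cast at h2
        linarith
      · have h2 := hR _ hv i
        push_cast at h2
        linarith
    have hN1 : 1 * (AM + BM + 1) ≤ (N - t) * (AM + BM + 1) := Nat.mul_le_mul_right _ (by omega)
    have hN2 : (N - (t + 1)) * (AM + BM + 1) + (AM + BM + 1) = (N - t) * (AM + BM + 1) := by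
      rw [show N - t = (N - (t + 1)) + 1 by omega]
      ring
    have htR : (t : ℝ) + 1 ≤ N := by exact_mod_cast hlt
    have q1 : ∀ p ∈ A₁, ∫⁻ w, PhS (Slab D N) (term D N R) w (insert p.2 S)
        ∂(nu (Sym2 (Fin (D + 1) → ℤ))) ≤ ENNReal.ofReal (mu * ((N : ℝ) - t) + h (a + 1) b) := by
      intro p hp
      have hk := o1 p hp
      have haM : a ≠ AM := by
        intro he
        have := c3 he
        rw [← hA1] at this
        rw [card_eq_zero.1 this] at hp
        exact absurd hp (notMem_empty p)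
      have hl1 : (lay (insert p.2 S) ((t : ℤ) - 1)).card = a + 1 := by
        have := lay_insert_eq hk.h2
        rwa [hk.lev] at this
      have hl2 : (lay (insert p.2 S) (t : ℤ)).card = b := by
        rw [lay_insert_ne (by rw [hk.lev]; omega)]
      have := ih t (insert p.2 S) htN (by
          intro v hv
          rcases mem_insert.1 hv with rfl | hv
          · rw [hk.lev]
            have h0 := hS _ hk.h1
            have h3 := hk.adj.2
            refine ⟨?_, by omega⟩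
            have := h3.1
            rw [hk.lev] at this
            exact this.trans (min_le_right _ _)
          · exact hS v hv) (by omega) (by omega) (by omega) (by omega) (hb' hk)
      rwa [hl1, hl2] at this
    have q2 : ∀ p ∈ A₂, ∫⁻ w, PhS (Slab D N) (term D N R) w (insert p.2 S)
        ∂(nu (Sym2 (Fin (D + 1) → ℤ))) ≤ ENNReal.ofReal (mu * ((N : ℝ) - t) + h a (b + 1)) := by
      intro p hp
      have hk := o2 p hp
      have haM : b ≠ BM := by
        intro he
        have := c4 he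
        rw [← hA2] at this
        rw [card_eq_zero.1 this] at hp
        exact absurd hp (notMem_empty p)
      have hl1 : (lay (insert p.2 S) ((t : ℤ) - 1)).card = a := by
        rw [lay_insert_ne (by rw [hk.lev]; omega)]
      have hl2 : (lay (insert p.2 S) (t : ℤ)).card = b + 1 := by
        have := lay_insert_eq hk.h2
        rwa [hk.lev] at this
      have := ih t (insert p.2 S) htN (by
          intro v hv
          rcases mem_insert.1 hv with rfl | hv
          · rw [hk.lev]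
            omega
          · exact hS v hv) (by omega) (by omega) (by omega) (by omega) (hb' hk)
      rwa [hl1, hl2] at this
    have q3 : ∀ p ∈ A₃, ∫⁻ w, PhS (Slab D N) (term D N R) w (insert p.2 S)
        ∂(nu (Sym2 (Fin (D + 1) → ℤ))) ≤ ENNReal.ofReal (mu * ((N : ℝ) - t - 1) + h b 1) := by
      intro p hp
      have hk := o3 p hp
      have hl1 : (lay (insert p.2 S) (((t + 1 : ℕ) : ℤ) - 1)).card = b := by
        push_cast
        rw [add_sub_cancel_right, lay_insert_ne (by rw [hk.lev]; omega)]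
      have hl2 : (lay (insert p.2 S) ((t + 1 : ℕ) : ℤ)).card = 1 := by
        have := lay_insert_eq hk.h2
        rw [hk.lev] at this
        push_cast
        rw [this]
        have h0 : lay S ((t : ℤ) + 1) = ∅ := by
          rw [lay, filter_eq_empty_iff]
          intro v hv he
          have := (hS v hv).2
          omega
        rw [h0, card_empty]
      have := ih (t + 1) (insert p.2 S) (by omega) (by
          intro v hv
          rcases mem_insert.1 hv with rfl | hv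
          · rw [hk.lev]
            push_cast
            omega
          · have := hS v hv
            push_cast
            omega) (by omega) (by omega) (by omega) (by omega) (hb' hk)
      rw [hl1, hl2] at this
      refine this.trans (le_of_eq ?_)
      congr 2
      push_cast
      ring
    -- the union
    have d12 : Disjoint A₁ A₂ := by
      rw [Finset.disjoint_left]
      intro p hp hq
      have h1 := (o1 p hp).lev
      have h2 := (o2 p hq).lev
      omega
    have d123 : Disjoint (A₁ ∪ A₂) A₃ := by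
      rw [Finset.disjoint_left]
      intro p hp hq
      have h3 := (o3 p hq).lev
      rcases mem_union.1 hp with h | h
      · have h1 := (o1 p h).lev
        omega
      · have h2 := (o2 p h).lev
        omega
    have hone := hONE _ (Slab D N) (term D N R) S (A₁ ∪ A₂ ∪ A₃) (by
        have : A₃.Nonempty := card_pos.1 (by rw [hA3]; exact hb1)
        exact this.mono subset_union_right) (by
        intro p hp
        rcases mem_union.1 hp with h | h
        · rcases mem_union.1 h with h | h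
          · exact ⟨(o1 p h).h1, (o1 p h).h2, (o1 p h).adj⟩
          · exact ⟨(o2 p h).h1, (o2 p h).h2, (o2 p h).adj⟩
        · exact ⟨(o3 p h).h1, (o3 p h).h2, (o3 p h).adj⟩)
    refine hone.trans ?_
    rw [sum_union d123, sum_union d12, card_union_of_disjoint d123, card_union_of_disjoint d12,
      hA1, hA2, hA3]
    have hm1 : 0 ≤ mu * ((N : ℝ) - t) := mul_nonneg hmu (by linarith)
    have hm2 : 0 ≤ mu * ((N : ℝ) - t - 1) := mul_nonneg hmu (by linarith)
    refine arith hA1 hA2 hA3 hb1 q1 q2 q3 (add_nonneg hm1 (hh _ _)) (add_nonneg hm1 (hh _ _))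
      (add_nonneg hm2 (hh _ _)) ?_
    nlinarith [c5]

end PkgEXPL

theorem pEXPL (hISO : S_ISO) (hONE : S_ONE) : S_EXPL := by
  rintro D mu hmu ⟨AM, BM, h, ra, rb, hBM, hAB, hh, hC⟩
  refine ⟨h 0 1, hh 0 1, fun N hN => ⟨N * (AM + BM + 1) + AM + BM, ?_⟩⟩
  have h0 : (PkgEXPL.lay ({0} : Finset (Fin (D + 1) → ℤ)) (((0 : ℕ) : ℤ) - 1)).card = 0 := by
    rw [PkgEXPL.lay, filter_singleton, if_neg (by simp), card_empty]
  have h1 : (PkgEXPL.lay ({0} : Finset (Fin (D + 1) → ℤ)) ((0 : ℕ) : ℤ)).card = 1 := by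
    rw [PkgEXPL.lay, filter_singleton, if_pos (by simp), card_singleton]
  have := PkgEXPL.claim hISO hONE hmu hBM hAB hh hC N (N * (AM + BM + 1) + AM + BM)
    (N * (AM + BM + 1) + AM + BM) 0 {0} (Nat.zero_le _) (by simp) (by omega) (by omega) (by omega)
    (by rw [h0, h1]; simp only [Nat.sub_zero]; omega) (by
      intro v hv i
      rw [mem_singleton] at hv
      subst hv
      simp)
  rw [h0, h1] at this
  have e : ∀ w, PhS (Slab D N) (term D N (N * (AM + BM + 1) + AM + BM)) w {0} =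
      Ph (Slab D N) (term D N (N * (AM + BM + 1) + AM + BM)) w 0 := by
    intro w
    rw [PhS]
    simp
  simp only [e] at this
  refine this.trans (le_of_eq ?_)
  simp

end

end Pool.Agent.T2H92.FP
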