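import Pool.Agent.T2H92.FP.Stm

set_option autoImplicit false

open MeasureTheory ProbabilityTheory Filter Topology
open scoped ENNReal

namespace Pool.Agent.T2H92.FP
namespace PkgINV

theorem ph_le {V : Type} (σ : V ≃ V) (G G' : SimpleGraph V)
    (h : ∀ a b, G.Adj a b → G'.Adj (σ a) (σ b)) (f : V → ℝ≥0∞) (w : Sym2 V → ℝ) (u : V) :
    Ph G' (f ∘ σ.symm) w (σ u) ≤ Ph G f (fun e => w (Sym2.map σ e)) u := by
  unfold Ph
  refine le_iInf fun v => le_iInf fun p => ?_
  let φ : G →g G' := ⟨σ, fun {a b} hab => h a b hab⟩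
  refine (iInf_le _ (σ v)).trans ((iInf_le _ (p.map φ)).trans ?_)
  rw [SimpleGraph.Walk.edges_map, List.map_map]
  have : (f ∘ σ.symm) (σ v) = f v := by simp
  rw [this]
  exact le_of_eq rfl

def sE {V : Type} (σ : V ≃ V) : Sym2 V ≃ Sym2 V where
  toFun := Sym2.map σ
  invFun := Sym2.map σ.symm
  left_inv := fun e => by rw [Sym2.map_map]; simp
  right_inv := fun e => by rw [Sym2.map_map]; simp

theorem map_inv {V : Type} (σ : V ≃ V) :
    Measure.map (fun w : Sym2 V → ℝ => fun e => w (Sym2.map σ e)) (nu (Sym2 V)) = nu (Sym2 V) := by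
  haveI : IsProbabilityMeasure (expMeasure 1) := isProbabilityMeasure_expMeasure one_pos
  have h := Measure.infinitePi_map_piCongrLeft (X := fun _ : Sym2 V => ℝ)
    (fun _ : Sym2 V => expMeasure 1) (sE σ).symm
  unfold nu
  conv_rhs => rw [← h]
  congr 1
  funext w e
  simp only [MeasurableEquiv.coe_piCongrLeft]
  have := Equiv.piCongrLeft_apply_apply (P := fun _ : Sym2 V => ℝ) (sE σ).symm w ((sE σ) e)
  simp only [Equiv.symm_apply_apply] at this
  rw [this]
  rfl

end PkgINV

theorem pINV : S_INV := by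
  intro V _ σ G G' h
  refine ⟨fun f w u => le_antisymm (PkgINV.ph_le σ G G' (fun a b => (h a b).2) f w u) ?_, ?_⟩
  · have h2 := PkgINV.ph_le σ.symm G' G (fun a b hab => by
      rw [← h]; simpa using hab) (f ∘ σ.symm) (fun e => w (Sym2.map σ e)) (σ u)
    have e1 : (f ∘ σ.symm) ∘ σ.symm.symm = f := by
      funext v; simp
    have e2 : (fun e => (fun e => w (Sym2.map σ e)) (Sym2.map σ.symm e)) = w := by
      funext e
      simp only [Sym2.map_map]
      simp
    rw [e1, e2, Equiv.symm_apply_apply] at h2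
    exact h2
  · intro Θ hΘ
    conv_rhs => rw [← PkgINV.map_inv σ]
    rw [lintegral_map hΘ]
    exact measurable_pi_iff.2 fun e => measurable_pi_apply _

end Pool.Agent.T2H92.FP
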