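import Pool.Agent.T2H92.FP.Stm

/-! # Package ISO: the edge isoperimetric inequality -/

set_option autoImplicit false

namespace Pool.Agent.T2H92.FP

namespace PkgISO

theorem s2_even (i : ℕ) : (Nat.digits 2 (2 * i)).sum = (Nat.digits 2 i).sum := by
  rcases Nat.eq_zero_or_pos i with rfl | h
  · simp
  · rw [Nat.digits_def' (by norm_num) (by omega : 0 < 2 * i)]
    simp

theorem s2_odd (i : ℕ) : (Nat.digits 2 (2 * i + 1)).sum = (Nat.digits 2 i).sum + 1 := by
  rw [Nat.digits_def' (by norm_num) (by omega : 0 < 2 * i + 1)]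
  have h1 : (2 * i + 1) % 2 = 1 := by omega
  have h2 : (2 * i + 1) / 2 = i := by omega
  rw [h1, h2, List.sum_cons, add_comm]

theorem ef_succ (n : ℕ) : ef (n + 1) = ef n + (Nat.digits 2 n).sum := by
  unfold ef
  rw [Finset.sum_range_succ]

theorem ef_zero : ef 0 = 0 := by simp [ef]

theorem ef_one : ef 1 = 0 := by simp [ef]

theorem ef_even (n : ℕ) : ef (2 * n) = 2 * ef n + n := by
  induction n with
  | zero => simp [ef]
  | succ n ih =>
    have h : 2 * (n + 1) = (2 * n + 1) + 1 := by ring
    rw [h, ef_succ, ef_succ, ih, s2_even, s2_odd, ef_succ]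
    ring

theorem ef_odd (n : ℕ) : ef (2 * n + 1) = ef n + ef (n + 1) + n := by
  rw [ef_succ, ef_even, s2_even, ef_succ]
  ring

theorem ef_add (n : ℕ) : ∀ a b : ℕ, a + b = n → ef a + ef b + min a b ≤ ef (a + b) := by
  induction n using Nat.strong_induction_on with
  | _ n ih =>
    intro a b hab
    rcases Nat.eq_zero_or_pos a with rfl | ha
    · rw [ef_zero, zero_add, zero_add]; simp
    rcases Nat.eq_zero_or_pos b with rfl | hb
    · rw [ef_zero]; simp
    rcases Nat.even_or_odd' a with ⟨p, rfl | rfl⟩ <;> rcases Nat.even_or_odd' b with ⟨q, rfl | rfl⟩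
    · have h1 := ih (p + q) (by omega) p q rfl
      have e : 2 * p + 2 * q = 2 * (p + q) := by ring
      rw [e, ef_even, ef_even, ef_even]
      omega
    · have h1 := ih (p + q) (by omega) p q rfl
      have h2 := ih (p + (q + 1)) (by omega) p (q + 1) rfl
      have e : 2 * p + (2 * q + 1) = 2 * (p + q) + 1 := by ring
      have e2 : p + q + 1 = p + (q + 1) := by ring
      rw [e, ef_even, ef_odd, ef_odd, e2]
      omega
    · have h1 := ih (p + q) (by omega) p q rfl
      have h2 := ih ((p + 1) + q) (by omega) (p + 1) q rfl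
      have e : 2 * p + 1 + 2 * q = 2 * (p + q) + 1 := by ring
      have e2 : p + q + 1 = (p + 1) + q := by ring
      rw [e, ef_even, ef_odd, ef_odd, e2]
      omega
    · have h1 := ih (p + (q + 1)) (by omega) p (q + 1) rfl
      have h2 := ih ((p + 1) + q) (by omega) (p + 1) q rfl
      have e : 2 * p + 1 + (2 * q + 1) = 2 * (p + (q + 1)) := by ring
      have e2 : (p + 1) + q = p + (q + 1) := by ring
      rw [e2] at h2
      rw [e, ef_even, ef_odd, ef_odd]
      omega

variable {D : ℕ}

theorem mem_nbr {u v : Fin D → ℤ} :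
    u ∈ nbr v ↔ ∃ i : Fin D, u = Function.update v i (v i + 1) ∨ u = Function.update v i (v i - 1) := by
  unfold nbr
  rw [Finset.mem_image]
  constructor
  · rintro ⟨⟨i, b⟩, _, rfl⟩
    refine ⟨i, ?_⟩
    cases b
    · right; simp [sub_eq_add_neg]
    · left; simp
  · rintro ⟨i, rfl | rfl⟩
    · exact ⟨(i, true), Finset.mem_univ _, by simp⟩
    · exact ⟨(i, false), Finset.mem_univ _, by simp [sub_eq_add_neg]⟩

theorem nbr_symm {u v : Fin D → ℤ} (h : u ∈ nbr v) : v ∈ nbr u := by
  rw [mem_nbr] at h ⊢
  obtain ⟨i, rfl | rfl⟩ := h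
  · refine ⟨i, Or.inr ?_⟩
    rw [Function.update_self, Function.update_idem, add_sub_cancel_right, Function.update_eq_self]
  · refine ⟨i, Or.inl ?_⟩
    rw [Function.update_self, Function.update_idem, sub_add_cancel, Function.update_eq_self]

theorem not_mem_nbr_self (v : Fin D → ℤ) : v ∉ nbr v := by
  rw [mem_nbr]
  rintro ⟨i, h | h⟩
  · have := congrFun h i
    rw [Function.update_self] at this
    omega
  · have := congrFun h i
    rw [Function.update_self] at this
    omega

theorem card_nbr (v : Fin D → ℤ) : (nbr v).card = 2 * D := by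
  unfold nbr
  rw [Finset.card_image_of_injective, Finset.card_univ, Fintype.card_prod, Fintype.card_fin,
    Fintype.card_bool, mul_comm]
  rintro ⟨i, b⟩ ⟨j, c⟩ h
  simp only at h
  have hij : i = j := by
    by_contra hij
    have := congrFun h i
    rw [Function.update_self, Function.update_of_ne hij] at this
    cases b <;> simp at this
  subst hij
  have := congrFun h i
  rw [Function.update_self, Function.update_self] at this
  cases b <;> cases c <;> simp at this ⊢

/-- number of ordered pairs of neighbours in `B × C` -/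
def cr (B C : Finset (Fin D → ℤ)) : ℕ := ∑ v ∈ B, (C.filter (· ∈ nbr v)).card

theorem cr_symm (B C : Finset (Fin D → ℤ)) : cr B C = cr C B := by
  unfold cr
  have h := Finset.sum_card_bipartiteAbove_eq_sum_card_bipartiteBelow (s := B) (t := C)
    (fun v u : Fin D → ℤ => u ∈ nbr v)
  unfold Finset.bipartiteAbove Finset.bipartiteBelow at h
  rw [h]
  refine Finset.sum_congr rfl fun u _ => ?_
  congr 1
  refine Finset.filter_congr fun v _ => ?_
  exact ⟨nbr_symm, nbr_symm⟩

theorem cr_cut {B : Finset (Fin D → ℤ)} (i : Fin D) (c : ℤ) :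
    cr (B.filter (fun v => v i ≤ c)) (B.filter (fun v => ¬ v i ≤ c)) ≤
      (B.filter (fun v => v i ≤ c)).card := by
  unfold cr
  rw [Finset.card_eq_sum_ones]
  refine Finset.sum_le_sum fun v hv => ?_
  rw [Finset.card_le_one]
  rw [Finset.mem_filter] at hv
  have key : ∀ u, u ∈ (B.filter (fun v => ¬ v i ≤ c)).filter (· ∈ nbr v) →
      u = Function.update v i (v i + 1) := by
    intro u hu
    rw [Finset.mem_filter, Finset.mem_filter, mem_nbr] at hu
    obtain ⟨⟨_, h1⟩, j, h2 | h2⟩ := hu
    · by_cases hij : i = j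
      · subst hij; exact h2
      · exfalso
        rw [h2, Function.update_of_ne hij] at h1
        exact h1 hv.2
    · exfalso
      by_cases hij : i = j
      · subst hij
        rw [h2, Function.update_self] at h1
        omega
      · rw [h2, Function.update_of_ne hij] at h1
        exact h1 hv.2
  intro a ha b hb
  rw [key a ha, key b hb]

theorem cr_cut' {B : Finset (Fin D → ℤ)} (i : Fin D) (c : ℤ) :
    cr (B.filter (fun v => ¬ v i ≤ c)) (B.filter (fun v => v i ≤ c)) ≤
      (B.filter (fun v => ¬ v i ≤ c)).card := by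
  unfold cr
  rw [Finset.card_eq_sum_ones]
  refine Finset.sum_le_sum fun v hv => ?_
  rw [Finset.card_le_one]
  rw [Finset.mem_filter] at hv
  have key : ∀ u, u ∈ (B.filter (fun v => v i ≤ c)).filter (· ∈ nbr v) →
      u = Function.update v i (v i - 1) := by
    intro u hu
    rw [Finset.mem_filter, Finset.mem_filter, mem_nbr] at hu
    obtain ⟨⟨_, h1⟩, j, h2 | h2⟩ := hu
    · exfalso
      by_cases hij : i = j
      · subst hij
        rw [h2, Function.update_self] at h1
        omega
      · rw [h2, Function.update_of_ne hij] at h1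
        exact hv.2 h1
    · by_cases hij : i = j
      · subst hij; exact h2
      · exfalso
        rw [h2, Function.update_of_ne hij] at h1
        exact hv.2 h1
  intro a ha b hb
  rw [key a ha, key b hb]

theorem cr_split (B : Finset (Fin D → ℤ)) (p : (Fin D → ℤ) → Prop) [DecidablePred p] :
    cr B B = cr (B.filter p) (B.filter p) + cr (B.filter (fun v => ¬ p v)) (B.filter (fun v => ¬ p v))
      + cr (B.filter p) (B.filter (fun v => ¬ p v))
      + cr (B.filter (fun v => ¬ p v)) (B.filter p) := by
  have h : ∀ v, (B.filter (· ∈ nbr v)).card = ((B.filter p).filter (· ∈ nbr v)).card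
      + ((B.filter (fun v => ¬ p v)).filter (· ∈ nbr v)).card := by
    intro v
    rw [Finset.filter_comm, Finset.filter_comm (p := fun v => ¬ p v),
      Finset.card_filter_add_card_filter_not]
  unfold cr
  rw [← Finset.sum_filter_add_sum_filter_not B p]
  simp only [h, Finset.sum_add_distrib]
  ring

theorem main (n : ℕ) : ∀ B : Finset (Fin D → ℤ), B.card = n → cr B B ≤ 2 * ef n := by
  induction n using Nat.strong_induction_on with
  | _ n ih =>
    intro B hB
    rcases Nat.lt_or_ge n 2 with h2 | h2
    · have : cr B B = 0 := by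
        unfold cr
        refine Finset.sum_eq_zero fun v hv => ?_
        rw [Finset.card_eq_zero, Finset.filter_eq_empty_iff]
        intro u hu h
        have : u = v := Finset.card_le_one.1 (by omega) u hu v hv
        subst this
        exact not_mem_nbr_self _ h
      rw [this]; exact Nat.zero_le _
    · obtain ⟨v, hv, w, hw, hvw⟩ := Finset.one_lt_card.1 (by omega : 1 < B.card)
      obtain ⟨i, hi⟩ := Function.ne_iff.1 hvw
      -- order the two points
      have hex : ∃ c : ℤ, (B.filter (fun v => v i ≤ c)).Nonempty ∧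
          (B.filter (fun v => ¬ v i ≤ c)).Nonempty := by
        rcases lt_or_gt_of_ne hi with h | h
        · exact ⟨v i, ⟨v, Finset.mem_filter.2 ⟨hv, le_rfl⟩⟩,
            ⟨w, Finset.mem_filter.2 ⟨hw, not_le.2 h⟩⟩⟩
        · exact ⟨w i, ⟨w, Finset.mem_filter.2 ⟨hw, le_rfl⟩⟩,
            ⟨v, Finset.mem_filter.2 ⟨hv, not_le.2 h⟩⟩⟩
      obtain ⟨c, h1, h3⟩ := hex
      have hc := Finset.card_filter_add_card_filter_not (s := B) (fun v => v i ≤ c)
      have p1 := Finset.card_pos.2 h1
      have p3 := Finset.card_pos.2 h3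
      have i1 := ih _ (by omega) (B.filter (fun v => v i ≤ c)) rfl
      have i3 := ih _ (by omega) (B.filter (fun v => ¬ v i ≤ c)) rfl
      have c1 := cr_cut (B := B) i c
      have c2 := cr_cut' (B := B) i c
      have c3 := cr_symm (B.filter (fun v => v i ≤ c)) (B.filter (fun v => ¬ v i ≤ c))
      have hs := cr_split B (fun v => v i ≤ c)
      have he := ef_add _ (B.filter (fun v => v i ≤ c)).card (B.filter (fun v => ¬ v i ≤ c)).card rfl
      rw [hc, hB] at he
      omega

end PkgISO

open PkgISO in
theorem pISO : S_ISO := by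
  intro D B
  have h1 : ∑ v ∈ B, (nbr v).card = 2 * D * B.card := by
    simp only [card_nbr, Finset.sum_const, smul_eq_mul]
    ring
  have h2 : ∀ v, (nbr v).card = (B.filter (· ∈ nbr v)).card + ((nbr v).filter (· ∉ B)).card := by
    intro v
    rw [← Finset.card_filter_add_card_filter_not (s := nbr v) (fun u => u ∈ B)]
    congr 2
    ext u
    rw [Finset.mem_filter, Finset.mem_filter, and_comm]
  have h3 : (bp B).card = ∑ v ∈ B, ((nbr v).filter (· ∉ B)).card := by
    unfold bp
    rw [Finset.card_filter, Finset.sum_product]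
    refine Finset.sum_congr rfl fun v hv => ?_
    rw [← Finset.card_filter]
    congr 1
    ext u
    rw [Finset.mem_filter, Finset.mem_filter, Finset.mem_biUnion]
    constructor
    · rintro ⟨_, h, h'⟩; exact ⟨h, h'⟩
    · rintro ⟨h, h'⟩; exact ⟨⟨v, hv, h⟩, h, h'⟩
  have h4 := main B.card B rfl
  unfold cr at h4
  rw [← h1, h3, Finset.sum_congr rfl fun v _ => h2 v, Finset.sum_add_distrib]
  omega

end Pool.Agent.T2H92.FP
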