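import Pool.Agent.T2H92.FP.Stm

/-! # FP, package LAP (helper21) -/

set_option autoImplicit false

open MeasureTheory ProbabilityTheory Filter Topology
open scoped ENNReal

namespace Pool.Agent.T2H92.FP

namespace PkgLAP

/-- the Laplace transform of the exponential law -/
lemma lint_exp {θ : ℝ} (hθ : 0 < θ) :
    ∫⁻ x, ENNReal.ofReal (Real.exp (-θ * x)) ∂(expMeasure 1) = ENNReal.ofReal (1 / (1 + θ)) := by
  have h1 : expMeasure 1 = volume.withDensity (exponentialPDF 1) := rfl
  have hm : Measurable (exponentialPDF 1) := (measurable_exponentialPDFReal 1).ennreal_ofReal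
  rw [h1, lintegral_withDensity_eq_lintegral_mul _ hm (by fun_prop)]
  have h2 : ∀ x : ℝ, (exponentialPDF 1 * fun x => ENNReal.ofReal (Real.exp (-θ * x))) x =
      ENNReal.ofReal (1 / (1 + θ)) * exponentialPDF (1 + θ) x := by
    intro x
    rw [Pi.mul_apply]
    rcases lt_or_ge x 0 with hx | hx
    · rw [exponentialPDF_of_neg hx, exponentialPDF_of_neg hx]
      simp
    · rw [exponentialPDF_of_nonneg hx, exponentialPDF_of_nonneg hx,
        ← ENNReal.ofReal_mul (by positivity), ← ENNReal.ofReal_mul (by positivity)]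
      congr 1
      have e1 : Real.exp (-((1 + θ) * x)) = Real.exp (-(1 * x)) * Real.exp (-θ * x) := by
        rw [← Real.exp_add]
        ring_nf
      rw [e1]
      field_simp
  have hm2 : Measurable (exponentialPDF (1 + θ)) :=
    (measurable_exponentialPDFReal (1 + θ)).ennreal_ofReal
  rw [lintegral_congr h2, lintegral_const_mul _ hm2,
    lintegral_exponentialPDF_eq_one (by linarith), mul_one]

end PkgLAP

open PkgLAP

theorem pLAP : S_LAP := by
  intro V G Ω _ P _ ω hind hω u v p hp θ a hθ
  classical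
  have hlint : ∀ e, ∫⁻ t, ENNReal.ofReal (Real.exp (-θ * ω e t)) ∂P = ENNReal.ofReal (1 / (1 + θ)) := by
    intro e
    have h1 : Measurable fun x : ℝ => ENNReal.ofReal (Real.exp (-θ * x)) := by fun_prop
    have h2 := lintegral_map (μ := P) h1 (hω e).1
    rw [(hω e).2, lint_exp hθ] at h2
    exact h2.symm
  have hint : ∀ e, Integrable (fun t => Real.exp (-θ * ω e t)) P := by
    intro e
    have hm := (hω e).1
    refine (lintegral_ofReal_ne_top_iff_integrable (by fun_prop)
      (ae_of_all _ fun t => (Real.exp_pos _).le)).1 ?_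
    rw [hlint e]
    exact ENNReal.ofReal_ne_top
  have hmgf : ∀ e, mgf (ω e) P (-θ) = 1 / (1 + θ) := by
    intro e
    have hm := (hω e).1
    unfold mgf
    rw [integral_eq_lintegral_of_nonneg_ae (ae_of_all _ fun t => (Real.exp_pos _).le) (by fun_prop),
      hlint e, ENNReal.toReal_ofReal (by positivity)]
  have hnd : p.edges.Nodup := hp.isTrail.edges_nodup
  have hsum : ∀ t, (p.edges.map (fun e => ω e t)).sum = (∑ e ∈ p.edges.toFinset, ω e) t := by
    intro t
    rw [Finset.sum_apply, List.sum_toFinset _ hnd]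
  have hI : Integrable (fun t => Real.exp (-θ * (∑ e ∈ p.edges.toFinset, ω e) t)) P :=
    hind.integrable_exp_mul_sum (fun e => (hω e).1) fun e _ => hint e
  have h1 := measure_le_le_exp_mul_mgf (μ := P) (X := ∑ e ∈ p.edges.toFinset, ω e) a
    (by linarith : -θ ≤ 0) hI
  rw [hind.mgf_sum (fun e => (hω e).1), Finset.prod_congr rfl fun e _ => hmgf e,
    Finset.prod_const, List.toFinset_card_of_nodup hnd, SimpleGraph.Walk.length_edges, neg_neg] at h1
  have h2 : {t | (p.edges.map (fun e => ω e t)).sum ≤ a} =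
      {t | (∑ e ∈ p.edges.toFinset, ω e) t ≤ a} := by
    ext t
    rw [Set.mem_ofPred_eq, Set.mem_ofPred_eq, hsum t]
  rw [h2]
  exact (ENNReal.le_ofReal_iff_toReal_le (measure_ne_top _ _) (by positivity)).2 h1

end Pool.Agent.T2H92.FP
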