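import Pool.Agent.T2H92.FP.Stm

/-! # Package MEAS: measurability of the passage functional -/

set_option autoImplicit false

open MeasureTheory ProbabilityTheory Filter Topology
open scoped ENNReal

namespace Pool.Agent.T2H92.FP

namespace PkgMEAS

theorem countable_walk {V : Type} [Countable V] (G : SimpleGraph V) (u v : V) :
    Countable (G.Walk u v) :=
  Function.Injective.countable (f := fun p : G.Walk u v => p.support)
    fun _ _ h => SimpleGraph.Walk.ext_support h

theorem meas_sum {E : Type} (l : List E) :
    Measurable fun w : E → ℝ => (l.map fun e => ENNReal.ofReal (w e)).sum := by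
  induction l with
  | nil => simp only [List.map_nil, List.sum_nil]; exact measurable_const
  | cons a l ih =>
    simp only [List.map_cons, List.sum_cons]
    exact ((measurable_pi_apply a).ennreal_ofReal).add ih

end PkgMEAS

open PkgMEAS in
theorem pMEAS : S_MEAS := by
  intro V _ G f u
  unfold Ph
  refine Measurable.iInf fun v => ?_
  haveI := countable_walk G u v
  refine Measurable.iInf fun p => ?_
  exact (meas_sum _).add measurable_const

end Pool.Agent.T2H92.FP
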