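import Pool.Agent.T2H92.FP.Stm

/-! # Package MEM (helper74): the memoryless property for a finite set of coordinates -/

set_option autoImplicit false

open MeasureTheory ProbabilityTheory Filter Topology
open scoped ENNReal

namespace Pool.Agent.T2H92.FP

noncomputable section

namespace PkgMEM

instance instExp : IsProbabilityMeasure (expMeasure 1) := isProbabilityMeasure_expMeasure one_pos

instance instNu (E : Type) : IsProbabilityMeasure (nu E) := by unfold nu; infer_instance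

theorem exp_nonneg : ∀ᵐ x ∂(expMeasure 1), (0 : ℝ) ≤ x := by
  rw [ae_iff]
  have : {x : ℝ | ¬ 0 ≤ x} = Set.Iio 0 := by ext x; simp
  rw [this, expMeasure, gammaMeasure, withDensity_apply _ measurableSet_Iio]
  exact lintegral_gammaPDF_of_nonpos le_rfl

theorem ae_nonneg (E : Type) [Countable E] : ∀ᵐ y ∂(nu E), ∀ e, 0 ≤ y e := by
  rw [ae_all_iff]
  intro e
  have h := (measurePreserving_eval_infinitePi (fun _ : E => expMeasure 1) e)
  exact h.quasiMeasurePreserving.ae exp_nonneg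

theorem map_sel (E : Type) (n : ℕ) (g : Fin (n + 1) → E) (hg : Function.Injective g) :
    (nu E).map (fun x i => x (g i)) = Measure.pi fun _ : Fin (n + 1) => expMeasure 1 := by
  rw [nu, Measure.map_infinitePi_infinitePi_of_inj hg, Measure.infinitePi_eq_pi]

open Classical in
/-- `t` on `A`, `y` outside -/
def ext {E : Type} {n : ℕ} (A : Finset E) (σ : Fin (n + 1) ≃ A) (t : Fin (n + 1) → ℝ)
    (y : E → ℝ) : E → ℝ :=
  fun e => if h : e ∈ A then t (σ.symm ⟨e, h⟩) else y e

variable {E : Type} {n : ℕ} (A : Finset E) (σ : Fin (n + 1) ≃ A)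

theorem ext_mem (t : Fin (n + 1) → ℝ) (y : E → ℝ) {e : E} (h : e ∈ A) :
    ext A σ t y e = t (σ.symm ⟨e, h⟩) := by
  unfold ext; rw [dif_pos h]

theorem ext_not (t : Fin (n + 1) → ℝ) (y : E → ℝ) {e : E} (h : e ∉ A) :
    ext A σ t y e = y e := by
  unfold ext; rw [dif_neg h]

theorem mix_eq (x y : E → ℝ) :
    mix (A : Set E) x y = ext A σ (fun i => x (σ i)) y := by
  funext e
  by_cases h : e ∈ A
  · rw [ext_mem A σ _ _ h]
    simp [mix, h]
  · rw [ext_not A σ _ _ h]
    simp [mix, h]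

theorem meas_ext : Measurable fun p : (Fin (n + 1) → ℝ) × (E → ℝ) => ext A σ p.1 p.2 := by
  rw [measurable_pi_iff]
  intro e
  by_cases h : e ∈ A
  · simp_rw [ext_mem A σ _ _ h]
    exact (measurable_pi_apply _).comp measurable_fst
  · simp_rw [ext_not A σ _ _ h]
    exact (measurable_pi_apply _).comp measurable_snd

theorem inner (Θ : (E → ℝ) → ℝ≥0∞) (hΘ : Measurable Θ) (y : E → ℝ) :
    ∫⁻ x, Θ (mix (A : Set E) x y) ∂(nu E) =
      ∫⁻ t, Θ (ext A σ t y) ∂(Measure.pi fun _ : Fin (n + 1) => expMeasure 1) := by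
  have hinj : Function.Injective (fun i => ((σ i : A) : E)) :=
    Subtype.val_injective.comp σ.injective
  rw [← map_sel E n _ hinj, lintegral_map]
  · simp_rw [mix_eq A σ]
  · exact hΘ.comp ((meas_ext A σ).comp (measurable_id.prodMk measurable_const))
  · exact measurable_pi_iff.mpr fun i => measurable_pi_apply _

end PkgMEM

open PkgMEM in
theorem pMEM (hRES : S_RES) (hMEM1 : S_MEM1) : S_MEM := by
  intro E _ A hA Θ Θ' hΘ hΘ' h
  obtain ⟨n, hn⟩ : ∃ n, A.card = n + 1 := ⟨A.card - 1, by have := hA.card_pos; omega⟩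
  set σ : Fin (n + 1) ≃ A := (Finset.equivFinOfCardEq hn).symm
  have hm : ∀ a ∈ A, Measurable fun y : E → ℝ =>
      ∫⁻ t, Θ' a (ext A σ t y) ∂(Measure.pi fun _ : Fin (n + 1) => expMeasure 1) := by
    intro a ha
    have : Measurable fun p : (E → ℝ) × (Fin (n + 1) → ℝ) => Θ' a (ext A σ p.2 p.1) :=
      (hΘ' a ha).comp ((meas_ext A σ).comp measurable_swap)
    exact this.lintegral_prod_right'
  have key : ∀ᵐ y ∂(nu E), ∫⁻ x, Θ (mix (A : Set E) x y) ∂(nu E) ≤
      (1 + ∑ i : Fin (n + 1), ∫⁻ t, Θ' (σ i) (ext A σ t y)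
        ∂(Measure.pi fun _ : Fin (n + 1) => expMeasure 1)) / ((n : ℝ≥0∞) + 1) := by
    filter_upwards [ae_nonneg E] with y hy
    rw [inner A σ Θ hΘ y]
    refine hMEM1 n (fun t => Θ (ext A σ t y)) (fun i t => Θ' (σ i) (ext A σ t y)) ?_ ?_ ?_
    · exact hΘ.comp ((meas_ext A σ).comp (measurable_id.prodMk measurable_const))
    · exact fun i => (hΘ' _ (σ i).2).comp ((meas_ext A σ).comp (measurable_id.prodMk measurable_const))
    · intro i m t s hm0 ht hs hti htj
      refine h (σ i) (σ i).2 m (ext A σ t y) (ext A σ s y) hm0 ?_ ?_ ?_ ?_ ?_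
      · intro e
        by_cases he : e ∈ A
        · rw [ext_mem A σ _ _ he]; exact ht _
        · rw [ext_not A σ _ _ he]; exact hy _
      · intro e
        by_cases he : e ∈ A
        · rw [ext_mem A σ _ _ he]; exact hs _
        · rw [ext_not A σ _ _ he]; exact hy _
      · rw [ext_mem A σ _ _ (σ i).2]
        simpa using hti
      · intro b hb hbi
        rw [ext_mem A σ _ _ hb, ext_mem A σ _ _ hb]
        apply htj
        intro h1
        apply hbi
        rw [← h1]
        simp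
      · intro e he
        rw [ext_not A σ _ _ he, ext_not A σ _ _ he]
  have hres : ∀ a ∈ A, ∫⁻ y, ∫⁻ t, Θ' a (ext A σ t y)
      ∂(Measure.pi fun _ : Fin (n + 1) => expMeasure 1) ∂(nu E) = ∫⁻ y, Θ' a y ∂(nu E) := by
    intro a ha
    rw [hRES E (A : Set E) (Θ' a) (hΘ' a ha)]
    refine lintegral_congr fun y => ?_
    rw [inner A σ (Θ' a) (hΘ' a ha) y]
  have hne : ((n : ℝ≥0∞) + 1)⁻¹ ≠ ⊤ := by
    rw [ENNReal.inv_ne_top]
    positivity
  calc ∫⁻ x, Θ x ∂(nu E) = ∫⁻ y, ∫⁻ x, Θ (mix (A : Set E) x y) ∂(nu E) ∂(nu E) :=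
        hRES E (A : Set E) Θ hΘ
    _ ≤ ∫⁻ y, (1 + ∑ i : Fin (n + 1), ∫⁻ t, Θ' (σ i) (ext A σ t y)
        ∂(Measure.pi fun _ : Fin (n + 1) => expMeasure 1)) / ((n : ℝ≥0∞) + 1) ∂(nu E) :=
        lintegral_mono_ae key
    _ = (1 + ∑ i : Fin (n + 1), ∫⁻ y, Θ' (σ i) y ∂(nu E)) / ((n : ℝ≥0∞) + 1) := by
        simp_rw [div_eq_mul_inv]
        rw [lintegral_mul_const' _ _ hne, lintegral_add_left measurable_const,
          lintegral_finsetSum _ (fun i _ => hm _ (σ i).2)]
        simp only [lintegral_const, measure_univ, mul_one]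
        congr 2
        exact Finset.sum_congr rfl fun i _ => hres _ (σ i).2
    _ = (1 + ∑ a ∈ A, ∫⁻ y, Θ' a y ∂(nu E)) / A.card := by
        rw [hn, Nat.cast_add, Nat.cast_one]
        congr 2
        rw [← Finset.sum_coe_sort A, ← Equiv.sum_comp σ]

end

end Pool.Agent.T2H92.FP
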