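import Pool.Agent.T2H92.FP.Stm

/-!
# Project FP, package MEM1 (helper18): the memoryless property, finite form
-/

set_option autoImplicit false

open MeasureTheory ProbabilityTheory Filter Topology
open scoped ENNReal

namespace Pool.Agent.T2H92.FP

noncomputable section

namespace PkgMEM1

/-- density of the exponential law -/
def dn (x : ℝ) : ℝ≥0∞ := ENNReal.ofReal (if 0 ≤ x then Real.exp (-x) else 0)

lemma dn_of_nonneg {x : ℝ} (h : 0 ≤ x) : dn x = ENNReal.ofReal (Real.exp (-x)) := by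
  rw [dn, if_pos h]

lemma dn_of_neg {x : ℝ} (h : x < 0) : dn x = 0 := by
  rw [dn, if_neg (not_le.2 h), ENNReal.ofReal_zero]

lemma dn_meas : Measurable dn := by
  unfold dn
  exact (Measurable.ite measurableSet_Ici (by fun_prop) measurable_const).ennreal_ofReal

lemma expM : expMeasure 1 = volume.withDensity dn := by
  have h : (gammaPDF 1 1) = dn := by
    funext x
    have h2 := exponentialPDF_eq 1 x
    rw [one_mul, one_mul] at h2
    exact h2
  unfold expMeasure gammaMeasure
  rw [h]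

instance inst1 : IsProbabilityMeasure (expMeasure 1) := isProbabilityMeasure_expMeasure one_pos

lemma lint (g : ℝ → ℝ≥0∞) (hg : Measurable g) :
    ∫⁻ x, g x ∂(expMeasure 1) = ∫⁻ x, dn x * g x := by
  rw [expM, lintegral_withDensity_eq_lintegral_mul _ dn_meas hg]
  rfl

lemma shift {m : ℝ} (hm : 0 ≤ m) {s : Set ℝ} (hs : MeasurableSet s) :
    (expMeasure 1) (s ∩ Set.Ici m) =
      ENNReal.ofReal (Real.exp (-m)) * (expMeasure 1) ((fun y => m + y) ⁻¹' s) := by
  have hs1 : MeasurableSet (s ∩ Set.Ici m) := hs.inter measurableSet_Ici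
  have hs2 : MeasurableSet ((fun y : ℝ => m + y) ⁻¹' s) := (measurable_const_add m) hs
  rw [← lintegral_indicator_one hs1, ← lintegral_indicator_one hs2,
    lint _ (measurable_one.indicator hs1), lint _ (measurable_one.indicator hs2),
    ← lintegral_add_left_eq_self (μ := volume) _ m, ← lintegral_const_mul]
  · refine lintegral_congr fun y => ?_
    rcases le_or_gt 0 y with hy | hy
    · rw [dn_of_nonneg hy, dn_of_nonneg (add_nonneg hm hy), neg_add, Real.exp_add,
        ENNReal.ofReal_mul (Real.exp_pos _).le, mul_assoc]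
      congr 2
      by_cases h : m + y ∈ s
      · rw [Set.indicator_of_mem (show y ∈ (fun y : ℝ => m + y) ⁻¹' s from h),
          Set.indicator_of_mem (show m + y ∈ s ∩ Set.Ici m from ⟨h, by simp [hy]⟩)]
        rfl
      · rw [Set.indicator_of_notMem (show y ∉ (fun y : ℝ => m + y) ⁻¹' s from h),
          Set.indicator_of_notMem (fun h' : m + y ∈ s ∩ Set.Ici m => h h'.1)]
    · rw [dn_of_neg hy, Set.indicator_of_notMem, mul_zero, zero_mul, mul_zero]
      intro h'
      have := h'.2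
      simp only [Set.mem_Ici] at this
      linarith
  · exact dn_meas.mul (measurable_one.indicator hs2)

lemma restr {n : ℕ} {m : ℝ} (hm : 0 ≤ m) :
    (Measure.pi fun _ : Fin n => expMeasure 1).restrict (Set.univ.pi fun _ => Set.Ici m) =
      ENNReal.ofReal (Real.exp (-m)) ^ n •
        (Measure.pi fun _ : Fin n => expMeasure 1).map (fun y b => m + y b) := by
  rw [Measure.restrict_pi_pi]
  refine Measure.pi_eq fun s hs => ?_
  have hf : Measurable fun (y : Fin n → ℝ) (b : Fin n) => m + y b :=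
    measurable_pi_iff.2 fun b => measurable_const.add (measurable_pi_apply b)
  rw [Measure.smul_apply, Measure.map_apply hf (MeasurableSet.univ_pi hs)]
  have h1 : (fun (y : Fin n → ℝ) (b : Fin n) => m + y b) ⁻¹' Set.univ.pi s =
      Set.univ.pi fun i => (fun y : ℝ => m + y) ⁻¹' s i := by
    ext y
    simp
  rw [h1, Measure.pi_pi]
  have h2 : ∀ i, (expMeasure 1).restrict (Set.Ici m) (s i) =
      ENNReal.ofReal (Real.exp (-m)) * (expMeasure 1) ((fun y : ℝ => m + y) ⁻¹' s i) := by
    intro i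
    rw [Measure.restrict_apply (hs i), shift hm (hs i)]
  rw [Finset.prod_congr rfl fun i _ => h2 i, Finset.prod_mul_distrib, Finset.prod_const,
    Finset.card_univ, Fintype.card_fin, smul_eq_mul]

lemma ae_nonneg1 : ∀ᵐ x ∂(expMeasure 1), 0 ≤ x := by
  rw [expM, ae_withDensity_iff dn_meas]
  refine Eventually.of_forall fun x hx => ?_
  by_contra h
  exact hx (dn_of_neg (not_le.1 h))

lemma ae_nonneg (n : ℕ) : ∀ᵐ x ∂(Measure.pi fun _ : Fin n => expMeasure 1), ∀ b, 0 ≤ x b := by
  rw [ae_all_iff]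
  intro b
  exact Measure.tendsto_eval_ae_ae.eventually ae_nonneg1

/-- splitting off one coordinate -/
lemma split {n : ℕ} (a : Fin (n + 1)) (F : (Fin (n + 1) → ℝ) → ℝ≥0∞) (hF : Measurable F) :
    ∫⁻ x, F x ∂(Measure.pi fun _ : Fin (n + 1) => expMeasure 1) =
      ∫⁻ m, ∫⁻ x', F (a.insertNth m x') ∂(Measure.pi fun _ : Fin n => expMeasure 1)
        ∂(expMeasure 1) := by
  have h := (measurePreserving_piFinSuccAbove (fun _ : Fin (n + 1) => expMeasure 1) a).symm
  have h2 := h.lintegral_comp hF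
  rw [← h2, lintegral_prod]
  · rfl
  · exact (hF.comp h.measurable).aemeasurable

lemma ins_meas {n : ℕ} (a : Fin (n + 1)) :
    Measurable fun p : ℝ × (Fin n → ℝ) => (a.insertNth p.1 p.2 : Fin (n + 1) → ℝ) :=
  (measurePreserving_piFinSuccAbove (fun _ : Fin (n + 1) => expMeasure 1) a).symm.measurable

lemma int0 (n : ℕ) : ∫⁻ m, ENNReal.ofReal (Real.exp (-m)) ^ n ∂(expMeasure 1) =
    ((n : ℝ≥0∞) + 1)⁻¹ := by
  rw [lint _ (by fun_prop)]
  have hn : (0 : ℝ) < n + 1 := by positivity
  have h1 : ∀ m : ℝ, dn m * ENNReal.ofReal (Real.exp (-m)) ^ n =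
      ((n : ℝ≥0∞) + 1)⁻¹ * gammaPDF 1 (n + 1) m := by
    intro m
    rcases le_or_gt 0 m with hm | hm
    · rw [dn_of_nonneg hm, gammaPDF_of_nonneg hm, Real.rpow_one, Real.Gamma_one, div_one, sub_self,
        Real.rpow_zero, mul_one, ENNReal.ofReal_mul hn.le, ← mul_assoc, ← pow_succ',
        ← ENNReal.ofReal_pow (Real.exp_pos _).le, ← Real.exp_nat_mul,
        ENNReal.ofReal_add (by positivity) zero_le_one, ENNReal.ofReal_natCast, ENNReal.ofReal_one,
        ENNReal.inv_mul_cancel (by simp) (by simp), one_mul]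
      congr 2
      push_cast
      ring
    · rw [dn_of_neg hm, gammaPDF_of_neg hm, zero_mul, mul_zero]
  have hgm : Measurable (gammaPDF 1 (n + 1)) := (measurable_gammaPDFReal _ _).ennreal_ofReal
  rw [lintegral_congr h1, lintegral_const_mul _ hgm,
    lintegral_gammaPDF_eq_one one_pos hn, mul_one]

lemma int1 (n : ℕ) : ∫⁻ m, ENNReal.ofReal (Real.exp (-m)) ^ n * ENNReal.ofReal m ∂(expMeasure 1) =
    ((n : ℝ≥0∞) + 1)⁻¹ * ((n : ℝ≥0∞) + 1)⁻¹ := by
  rw [lint _ (by fun_prop)]
  have hn : (0 : ℝ) < n + 1 := by positivity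
  have h1 : ∀ m : ℝ, dn m * (ENNReal.ofReal (Real.exp (-m)) ^ n * ENNReal.ofReal m) =
      (((n : ℝ≥0∞) + 1)⁻¹ * ((n : ℝ≥0∞) + 1)⁻¹) * gammaPDF 2 (n + 1) m := by
    intro m
    rcases le_or_gt 0 m with hm | hm
    · have h3 : ((n : ℝ) + 1) ^ (2 : ℝ) / Real.Gamma 2 * m ^ ((2 : ℝ) - 1) *
          Real.exp (-(((n : ℝ) + 1) * m)) = ((n : ℝ) + 1) * (((n : ℝ) + 1) *
            (Real.exp (-(((n : ℝ) + 1) * m)) * m)) := by
        rw [Real.Gamma_two, show (2 : ℝ) - 1 = 1 by norm_num, Real.rpow_one, div_one,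
          Real.rpow_two]
        ring
      rw [dn_of_nonneg hm, gammaPDF_of_nonneg hm, h3, ENNReal.ofReal_mul hn.le,
        ENNReal.ofReal_mul hn.le, ENNReal.ofReal_mul (Real.exp_pos _).le, ← mul_assoc, ← pow_succ',
        ← ENNReal.ofReal_pow (Real.exp_pos _).le, ← Real.exp_nat_mul,
        ENNReal.ofReal_add (by positivity) zero_le_one, ENNReal.ofReal_natCast, ENNReal.ofReal_one]
      have h4 : ((n : ℝ≥0∞) + 1)⁻¹ * ((n : ℝ≥0∞) + 1) = 1 :=
        ENNReal.inv_mul_cancel (by simp) (by simp)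
      have h5 : (((n + 1 : ℕ) : ℝ) * -m) = -(((n : ℝ) + 1) * m) := by
        push_cast
        ring
      rw [h5]
      calc ENNReal.ofReal (Real.exp (-(((n : ℝ) + 1) * m))) * ENNReal.ofReal m =
          (((n : ℝ≥0∞) + 1)⁻¹ * ((n : ℝ≥0∞) + 1)) * ((((n : ℝ≥0∞) + 1)⁻¹ * ((n : ℝ≥0∞) + 1)) *
            (ENNReal.ofReal (Real.exp (-(((n : ℝ) + 1) * m))) * ENNReal.ofReal m)) := by
            rw [h4, one_mul, one_mul]
        _ = _ := by ring
    · rw [dn_of_neg hm, gammaPDF_of_neg hm, zero_mul, mul_zero]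
  have hgm : Measurable (gammaPDF 2 (n + 1)) := (measurable_gammaPDFReal _ _).ennreal_ofReal
  rw [lintegral_congr h1, lintegral_const_mul _ hgm,
    lintegral_gammaPDF_eq_one two_pos hn, mul_one]

/-- the event that the coordinate `a` is the least one -/
def Ma {n : ℕ} (a : Fin (n + 1)) : Set (Fin (n + 1) → ℝ) := {x | ∀ b, x a ≤ x b}

lemma Ma_meas {n : ℕ} (a : Fin (n + 1)) : MeasurableSet (Ma a) := by
  have : Ma a = ⋂ b, {x : Fin (n + 1) → ℝ | x a ≤ x b} := by
    ext x
    simp [Ma]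
  rw [this]
  exact MeasurableSet.iInter fun b => measurableSet_le (measurable_pi_apply a) (measurable_pi_apply b)

lemma Ma_ins {n : ℕ} (a : Fin (n + 1)) (m : ℝ) (x' : Fin n → ℝ) :
    (a.insertNth m x' : Fin (n + 1) → ℝ) ∈ Ma a ↔ x' ∈ Set.univ.pi fun _ : Fin n => Set.Ici m := by
  simp only [Ma, Set.mem_setOf_eq, Fin.insertNth_apply_same, Set.mem_pi, Set.mem_univ,
    Set.mem_Ici, forall_true_left]
  constructor
  · intro h i
    have := h (a.succAbove i)
    rwa [Fin.insertNth_apply_succAbove] at this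
  · intro h b
    rcases Fin.eq_self_or_eq_succAbove a b with rfl | ⟨i, rfl⟩
    · rw [Fin.insertNth_apply_same]
    · rw [Fin.insertNth_apply_succAbove]
      exact h i

theorem main (n : ℕ) (Θ : (Fin (n + 1) → ℝ) → ℝ≥0∞)
    (Θ' : Fin (n + 1) → (Fin (n + 1) → ℝ) → ℝ≥0∞) (hΘ : Measurable Θ)
    (hΘ' : ∀ a, Measurable (Θ' a))
    (H : ∀ (a : Fin (n + 1)) (m : ℝ) (x y : Fin (n + 1) → ℝ), 0 ≤ m → (∀ e, 0 ≤ x e) →
      (∀ e, 0 ≤ y e) → x a = m → (∀ b, b ≠ a → x b = m + y b) →
      Θ x ≤ ENNReal.ofReal m + Θ' a y) :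
    ∫⁻ x, Θ x ∂(Measure.pi fun _ => expMeasure 1) ≤
    (1 + ∑ a, ∫⁻ y, Θ' a y ∂(Measure.pi fun _ => expMeasure 1)) / ((n : ℝ≥0∞) + 1) := by
  have hone : ∀ a : Fin (n + 1),
      ∫⁻ x, (Ma a).indicator Θ x ∂(Measure.pi fun _ => expMeasure 1) ≤
      ((n : ℝ≥0∞) + 1)⁻¹ * ((n : ℝ≥0∞) + 1)⁻¹ +
        ((n : ℝ≥0∞) + 1)⁻¹ * ∫⁻ y, Θ' a y ∂(Measure.pi fun _ => expMeasure 1) := by
    intro a
    obtain ⟨I, hI⟩ : ∃ I, I = ∫⁻ y, Θ' a y ∂(Measure.pi fun _ : Fin (n + 1) => expMeasure 1) :=
      ⟨_, rfl⟩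
    rw [← hI]
    rw [split a _ (hΘ.indicator (Ma_meas a))]
    have h1 : ∀ m : ℝ, 0 ≤ m → ∫⁻ x', (Ma a).indicator Θ (a.insertNth m x')
        ∂(Measure.pi fun _ : Fin n => expMeasure 1) ≤
        ENNReal.ofReal (Real.exp (-m)) ^ n * (ENNReal.ofReal m + I) := by
      intro m hm
      have hpi : MeasurableSet (Set.univ.pi fun _ : Fin n => Set.Ici m) :=
        MeasurableSet.univ_pi fun _ => measurableSet_Ici
      have hins : Measurable fun x' : Fin n → ℝ => (a.insertNth m x' : Fin (n + 1) → ℝ) :=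
        (ins_meas a).comp (measurable_const.prodMk measurable_id)
      have h2 : ∀ x' : Fin n → ℝ, (Ma a).indicator Θ (a.insertNth m x') =
          (Set.univ.pi fun _ : Fin n => Set.Ici m).indicator
            (fun x' => Θ (a.insertNth m x')) x' := by
        intro x'
        by_cases h : x' ∈ Set.univ.pi fun _ : Fin n => Set.Ici m
        · rw [Set.indicator_of_mem h, Set.indicator_of_mem ((Ma_ins a m x').2 h)]
        · rw [Set.indicator_of_notMem h,
            Set.indicator_of_notMem (fun h' => h ((Ma_ins a m x').1 h'))]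
      have hf : Measurable fun (y : Fin n → ℝ) (b : Fin n) => m + y b :=
        measurable_pi_iff.2 fun b => measurable_const.add (measurable_pi_apply b)
      have hcm : Measurable fun x' : Fin n → ℝ => Θ (a.insertNth m x') := hΘ.comp hins
      rw [lintegral_congr h2, lintegral_indicator hpi, restr hm, lintegral_smul_measure,
        lintegral_map hcm hf, smul_eq_mul]
      refine mul_le_mul_right ?_ _
      have h3 : ∫⁻ y', Θ (a.insertNth m fun b => m + y' b)
          ∂(Measure.pi fun _ : Fin n => expMeasure 1) =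
          ∫⁻ _t, ∫⁻ y', Θ (a.insertNth m fun b => m + y' b)
            ∂(Measure.pi fun _ : Fin n => expMeasure 1) ∂(expMeasure 1) := by
        rw [lintegral_const, measure_univ, mul_one]
      rw [h3]
      have h4 : ENNReal.ofReal m + I = ∫⁻ t, (ENNReal.ofReal m +
          ∫⁻ y', Θ' a (a.insertNth t y') ∂(Measure.pi fun _ : Fin n => expMeasure 1))
            ∂(expMeasure 1) := by
        rw [lintegral_add_left measurable_const, lintegral_const, measure_univ, mul_one, hI,
          split a _ (hΘ' a)]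
      rw [h4]
      refine lintegral_mono_ae ?_
      filter_upwards [ae_nonneg1] with t ht
      have h5 : ENNReal.ofReal m +
          ∫⁻ y', Θ' a (a.insertNth t y') ∂(Measure.pi fun _ : Fin n => expMeasure 1) =
          ∫⁻ y', (ENNReal.ofReal m + Θ' a (a.insertNth t y'))
            ∂(Measure.pi fun _ : Fin n => expMeasure 1) := by
        rw [lintegral_add_left measurable_const, lintegral_const, measure_univ, mul_one]
      rw [h5]
      refine lintegral_mono_ae ?_
      filter_upwards [ae_nonneg n] with y' hy'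
      refine H a m _ _ hm ?_ ?_ ?_ ?_
      · intro e
        rcases Fin.eq_self_or_eq_succAbove a e with rfl | ⟨i, rfl⟩
        · rw [Fin.insertNth_apply_same]
          exact hm
        · rw [Fin.insertNth_apply_succAbove]
          exact add_nonneg hm (hy' i)
      · intro e
        rcases Fin.eq_self_or_eq_succAbove a e with rfl | ⟨i, rfl⟩
        · rw [Fin.insertNth_apply_same]
          exact ht
        · rw [Fin.insertNth_apply_succAbove]
          exact hy' i
      · rw [Fin.insertNth_apply_same]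
      · intro b hb
        rcases Fin.eq_self_or_eq_succAbove a b with rfl | ⟨i, rfl⟩
        · exact absurd rfl hb
        · rw [Fin.insertNth_apply_succAbove, Fin.insertNth_apply_succAbove]
    calc _ ≤ ∫⁻ m, ENNReal.ofReal (Real.exp (-m)) ^ n * (ENNReal.ofReal m + I) ∂(expMeasure 1) := by
          refine lintegral_mono_ae ?_
          filter_upwards [ae_nonneg1] with m hm
          exact h1 m hm
      _ = ∫⁻ m, (ENNReal.ofReal (Real.exp (-m)) ^ n * ENNReal.ofReal m +
            ENNReal.ofReal (Real.exp (-m)) ^ n * I) ∂(expMeasure 1) :=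
          lintegral_congr fun m => mul_add _ _ _
      _ = _ := by
          rw [lintegral_add_left (by fun_prop), lintegral_mul_const _ (by fun_prop), int0, int1]
  have hsum : ∫⁻ x, Θ x ∂(Measure.pi fun _ : Fin (n + 1) => expMeasure 1) ≤
      ∑ a, ∫⁻ x, (Ma a).indicator Θ x ∂(Measure.pi fun _ : Fin (n + 1) => expMeasure 1) := by
    rw [← lintegral_finsetSum _ fun a _ => hΘ.indicator (Ma_meas a)]
    refine lintegral_mono fun x => ?_
    obtain ⟨a, -, ha⟩ := Finset.exists_min_image Finset.univ x Finset.univ_nonempty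
    have hmem : x ∈ Ma a := fun b => ha b (Finset.mem_univ b)
    calc Θ x = (Ma a).indicator Θ x := by rw [Set.indicator_of_mem hmem]
      _ ≤ ∑ a, (Ma a).indicator Θ x :=
        Finset.single_le_sum (f := fun a => (Ma a).indicator Θ x) (fun _ _ => bot_le)
          (Finset.mem_univ a)
  refine hsum.trans ((Finset.sum_le_sum fun a _ => hone a).trans ?_)
  rw [Finset.sum_add_distrib, Finset.sum_const, Finset.card_univ, Fintype.card_fin,
    ← Finset.mul_sum, nsmul_eq_mul, ← mul_assoc]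
  have h4 : ((n + 1 : ℕ) : ℝ≥0∞) * ((n : ℝ≥0∞) + 1)⁻¹ = 1 := by
    push_cast
    exact ENNReal.mul_inv_cancel (by simp) (by simp)
  rw [h4, one_mul, ENNReal.div_eq_inv_mul, mul_add, mul_one]

end PkgMEM1

/-- package MEM1 -/
theorem pMEM1 : S_MEM1 := fun n Θ Θ' h1 h2 H => PkgMEM1.main n Θ Θ' h1 h2 H

end

end Pool.Agent.T2H92.FP
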