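import Pool.Agent.T2H92.FP.Stm

set_option autoImplicit false

/-!
# Package ONE: one step of the exploration in mean
-/

open MeasureTheory ProbabilityTheory Filter Topology Finset
open scoped ENNReal

namespace Pool.Agent.T2H92.FP

noncomputable section

theorem pONE (hMEAS : S_MEAS) (hMEM : S_MEM) (hSTEP : S_STEP) : S_ONE := by
  intro V _ _ G f S A hA hAS
  have hne : Nonempty (V × V) := ⟨hA.choose⟩
  set φ : V × V → Sym2 V := fun p => s(p.1, p.2) with hφ
  have hinj : Set.InjOn φ (A : Set (V × V)) := by
    intro p hp q hq h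
    rw [hφ] at h
    simp only at h
    rw [Sym2.eq_iff] at h
    rcases h with h | h
    · exact Prod.ext h.1 h.2
    · exact absurd (h.1 ▸ (hAS p hp).1) (hAS q hq).2.1
  set ψ : Sym2 V → V × V := Function.invFunOn φ (A : Set (V × V)) with hψ
  have hψφ : ∀ p ∈ A, ψ (φ p) = p := fun p hp => hinj.leftInvOn_invFunOn hp
  have hm : ∀ T : Finset V, Measurable fun w : Sym2 V → ℝ => PhS G f w T := fun T =>
    Measurable.iInf fun u => Measurable.iInf fun _ => hMEAS _ _ _ _
  have h := hMEM (Sym2 V) (A.image φ) (hA.image φ) (fun w => PhS G f w S)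
    (fun e w => PhS G f w (insert (ψ e).2 S)) (hm S) (fun e _ => hm _) (by
      intro e he m x y hm0 hx hy hxe hxb hxo
      rw [mem_image] at he
      obtain ⟨q, hq, rfl⟩ := he
      rw [hψφ q hq]
      refine hSTEP V G f S A q m x y hq hAS hm0 hx hy hxe ?_ ?_
      · intro p hp hpq
        refine hxb (φ p) (mem_image_of_mem φ hp) fun he => hpq (hinj hp hq he)
      · intro e he
        refine hxo e fun hme => ?_
        rw [mem_image] at hme
        obtain ⟨p, hp, rfl⟩ := hme
        exact he p hp rfl)
  rw [card_image_of_injOn hinj, sum_image hinj] at h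
  refine h.trans (le_of_eq ?_)
  congr 2
  refine Finset.sum_congr rfl fun p hp => ?_
  rw [hψφ p hp]

end

end Pool.Agent.T2H92.FP
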