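import Pool.Agent.T2H92.FP.Stm

set_option autoImplicit false

/-!
# Package PI: one block
-/

open MeasureTheory ProbabilityTheory Filter Topology Finset
open scoped ENNReal

namespace Pool.Agent.T2H92.FP

noncomputable section

namespace PkgPI

theorem nu_prob (E : Type) : IsProbabilityMeasure (nu E) := by
  have := isProbabilityMeasure_expMeasure one_pos
  rw [nu]
  infer_instance

/-! ### joining walks, dependence on the weights -/

theorem pt_self {V : Type} (z : V) : pt z z = 0 := by simp [pt]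

theorem pt_ne {V : Type} {z v : V} (h : v ≠ z) : pt z v = ⊤ := by simp [pt, h]

theorem join {V : Type} {G G₁ G₂ : SimpleGraph V} (h₁ : G₁ ≤ G) (h₂ : G₂ ≤ G) (w : Sym2 V → ℝ)
    (u x z : V) : Ph G (pt z) w u ≤ Ph G₁ (pt x) w u + Ph G₂ (pt z) w x := by
  rw [Ph, Ph, Ph, ENNReal.iInf_add]
  refine le_iInf fun v => ?_
  rw [ENNReal.iInf_add]
  refine le_iInf fun p => ?_
  rw [ENNReal.add_iInf]
  refine le_iInf fun v' => ?_
  rw [ENNReal.add_iInf]
  refine le_iInf fun q => ?_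
  by_cases hv : v = x
  swap
  · rw [pt_ne hv]
    simp
  subst hv
  by_cases hv' : v' = z
  swap
  · rw [pt_ne hv']
    simp
  subst hv'
  refine (iInf₂_le v' ((p.mapLe h₁).append (q.mapLe h₂))).trans ?_
  rw [SimpleGraph.Walk.edges_append, SimpleGraph.Walk.edges_mapLe_eq_edges,
    SimpleGraph.Walk.edges_mapLe_eq_edges, List.map_append, List.sum_append, pt_self, pt_self,
    add_zero, add_zero, add_zero]

theorem dep {V : Type} {G : SimpleGraph V} (f : V → ℝ≥0∞) {w w' : Sym2 V → ℝ}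
    (h : ∀ e ∈ G.edgeSet, w e = w' e) (u : V) : Ph G f w u = Ph G f w' u := by
  rw [Ph, Ph]
  congr 1
  funext v
  congr 1
  funext p
  congr 2
  apply List.map_congr_left
  intro e he
  rw [h e (p.edges_subset_edgeSet he)]

/-! ### the graphs -/

theorem lat_iff {d : ℕ} {u v : Fin d → ℤ} : (Lat d).Adj u v ↔ ∑ i, |u i - v i| = 1 := by
  rw [Lat, SimpleGraph.fromRel_adj]
  constructor
  · rintro ⟨-, h | h⟩
    · exact h
    · rw [← h]
      exact Finset.sum_congr rfl fun i _ => abs_sub_comm _ _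
  · intro h
    refine ⟨?_, Or.inl h⟩
    rintro rfl
    simp at h

theorem lg_iff {D : ℕ} {Q : ℤ → Prop} {u v : Fin (D + 1) → ℤ} :
    (LG D Q).Adj u v ↔ (∑ i, |u i - v i| = 1) ∧ Q (min (u 0) (v 0)) :=
  and_congr lat_iff Iff.rfl

theorem slab_le (D N : ℕ) : Slab D N ≤ Half D 0 := by
  intro u v h
  exact ⟨h.1, by have := h.2.1; simpa using this⟩

theorem half_le (D N : ℕ) : Half D N ≤ Half D 0 := by
  intro u v h
  refine ⟨h.1, ?_⟩
  have := h.2
  have h0 : (0 : ℤ) ≤ N := Int.natCast_nonneg N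
  simp only [Nat.cast_zero]
  exact h0.trans this

theorem slab_half {D N : ℕ} {e : Sym2 (Fin (D + 1) → ℤ)} (h : e ∈ (Half D N).edgeSet) :
    e ∉ (Slab D N).edgeSet := by
  induction e with
  | _ u v =>
    rw [SimpleGraph.mem_edgeSet] at h ⊢
    intro h'
    have h1 := h.2
    have h2 := h'.2.2
    omega

/-! ### the quantities of the proof -/

variable (D N R : ℕ)

/-- the box -/
def Y : Finset (Fin D → ℤ) := Fintype.piFinset fun _ : Fin D => Finset.Icc (-(R : ℤ)) R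

theorem zero_mem : (0 : Fin D → ℤ) ∈ Y D R := by
  rw [Y, Fintype.mem_piFinset]
  intro i
  rw [mem_Icc]
  simp

theorem neg_mem_iff (y : Fin D → ℤ) : -y ∈ Y D R ↔ y ∈ Y D R := by
  rw [Y, Fintype.mem_piFinset, Fintype.mem_piFinset]
  refine forall_congr' fun i => ?_
  rw [mem_Icc, mem_Icc, Pi.neg_apply]
  constructor <;> intro h <;> constructor <;> omega

/-- passage time in the slab from `0` to `cons N y` -/
def T (y : Fin D → ℤ) (w : Sym2 (Fin (D + 1) → ℤ) → ℝ) : ℝ≥0∞ :=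
  Ph (Slab D N) (pt (Fin.cons (N : ℤ) y)) w 0

/-- the least one -/
def tau (w : Sym2 (Fin (D + 1) → ℤ) → ℝ) : ℝ≥0∞ := ⨅ y ∈ Y D R, T D N y w

open Classical in
/-- indicator of a minimiser -/
def ind (y : Fin D → ℤ) (w : Sym2 (Fin (D + 1) → ℤ) → ℝ) : ℝ≥0∞ :=
  if T D N y w = tau D N R w then 1 else 0

/-- the number of minimisers -/
def cnt (w : Sym2 (Fin (D + 1) → ℤ) → ℝ) : ℝ≥0∞ := ∑ y ∈ Y D R, ind D N R y w

/-- weight of a minimiser -/
def pr (y : Fin D → ℤ) (w : Sym2 (Fin (D + 1) → ℤ) → ℝ) : ℝ≥0∞ := ind D N R y w * (cnt D N R w)⁻¹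

theorem cnt_ne_zero (w : Sym2 (Fin (D + 1) → ℤ) → ℝ) : cnt D N R w ≠ 0 := by
  obtain ⟨y, hy, h⟩ := Finset.exists_min_image (Y D R) (fun y => T D N y w) ⟨0, zero_mem D R⟩
  have h1 : T D N y w = tau D N R w := by
    apply le_antisymm
    · exact le_iInf₂ h
    · exact iInf₂_le y hy
  rw [cnt]
  have h2 : ind D N R y w ≤ ∑ y ∈ Y D R, ind D N R y w :=
    Finset.single_le_sum (f := fun y => ind D N R y w) (fun _ _ => zero_le) hy
  rw [ind, if_pos h1] at h2
  intro h0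
  rw [h0] at h2
  simp at h2

theorem cnt_ne_top (w : Sym2 (Fin (D + 1) → ℤ) → ℝ) : cnt D N R w ≠ ⊤ := by
  rw [cnt]
  apply ENNReal.sum_ne_top.2
  intro y _
  rw [ind]
  split_ifs <;> simp

theorem sum_pr (w : Sym2 (Fin (D + 1) → ℤ) → ℝ) : ∑ y ∈ Y D R, pr D N R y w = 1 := by
  simp only [pr]
  rw [← Finset.sum_mul]
  exact ENNReal.mul_inv_cancel (cnt_ne_zero D N R w) (cnt_ne_top D N R w)

theorem tau_le (w : Sym2 (Fin (D + 1) → ℤ) → ℝ) :
    tau D N R w ≤ Ph (Slab D N) (term D N R) w 0 := by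
  rw [Ph]
  refine le_iInf₂ fun v p => ?_
  by_cases hv : v 0 = N ∧ ∀ i : Fin D, |v i.succ| ≤ R
  swap
  · rw [term, if_neg hv]
    simp
  have hy : Fin.tail v ∈ Y D R := by
    rw [Y, Fintype.mem_piFinset]
    intro i
    rw [mem_Icc, ← abs_le]
    exact hv.2 i
  refine (iInf₂_le (Fin.tail v) hy).trans ?_
  have e : (Fin.cons (N : ℤ) (Fin.tail v) : Fin (D + 1) → ℤ) = v := by
    rw [← hv.1, Fin.cons_self_tail]
  rw [T, e, Ph]
  refine (iInf₂_le v p).trans ?_
  rw [pt_self, term, if_pos hv]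

/-- the pointwise inequality -/
theorem pointwise (w : Sym2 (Fin (D + 1) → ℤ) → ℝ) (z : Fin (D + 1) → ℤ) :
    Ph (Half D 0) (pt z) w 0 ≤ Ph (Slab D N) (term D N R) w 0 +
      ∑ y ∈ Y D R, pr D N R y w * Ph (Half D N) (pt z) w (Fin.cons (N : ℤ) y) := by
  calc Ph (Half D 0) (pt z) w 0 = ∑ y ∈ Y D R, pr D N R y w * Ph (Half D 0) (pt z) w 0 := by
        rw [← Finset.sum_mul, sum_pr, one_mul]
    _ ≤ ∑ y ∈ Y D R, pr D N R y w *
        (tau D N R w + Ph (Half D N) (pt z) w (Fin.cons (N : ℤ) y)) := by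
        refine Finset.sum_le_sum fun y _ => ?_
        by_cases h : T D N y w = tau D N R w
        · rw [← h]
          exact mul_le_mul_right (join (slab_le D N) (half_le D N) w _ _ _) _
        · rw [pr, ind, if_neg h]
          simp
    _ = tau D N R w +
        ∑ y ∈ Y D R, pr D N R y w * Ph (Half D N) (pt z) w (Fin.cons (N : ℤ) y) := by
        simp only [mul_add]
        rw [Finset.sum_add_distrib, ← Finset.sum_mul, sum_pr, one_mul]
    _ ≤ _ := add_le_add (tau_le D N R w) le_rfl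

/-! ### measurability -/

theorem meas_T (hMEAS : S_MEAS) (y : Fin D → ℤ) : Measurable (T D N y) := hMEAS _ _ _ _

theorem meas_tau (hMEAS : S_MEAS) : Measurable (tau D N R) :=
  Measurable.iInf fun y => Measurable.iInf fun _ => meas_T D N hMEAS y

theorem meas_ind (hMEAS : S_MEAS) (y : Fin D → ℤ) : Measurable (ind D N R y) := by
  unfold ind
  exact Measurable.ite (measurableSet_eq_fun (meas_T D N hMEAS y) (meas_tau D N R hMEAS))
    measurable_const measurable_const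

theorem meas_pr (hMEAS : S_MEAS) (y : Fin D → ℤ) : Measurable (pr D N R y) := by
  unfold pr cnt
  exact (meas_ind D N R hMEAS y).mul
    (Finset.measurable_fun_sum _ fun y _ => meas_ind D N R hMEAS y).inv

/-! ### dependence -/

theorem pr_dep (y : Fin D → ℤ) {w w' : Sym2 (Fin (D + 1) → ℤ) → ℝ}
    (h : ∀ e ∈ (Slab D N).edgeSet, w e = w' e) : pr D N R y w = pr D N R y w' := by
  have hT : ∀ y, T D N y w = T D N y w' := fun y => dep _ h _
  have ht : tau D N R w = tau D N R w' := by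
    rw [tau, tau]
    simp only [hT]
  have hi : ∀ y, ind D N R y w = ind D N R y w' := by
    intro y
    rw [ind, ind, hT, ht]
  rw [pr, pr, hi, cnt, cnt]
  simp only [hi]

theorem indep (hMEAS : S_MEAS) (hRES : S_RES) (y : Fin D → ℤ) (z : Fin (D + 1) → ℤ) :
    ∫⁻ w, pr D N R y w * Ph (Half D N) (pt z) w (Fin.cons (N : ℤ) y)
      ∂(nu (Sym2 (Fin (D + 1) → ℤ))) =
    (∫⁻ w, pr D N R y w ∂(nu (Sym2 (Fin (D + 1) → ℤ)))) *
      ∫⁻ w, Ph (Half D N) (pt z) w (Fin.cons (N : ℤ) y) ∂(nu (Sym2 (Fin (D + 1) → ℤ))) := by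
  have hP : Measurable fun w : Sym2 (Fin (D + 1) → ℤ) → ℝ =>
      Ph (Half D N) (pt z) w (Fin.cons (N : ℤ) y) := hMEAS _ _ _ _
  rw [hRES _ (Slab D N).edgeSet (fun w => pr D N R y w *
    Ph (Half D N) (pt z) w (Fin.cons (N : ℤ) y)) ((meas_pr D N R hMEAS y).mul hP)]
  have e : ∀ x v : Sym2 (Fin (D + 1) → ℤ) → ℝ,
      pr D N R y (mix (Slab D N).edgeSet x v) *
        Ph (Half D N) (pt z) (mix (Slab D N).edgeSet x v) (Fin.cons (N : ℤ) y) =
      pr D N R y x * Ph (Half D N) (pt z) v (Fin.cons (N : ℤ) y) := by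
    intro x v
    congr 1
    · apply pr_dep
      intro e he
      rw [mix, if_pos he]
    · apply dep
      intro e he
      rw [mix, if_neg (slab_half he)]
  simp only [e]
  have e2 : ∀ v : Sym2 (Fin (D + 1) → ℤ) → ℝ,
      ∫⁻ x, pr D N R y x * Ph (Half D N) (pt z) v (Fin.cons (N : ℤ) y)
        ∂(nu (Sym2 (Fin (D + 1) → ℤ))) =
      (∫⁻ x, pr D N R y x ∂(nu (Sym2 (Fin (D + 1) → ℤ)))) *
        Ph (Half D N) (pt z) v (Fin.cons (N : ℤ) y) := fun v =>
    lintegral_mul_const _ (meas_pr D N R hMEAS y)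
  simp only [e2]
  exact lintegral_const_mul _ hP

/-! ### translation and reflection -/

theorem pt_comp {V : Type} (σ : V ≃ V) (z : V) : pt z ∘ σ.symm = pt (σ z) := by
  funext v
  by_cases h : v = σ z
  · subst h
    rw [Function.comp_apply, Equiv.symm_apply_apply, pt_self, pt_self]
  · rw [Function.comp_apply, pt_ne h, pt_ne]
    intro h'
    exact h (by rw [← h', Equiv.apply_symm_apply])

theorem translate (hMEAS : S_MEAS) (hINV : S_INV) (N' : ℕ) (y z' : Fin D → ℤ) :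
    ∫⁻ w, Ph (Half D N) (pt (Fin.cons ((N + N' : ℕ) : ℤ) z')) w (Fin.cons (N : ℤ) y)
      ∂(nu (Sym2 (Fin (D + 1) → ℤ))) = bb D N' (z' - y) := by
  set c : Fin (D + 1) → ℤ := Fin.cons (N : ℤ) y with hc
  obtain ⟨h1, h2⟩ := hINV _ (Equiv.addRight c) (Half D 0) (Half D N) (by
    intro a b
    rw [Half, Half, lg_iff, lg_iff]
    simp only [Equiv.coe_addRight, Pi.add_apply, add_sub_add_right_eq_sub]
    refine and_congr Iff.rfl ?_
    rw [hc]
    simp only [Fin.cons_zero]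
    constructor <;> intro h <;> simp only [Nat.cast_zero] at * <;> omega)
  have h3 := h1 (pt (Fin.cons (N' : ℤ) (z' - y) : Fin (D + 1) → ℤ))
  rw [pt_comp] at h3
  have e1 : (Equiv.addRight c) (Fin.cons (N' : ℤ) (z' - y) : Fin (D + 1) → ℤ) =
      (Fin.cons ((N + N' : ℕ) : ℤ) z' : Fin (D + 1) → ℤ) := by
    rw [Equiv.coe_addRight, hc]
    funext i
    refine Fin.cases ?_ (fun j => ?_) i
    · simp [add_comm]
    · simp
  rw [e1] at h3
  have e2 : (Equiv.addRight c) (0 : Fin (D + 1) → ℤ) = c := by simp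
  have h4 : ∀ w, Ph (Half D N) (pt (Fin.cons ((N + N' : ℕ) : ℤ) z')) w c =
      Ph (Half D 0) (pt (Fin.cons (N' : ℤ) (z' - y))) (fun e => w (Sym2.map (Equiv.addRight c) e))
        0 := by
    intro w
    have := h3 w 0
    rwa [e2] at this
  simp only [h4]
  rw [h2 (fun w => Ph (Half D 0) (pt (Fin.cons (N' : ℤ) (z' - y))) w 0) (hMEAS _ _ _ _), bb]

/-- reflection of the coordinates `≠ 0` -/
def rfl0 (v : Fin (D + 1) → ℤ) : Fin (D + 1) → ℤ := fun i => if i = 0 then v i else - v i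

theorem rfl0_invol : Function.Involutive (rfl0 D) := by
  intro v
  funext i
  rw [rfl0, rfl0]
  split_ifs <;> simp

theorem pr_neg (hINV : S_INV) (y : Fin D → ℤ) (w : Sym2 (Fin (D + 1) → ℤ) → ℝ) :
    pr D N R (-y) w = pr D N R y (fun e => w (Sym2.map (rfl0_invol D).toPerm e)) := by
  set σ : (Fin (D + 1) → ℤ) ≃ (Fin (D + 1) → ℤ) := (rfl0_invol D).toPerm with hσ
  have hσa : ∀ v, σ v = rfl0 D v := fun v => rfl
  obtain ⟨h1, -⟩ := hINV _ σ (Slab D N) (Slab D N) (by
    intro a b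
    rw [Slab, lg_iff, lg_iff, hσa, hσa]
    have e : ∀ i, |rfl0 D a i - rfl0 D b i| = |a i - b i| := by
      intro i
      rw [rfl0, rfl0]
      split_ifs
      · rfl
      · rw [neg_sub_neg, abs_sub_comm]
    simp only [e]
    rw [rfl0, rfl0, if_pos rfl, if_pos rfl])
  have hT : ∀ y, T D N (-y) w = T D N y (fun e => w (Sym2.map σ e)) := by
    intro y
    rw [T, T, ← h1, pt_comp, hσa, hσa]
    congr 1
    · congr 1
      funext i
      refine Fin.cases ?_ (fun j => ?_) i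
      · simp [rfl0]
      · simp [rfl0]
    · funext i
      simp [rfl0]
  have hT' : ∀ y, T D N y w = T D N (-y) (fun e => w (Sym2.map σ e)) := by
    intro y
    rw [← hT, neg_neg]
  have ht : tau D N R w = tau D N R (fun e => w (Sym2.map σ e)) := by
    apply le_antisymm
    · refine le_iInf₂ fun y hy => ?_
      rw [← hT]
      exact iInf₂_le _ ((neg_mem_iff D R y).2 hy)
    · refine le_iInf₂ fun y hy => ?_
      rw [hT']
      exact iInf₂_le _ ((neg_mem_iff D R y).2 hy)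
  have hi : ∀ y, ind D N R (-y) w = ind D N R y (fun e => w (Sym2.map σ e)) := by
    intro y
    rw [ind, ind, hT, ht]
  have hc : cnt D N R w = cnt D N R (fun e => w (Sym2.map σ e)) := by
    rw [cnt, cnt]
    apply Finset.sum_equiv (Equiv.neg _)
    · intro y
      rw [Equiv.neg_apply, neg_mem_iff]
    · intro y _
      rw [Equiv.neg_apply, ← hi, neg_neg]
  rw [pr, pr, hi, hc]

theorem int_neg (hMEAS : S_MEAS) (hINV : S_INV) (y : Fin D → ℤ) :
    ∫⁻ w, pr D N R (-y) w ∂(nu (Sym2 (Fin (D + 1) → ℤ))) =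
      ∫⁻ w, pr D N R y w ∂(nu (Sym2 (Fin (D + 1) → ℤ))) := by
  simp only [pr_neg D N R hINV]
  exact (hINV _ (rfl0_invol D).toPerm ⊥ ⊥ (fun a b => by simp)).2 _ (meas_pr D N R hMEAS y)

end PkgPI

theorem pPI (hMEAS : S_MEAS) (hRES : S_RES) (hINV : S_INV) : S_PI := by
  intro D N R _
  refine ⟨fun y => ∫⁻ w, PkgPI.pr D N R y w ∂(nu (Sym2 (Fin (D + 1) → ℤ))),
    PkgPI.int_neg D N R hMEAS hINV, ?_, fun N' z' => ?_⟩
  · rw [← lintegral_finsetSum _ fun y _ => PkgPI.meas_pr D N R hMEAS y]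
    have e : ∀ w, ∑ y ∈ Fintype.piFinset fun _ : Fin D => Finset.Icc (-(R : ℤ)) R,
        PkgPI.pr D N R y w = 1 := PkgPI.sum_pr D N R
    simp only [e]
    have := PkgPI.nu_prob (Sym2 (Fin (D + 1) → ℤ))
    rw [lintegral_one, measure_univ]
  · rw [bb]
    refine (lintegral_mono (PkgPI.pointwise D N R · _)).trans ?_
    rw [lintegral_add_left (hMEAS _ _ _ _)]
    refine add_le_add le_rfl ?_
    have hm : ∀ y ∈ PkgPI.Y D R, Measurable fun w : Sym2 (Fin (D + 1) → ℤ) → ℝ =>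
        PkgPI.pr D N R y w *
          Ph (Half D N) (pt (Fin.cons ((N + N' : ℕ) : ℤ) z')) w (Fin.cons (N : ℤ) y) :=
      fun y _ => (PkgPI.meas_pr D N R hMEAS y).mul (hMEAS _ _ _ _)
    rw [lintegral_finsetSum _ hm]
    refine Finset.sum_le_sum fun y _ => le_of_eq ?_
    rw [PkgPI.indep D N R hMEAS hRES, PkgPI.translate D N hMEAS hINV]

end

end Pool.Agent.T2H92.FP
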