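import Pool.Agent.T2H92.FP.Stm

set_option autoImplicit false

open MeasureTheory ProbabilityTheory Filter Topology
open scoped ENNReal

namespace Pool.Agent.T2H92.FP
namespace PkgRES

instance instProbExp : IsProbabilityMeasure (expMeasure 1) :=
  isProbabilityMeasure_expMeasure one_pos

instance instProbNu (E : Type) : IsProbabilityMeasure (nu E) := by
  unfold nu; infer_instance

theorem meas_mix {E : Type} (P : Set E) :
    Measurable (fun p : (E → ℝ) × (E → ℝ) => mix P p.1 p.2) := by
  refine measurable_pi_iff.2 fun e => ?_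
  by_cases h : e ∈ P
  · simp only [mix, h, if_true]
    exact (measurable_pi_apply e).comp measurable_fst
  · simp only [mix, h, if_false]
    exact (measurable_pi_apply e).comp measurable_snd

theorem map_mix {E : Type} (P : Set E) :
    Measure.map (fun p : (E → ℝ) × (E → ℝ) => mix P p.1 p.2) ((nu E).prod (nu E)) = nu E := by
  classical
  refine Measure.eq_infinitePi _ fun s t ht => ?_
  rw [Measure.map_apply (meas_mix P) (.pi s.countable_toSet fun _ _ => ht _)]
  have : (fun p : (E → ℝ) × (E → ℝ) => mix P p.1 p.2) ⁻¹' (Set.pi (s : Set E) t) =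
      (Set.pi ((s.filter (· ∈ P) : Finset E) : Set E) t) ×ˢ
        (Set.pi ((s.filter (¬ · ∈ P) : Finset E) : Set E) t) := by
    ext ⟨x, y⟩
    simp only [Set.mem_preimage, Set.mem_pi, Finset.mem_coe, Set.mem_prod, Finset.mem_filter]
    constructor
    · intro h
      refine ⟨fun i hi => ?_, fun i hi => ?_⟩
      · have := h i hi.1
        simpa [mix, hi.2] using this
      · have := h i hi.1
        simpa [mix, hi.2] using this
    · rintro ⟨h1, h2⟩ i hi
      by_cases hP : i ∈ P
      · simpa [mix, hP] using h1 i ⟨hi, hP⟩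
      · simpa [mix, hP] using h2 i ⟨hi, hP⟩
  rw [this, Measure.prod_prod, nu, Measure.infinitePi_pi _ (fun i _ => ht i),
    Measure.infinitePi_pi _ (fun i _ => ht i)]
  exact Finset.prod_filter_mul_prod_filter_not s _ _

end PkgRES

theorem pRES : S_RES := by
  intro E _ P Θ hΘ
  conv_lhs => rw [← PkgRES.map_mix P]
  rw [lintegral_map hΘ (PkgRES.meas_mix P)]
  exact lintegral_prod_symm (fun p : (E → ℝ) × (E → ℝ) => Θ (mix P p.1 p.2))
    (hΘ.comp (PkgRES.meas_mix P)).aemeasurable

end Pool.Agent.T2H92.FP
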