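import Pool.Agent.T2H92.FP.NUMD

set_option autoImplicit false

/-!
# FIN (helper92): assembly
-/

open MeasureTheory ProbabilityTheory Filter Topology
open scoped ENNReal

namespace Pool.Agent.T2H92.FP

namespace PkgFIN

lemma cert_mono {D' D : ℕ} {mu : ℝ} (h : Cert D' mu) (hD : D' ≤ D) : Cert D mu := by
  obtain ⟨AM, BM, hh, ra, rb, h1, h2, h3, h4⟩ := h
  refine ⟨AM, BM, hh, ra, rb, h1, h2, h3, fun a b ha hb1 hb2 => ?_⟩
  obtain ⟨k1, k2, k3, k4, k5⟩ := h4 a b ha hb1 hb2
  have e1 : 2 * D' * a ≤ 2 * D * a := by gcongr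
  have e2 : 2 * D' * b ≤ 2 * D * b := by gcongr
  exact ⟨k1.trans e1, by omega, k3, k4, k5⟩

lemma log_lb : (12037 / 10000 : ℝ) < Real.log (10 / 3) := by
  rw [Real.lt_log_iff_exp_lt (by norm_num)]
  have e : (12037 / 10000 : ℝ) = 1 + 2037 / 10000 := by norm_num
  rw [e, Real.exp_add]
  have h1 := Real.exp_one_lt_d9
  have h2 := Real.exp_bound' (x := 2037 / 10000) (by norm_num) (by norm_num) (n := 5) (by norm_num)
  have h3 : Real.exp (2037 / 10000) < 12260 / 10000 := by
    refine h2.trans_lt ?_
    norm_num [Finset.sum_range_succ, Nat.factorial]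
  have h4 := Real.exp_pos (2037 / 10000)
  calc Real.exp 1 * Real.exp (2037 / 10000) ≤ 2.7182818286 * Real.exp (2037 / 10000) := by gcongr
    _ ≤ 2.7182818286 * (12260 / 10000) := by gcongr
    _ < 10 / 3 := by norm_num

lemma fin_of (hAX : S_AX) (hDIAG : S_DIAG) (D D' : ℕ) (mu θ s t ρ : ℝ) (hD : D' ≤ D)
    (hcert : Cert D' mu) (hmu : 0 ≤ mu) (hθ : 0 < θ) (hs : 0 ≤ s) (ht : 0 < t) (hρ : ρ < 1)
    (h1 : 1 / (1 + θ) * ((D + 1 : ℝ) * (10 / 3) * 1 + D * (3 / 10) * t) ≤ ρ * 1)
    (h2 : 1 / (1 + θ) * (D * (10 / 3) * 1 + (D + 1 : ℝ) * (3 / 10) * t) ≤ ρ * t)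
    (h3 : θ * s < (D + 1 : ℝ) * (12037 / 10000)) (h4 : mu ^ 2 * (D + 1 : ℝ) < s ^ 2)
    {Ω : Type} [MeasurableSpace Ω] (P : Measure Ω) [IsProbabilityMeasure P]
    (ω : Sym2 (Fin (D + 1) → ℤ) → Ω → ℝ) (hind : iIndepFun ω P)
    (hlaw : ∀ e, Measurable (ω e) ∧ P.map (ω e) = expMeasure 1)
    (hc : ∃ c : ℝ, ∀ x : Fin (D + 1) → ℤ, ∀ᵐ t ∂P, Tendsto
      (fun n : ℕ => (⨅ p : (SimpleGraph.fromRel
        (fun y z : Fin (D + 1) → ℤ => ∑ i, |y i - z i| = 1)).Walk 0 (n • x),
          (p.edges.map (fun e => ω e t)).sum) / (n : ℝ))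
      atTop (𝓝 (c * Real.sqrt (∑ i, ((x i : ℝ)) ^ 2)))) : False := by
  obtain ⟨c, hc⟩ := hc
  have hD1 : (0 : ℝ) < (D : ℝ) + 1 := by positivity
  -- the axis
  have hax : c ≤ mu := by
    refine hAX D mu hmu (cert_mono hcert hD) Ω P ω hind hlaw c ?_
    filter_upwards [hc (Pi.single 0 1)] with u hu
    have e : c * Real.sqrt (∑ i, ((((Pi.single 0 1 : Fin (D + 1) → ℤ) i : ℤ) : ℝ)) ^ 2) = c := by
      rw [Finset.sum_eq_single 0]
      · simp
      · intro b _ hb
        simp [Pi.single_eq_of_ne hb]
      · simp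
    rw [e] at hu
    exact hu
  -- the diagonal
  have hdi : s ≤ c * Real.sqrt ((D : ℝ) + 1) := by
    refine hDIAG (D + 1) (10 / 3) θ s (by omega) (by norm_num) hθ ?_ ?_ Ω P ω hind hlaw _ ?_
    · refine ⟨1, t, ρ, one_pos, ht, hρ, ?_, ?_⟩
      · push_cast
        convert h1 using 3 <;> norm_num
      · push_cast
        convert h2 using 3 <;> norm_num
    · push_cast
      refine h3.trans ?_
      have := log_lb
      gcongr
    · filter_upwards [hc 1] with u hu
      have e : (∑ i : Fin (D + 1), ((((1 : Fin (D + 1) → ℤ) i : ℤ) : ℝ)) ^ 2) = (D : ℝ) + 1 := by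
        simp
      rw [e] at hu
      exact hu
  have h5 : mu * Real.sqrt ((D : ℝ) + 1) < s := by
    have h6 : (mu * Real.sqrt ((D : ℝ) + 1)) ^ 2 < s ^ 2 := by
      rw [mul_pow, Real.sq_sqrt hD1.le]
      exact h4
    exact lt_of_pow_lt_pow_left₀ 2 hs h6
  have h7 : c * Real.sqrt ((D : ℝ) + 1) ≤ mu * Real.sqrt ((D : ℝ) + 1) := by gcongr
  linarith

end PkgFIN

open PkgFIN in
theorem pFIN (hAX : S_AX) (hDIAG : S_DIAG) : ∀ d : ℕ, 15 ≤ d → d < 35 →
    ∀ (Ω : Type) [MeasurableSpace Ω] (P : Measure Ω) [IsProbabilityMeasure P]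
      (ω : Sym2 (Fin d → ℤ) → Ω → ℝ),
      iIndepFun ω P →
      (∀ e, Measurable (ω e) ∧ P.map (ω e) = expMeasure 1) →
      ¬ ∃ c : ℝ, ∀ x : Fin d → ℤ, ∀ᵐ t ∂P,
        Tendsto
          (fun n : ℕ =>
            (⨅ p : (SimpleGraph.fromRel
                (fun y z : Fin d → ℤ => ∑ i, |y i - z i| = 1)).Walk 0 (n • x),
                (p.edges.map (fun e => ω e t)).sum) / (n : ℝ))
          atTop (𝓝 (c * Real.sqrt (∑ i, ((x i : ℝ)) ^ 2))) := by
  intro d hd1 hd2 Ω _ P _ ω hind hlaw hc
  obtain ⟨D, rfl⟩ : ∃ D, d = D + 1 := ⟨d - 1, by omega⟩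
  have hD1 : 14 ≤ D := by omega
  have hD2 : D ≤ 33 := by omega
  clear hd1 hd2
  interval_cases D
  · exact fin_of hAX hDIAG 14 14 (11 / 125) (26483 / 500) (34087 / 100000) (471737 / 500000) (499969 / 500000) (by norm_num)
      (by have h := PkgNUM.cert14; norm_num at h ⊢; exact h) (by norm_num) (by norm_num) (by norm_num)
      (by norm_num) (by norm_num) (by norm_num) (by norm_num) (by norm_num) (by norm_num) P ω hind hlaw hc
  · exact fin_of hAX hDIAG 15 15 (17 / 200) (56599 / 1000) (17013 / 50000) (473529 / 500000) (499967 / 500000) (by norm_num)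
      (by have h := PkgNUM.cert15; norm_num at h ⊢; exact h) (by norm_num) (by norm_num) (by norm_num)
      (by norm_num) (by norm_num) (by norm_num) (by norm_num) (by norm_num) (by norm_num) P ω hind hlaw hc
  · exact fin_of hAX hDIAG 16 16 (823 / 10000) (60231 / 1000) (33973 / 100000) (475107 / 500000) (249987 / 250000) (by norm_num)
      (by have h := PkgNUM.cert16; norm_num at h ⊢; exact h) (by norm_num) (by norm_num) (by norm_num)
      (by norm_num) (by norm_num) (by norm_num) (by norm_num) (by norm_num) (by norm_num) P ω hind hlaw hc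
  · exact fin_of hAX hDIAG 17 17 (31 / 400) (7983 / 125) (1357 / 4000) (119127 / 125000) (499973 / 500000) (by norm_num)
      (by have h := PkgNUM.cert17; norm_num at h ⊢; exact h) (by norm_num) (by norm_num) (by norm_num)
      (by norm_num) (by norm_num) (by norm_num) (by norm_num) (by norm_num) (by norm_num) P ω hind hlaw hc
  · exact fin_of hAX hDIAG 18 17 (31 / 400) (67497 / 1000) (16941 / 50000) (477759 / 500000) (499973 / 500000) (by norm_num)
      (by have h := PkgNUM.cert17; norm_num at h ⊢; exact h) (by norm_num) (by norm_num) (by norm_num)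
      (by norm_num) (by norm_num) (by norm_num) (by norm_num) (by norm_num) (by norm_num) P ω hind hlaw hc
  · exact fin_of hAX hDIAG 19 19 (9 / 125) (71129 / 1000) (8461 / 25000) (119721 / 125000) (999959 / 1000000) (by norm_num)
      (by have h := PkgNUM.cert19; norm_num at h ⊢; exact h) (by norm_num) (by norm_num) (by norm_num)
      (by norm_num) (by norm_num) (by norm_num) (by norm_num) (by norm_num) (by norm_num) P ω hind hlaw hc
  · exact fin_of hAX hDIAG 20 19 (9 / 125) (37381 / 500) (33809 / 100000) (959801 / 1000000) (24999 / 25000) (by norm_num)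
      (by have h := PkgNUM.cert19; norm_num at h ⊢; exact h) (by norm_num) (by norm_num) (by norm_num)
      (by norm_num) (by norm_num) (by norm_num) (by norm_num) (by norm_num) (by norm_num) P ω hind hlaw hc
  · exact fin_of hAX hDIAG 21 19 (9 / 125) (15679 / 200) (16889 / 50000) (60103 / 62500) (24999 / 25000) (by norm_num)
      (by have h := PkgNUM.cert19; norm_num at h ⊢; exact h) (by norm_num) (by norm_num) (by norm_num)
      (by norm_num) (by norm_num) (by norm_num) (by norm_num) (by norm_num) (by norm_num) P ω hind hlaw hc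
  · exact fin_of hAX hDIAG 22 22 (647 / 10000) (20507 / 250) (33749 / 100000) (240833 / 250000) (999961 / 1000000) (by norm_num)
      (by have h := PkgNUM.cert22; norm_num at h ⊢; exact h) (by norm_num) (by norm_num) (by norm_num)
      (by norm_num) (by norm_num) (by norm_num) (by norm_num) (by norm_num) (by norm_num) P ω hind hlaw hc
  · exact fin_of hAX hDIAG 23 22 (647 / 10000) (85661 / 1000) (33723 / 100000) (7719 / 8000) (999963 / 1000000) (by norm_num)
      (by have h := PkgNUM.cert22; norm_num at h ⊢; exact h) (by norm_num) (by norm_num) (by norm_num)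
      (by norm_num) (by norm_num) (by norm_num) (by norm_num) (by norm_num) (by norm_num) P ω hind hlaw hc
  · exact fin_of hAX hDIAG 24 22 (647 / 10000) (44647 / 500) (33699 / 100000) (966293 / 1000000) (249991 / 250000) (by norm_num)
      (by have h := PkgNUM.cert22; norm_num at h ⊢; exact h) (by norm_num) (by norm_num) (by norm_num)
      (by norm_num) (by norm_num) (by norm_num) (by norm_num) (by norm_num) (by norm_num) P ω hind hlaw hc
  · exact fin_of hAX hDIAG 25 22 (647 / 10000) (92927 / 1000) (33677 / 100000) (967601 / 1000000) (499983 / 500000) (by norm_num)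
      (by have h := PkgNUM.cert22; norm_num at h ⊢; exact h) (by norm_num) (by norm_num) (by norm_num)
      (by norm_num) (by norm_num) (by norm_num) (by norm_num) (by norm_num) (by norm_num) P ω hind hlaw hc
  · exact fin_of hAX hDIAG 26 22 (647 / 10000) (2414 / 25) (4207 / 12500) (968811 / 1000000) (31249 / 31250) (by norm_num)
      (by have h := PkgNUM.cert22; norm_num at h ⊢; exact h) (by norm_num) (by norm_num) (by norm_num)
      (by norm_num) (by norm_num) (by norm_num) (by norm_num) (by norm_num) (by norm_num) P ω hind hlaw hc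
  · exact fin_of hAX hDIAG 27 27 (23 / 400) (100193 / 1000) (33637 / 100000) (484967 / 500000) (99997 / 100000) (by norm_num)
      (by have h := PkgNUM.cert27; norm_num at h ⊢; exact h) (by norm_num) (by norm_num) (by norm_num)
      (by norm_num) (by norm_num) (by norm_num) (by norm_num) (by norm_num) (by norm_num) P ω hind hlaw hc
  · exact fin_of hAX hDIAG 28 27 (23 / 400) (51913 / 500) (33619 / 100000) (970979 / 1000000) (249993 / 250000) (by norm_num)
      (by have h := PkgNUM.cert27; norm_num at h ⊢; exact h) (by norm_num) (by norm_num) (by norm_num)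
      (by norm_num) (by norm_num) (by norm_num) (by norm_num) (by norm_num) (by norm_num) P ω hind hlaw hc
  · exact fin_of hAX hDIAG 29 27 (23 / 400) (5373 / 50) (33603 / 100000) (485977 / 500000) (199993 / 200000) (by norm_num)
      (by have h := PkgNUM.cert27; norm_num at h ⊢; exact h) (by norm_num) (by norm_num) (by norm_num)
      (by norm_num) (by norm_num) (by norm_num) (by norm_num) (by norm_num) (by norm_num) P ω hind hlaw hc
  · exact fin_of hAX hDIAG 30 27 (23 / 400) (111093 / 1000) (33587 / 100000) (486433 / 500000) (999967 / 1000000) (by norm_num)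
      (by have h := PkgNUM.cert27; norm_num at h ⊢; exact h) (by norm_num) (by norm_num) (by norm_num)
      (by norm_num) (by norm_num) (by norm_num) (by norm_num) (by norm_num) (by norm_num) P ω hind hlaw hc
  · exact fin_of hAX hDIAG 31 27 (23 / 400) (57363 / 500) (33573 / 100000) (24343 / 25000) (999969 / 1000000) (by norm_num)
      (by have h := PkgNUM.cert27; norm_num at h ⊢; exact h) (by norm_num) (by norm_num) (by norm_num)
      (by norm_num) (by norm_num) (by norm_num) (by norm_num) (by norm_num) (by norm_num) P ω hind hlaw hc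
  · exact fin_of hAX hDIAG 32 27 (23 / 400) (118359 / 1000) (33559 / 100000) (487261 / 500000) (999971 / 1000000) (by norm_num)
      (by have h := PkgNUM.cert27; norm_num at h ⊢; exact h) (by norm_num) (by norm_num) (by norm_num)
      (by norm_num) (by norm_num) (by norm_num) (by norm_num) (by norm_num) (by norm_num) P ω hind hlaw hc
  · exact fin_of hAX hDIAG 33 27 (23 / 400) (15249 / 125) (16773 / 50000) (243819 / 250000) (499987 / 500000) (by norm_num)
      (by have h := PkgNUM.cert27; norm_num at h ⊢; exact h) (by norm_num) (by norm_num) (by norm_num)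
      (by norm_num) (by norm_num) (by norm_num) (by norm_num) (by norm_num) (by norm_num) P ω hind hlaw hc

end Pool.Agent.T2H92.FP
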