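import Pool.Agent.T2H92.FP.Stm

set_option autoImplicit false

/-!
# NUM (helper92): potentials computed by the kernel
-/

namespace Pool.Agent.T2H92.FP

namespace PkgNUM

/-- one cell: `⌈(Q + ra x + rb c + e) / (ra + rb + b)⌉` -/
def cell (Q ra rb b e x c : Nat) : Nat :=
  Nat.div (Nat.add (Nat.add (Nat.add Q (Nat.mul ra x)) (Nat.mul rb c))
    (Nat.add e (Nat.pred (Nat.add (Nat.add ra rb) b)))) (Nat.add (Nat.add ra rb) b)

def go (Q a ra : Nat) : List (Nat × Nat × Nat) → List Nat → Nat → List Nat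
  | [], _, _ => []
  | _ :: _, [], _ => []
  | (b, g, e) :: bs, x :: xs, c =>
    (fun v => v :: go Q a ra bs xs v) (cell Q ra (Nat.add g (Nat.sub a b)) b e x c)

def rowOf (Q BM eB a ra : Nat) (ps : List (Nat × Nat × Nat)) : List Nat → List Nat
  | [] => []
  | x :: xs => (fun v => v :: go Q a ra ps xs v) (cell Q ra 0 BM eB x 0)

def lastD : List Nat → Nat → Nat
  | [], d => d
  | x :: xs, _ => lastD xs x

def chk (Q BM eB : Nat) (ps : List (Nat × Nat × Nat)) : List (Nat × Nat × Nat) → List Nat → Bool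
  | [], _ => true
  | (a, ra, lim) :: as, xs =>
    (fun row => and (Nat.ble (lastD row 0) lim) (chk Q BM eB ps as row)) (rowOf Q BM eB a ra ps xs)

/-- the table -/
def tab (Q BM eB : Nat) (ps : List (Nat × Nat × Nat)) : List (Nat × Nat × Nat) → List Nat → List (List Nat)
  | [], _ => []
  | (a, ra, _) :: as, xs => rowOf Q BM eB a ra ps xs :: tab Q BM eB ps as (rowOf Q BM eB a ra ps xs)

lemma cell_spec {Q ra rb b e x c : ℕ} (hb : 1 ≤ b) :
    Q + ra * x + rb * c + e ≤ (ra + rb + b) * cell Q ra rb b e x c := by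
  have h : cell Q ra rb b e x c = (Q + ra * x + rb * c + (e + (ra + rb + b - 1))) / (ra + rb + b) := rfl
  rw [h]
  set R := ra + rb + b with hR
  have hR1 : 1 ≤ R := by omega
  have h1 := Nat.div_add_mod (Q + ra * x + rb * c + (e + (R - 1))) R
  have h2 := Nat.mod_lt (Q + ra * x + rb * c + (e + (R - 1))) (by omega : 0 < R)
  omega

lemma go_length (Q a ra : ℕ) : ∀ (ps : List (ℕ × ℕ × ℕ)) (xs : List ℕ) (c : ℕ),
    ps.length = xs.length → (go Q a ra ps xs c).length = ps.length := by
  intro ps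
  induction ps with
  | nil => intro xs c _; simp [go]
  | cons p ps ih =>
    intro xs c h
    obtain ⟨b, g, e⟩ := p
    cases xs with
    | nil => simp at h
    | cons x xs =>
      simp only [go, List.length_cons]
      rw [ih xs _ (by simpa using h)]

lemma go_getD (Q a ra : ℕ) : ∀ (ps : List (ℕ × ℕ × ℕ)) (xs : List ℕ) (c : ℕ) (i : ℕ),
    ps.length = xs.length → i < ps.length →
    (go Q a ra ps xs c).getD i 0 =
      cell Q ra ((ps.getD i (0, 0, 0)).2.1 + (a - (ps.getD i (0, 0, 0)).1)) (ps.getD i (0, 0, 0)).1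
        (ps.getD i (0, 0, 0)).2.2 (xs.getD i 0) ((c :: go Q a ra ps xs c).getD i 0) := by
  intro ps
  induction ps with
  | nil => intro xs c i _ hi; simp at hi
  | cons p ps ih =>
    intro xs c i h hi
    obtain ⟨b, g, e⟩ := p
    cases xs with
    | nil => simp at h
    | cons x xs =>
      cases i with
      | zero => simp [go]
      | succ i =>
        have h1 : ps.length = xs.length := by simpa using h
        have h2 : i < ps.length := by simpa using hi
        simp only [go, List.getD_cons_succ]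
        rw [ih xs _ i h1 h2]

lemma rowOf_length {Q BM eB a ra : ℕ} {ps : List (ℕ × ℕ × ℕ)} {xs : List ℕ}
    (h : xs.length = ps.length + 1) : (rowOf Q BM eB a ra ps xs).length = ps.length + 1 := by
  cases xs with
  | nil => simp at h
  | cons x xs =>
    simp only [rowOf, List.length_cons]
    rw [go_length _ _ _ _ _ _ (by simpa using h.symm)]

lemma rowOf_zero {Q BM eB a ra : ℕ} {ps : List (ℕ × ℕ × ℕ)} {xs : List ℕ}
    (h : xs.length = ps.length + 1) :
    (rowOf Q BM eB a ra ps xs).getD 0 0 = cell Q ra 0 BM eB (xs.getD 0 0) 0 := by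
  cases xs with
  | nil => simp at h
  | cons x xs => simp [rowOf]

lemma rowOf_succ {Q BM eB a ra : ℕ} {ps : List (ℕ × ℕ × ℕ)} {xs : List ℕ}
    (h : xs.length = ps.length + 1) {i : ℕ} (hi : i < ps.length) :
    (rowOf Q BM eB a ra ps xs).getD (i + 1) 0 =
      cell Q ra ((ps.getD i (0, 0, 0)).2.1 + (a - (ps.getD i (0, 0, 0)).1)) (ps.getD i (0, 0, 0)).1
        (ps.getD i (0, 0, 0)).2.2 (xs.getD (i + 1) 0) ((rowOf Q BM eB a ra ps xs).getD i 0) := by
  cases xs with
  | nil => simp at h
  | cons x xs =>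
    simp only [rowOf, List.getD_cons_succ]
    rw [go_getD _ _ _ _ _ _ _ (by simpa using h.symm) hi]

lemma lastD_eq : ∀ (l : List ℕ) (d : ℕ), lastD l d = (d :: l).getD l.length 0 := by
  intro l
  induction l with
  | nil => intro d; simp [lastD]
  | cons x xs ih =>
    intro d
    simp only [lastD, List.length_cons, List.getD_cons_succ]
    rw [ih x]

/-- the previous row -/
def prev (Q BM eB : ℕ) (ps as : List (ℕ × ℕ × ℕ)) (xs : List ℕ) (j : ℕ) : List ℕ :=
  (xs :: tab Q BM eB ps as xs).getD j []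

lemma tab_getD (Q BM eB : ℕ) (ps : List (ℕ × ℕ × ℕ)) : ∀ (as : List (ℕ × ℕ × ℕ)) (xs : List ℕ) (j : ℕ),
    j < as.length → (tab Q BM eB ps as xs).getD j [] =
      rowOf Q BM eB (as.getD j (0, 0, 0)).1 (as.getD j (0, 0, 0)).2.1 ps (prev Q BM eB ps as xs j) := by
  intro as
  induction as with
  | nil => intro xs j hj; simp at hj
  | cons p as ih =>
    intro xs j hj
    obtain ⟨a, ra, lim⟩ := p
    cases j with
    | zero => simp [tab, prev]
    | succ j =>
      have h1 : j < as.length := by simpa using hj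
      simp only [tab, List.getD_cons_succ, prev]
      rw [ih _ j h1]
      rfl

lemma tab_len (Q BM eB : ℕ) (ps : List (ℕ × ℕ × ℕ)) : ∀ (as : List (ℕ × ℕ × ℕ)) (xs : List ℕ) (j : ℕ),
    xs.length = ps.length + 1 → j ≤ as.length → (prev Q BM eB ps as xs j).length = ps.length + 1 := by
  intro as
  induction as with
  | nil =>
    intro xs j h hj
    have : j = 0 := by simpa using hj
    subst this
    simpa [prev] using h
  | cons p as ih =>
    intro xs j h hj
    obtain ⟨a, ra, lim⟩ := p
    cases j with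
    | zero => simpa [prev] using h
    | succ j =>
      have h1 : j ≤ as.length := by simpa using hj
      have := ih (rowOf Q BM eB a ra ps xs) j (rowOf_length h) h1
      simpa [prev, tab] using this

lemma chk_spec (Q BM eB : ℕ) (ps : List (ℕ × ℕ × ℕ)) : ∀ (as : List (ℕ × ℕ × ℕ)) (xs : List ℕ),
    chk Q BM eB ps as xs = true → ∀ j, j < as.length →
      lastD ((tab Q BM eB ps as xs).getD j []) 0 ≤ (as.getD j (0, 0, 0)).2.2 := by
  intro as
  induction as with
  | nil => intro xs _ j hj; simp at hj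
  | cons p as ih =>
    intro xs h j hj
    obtain ⟨a, ra, lim⟩ := p
    have h' : (Nat.ble (lastD (rowOf Q BM eB a ra ps xs) 0) lim &&
        chk Q BM eB ps as (rowOf Q BM eB a ra ps xs)) = true := h
    rw [Bool.and_eq_true] at h'
    cases j with
    | zero =>
      simp only [tab, List.getD_cons_zero]
      exact Nat.le_of_ble_eq_true h'.1
    | succ j =>
      simp only [tab, List.getD_cons_succ]
      exact ih _ h'.2 j (by simpa using hj)

/-- from the table to the certificate -/
theorem cert_of (D AM BM Q muN eB : ℕ) (ps as : List (ℕ × ℕ × ℕ)) (hQ : 0 < Q) (h1 : 1 ≤ BM)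
    (h2 : BM ≤ AM) (hla : as.length = AM + 1) (hlp : ps.length + 1 = BM)
    (hchk : chk Q BM eB ps as (List.replicate BM 0) = true)
    (hA : ∀ j, j < AM + 1 → (as.getD j (0, 0, 0)).1 = AM - j ∧
      (as.getD j (0, 0, 0)).2.1 + 2 * ef (AM - j) ≤ 2 * D * (AM - j) ∧
      (j = 0 → (as.getD j (0, 0, 0)).2.1 = 0))
    (hP : ∀ i, i < BM - 1 → (ps.getD i (0, 0, 0)).1 = BM - 1 - i ∧
      (ps.getD i (0, 0, 0)).2.1 + 2 * ef (BM - 1 - i) ≤ 2 * D * (BM - 1 - i) ∧
      (BM - 1 - i) * (as.getD (AM - (BM - 1 - i)) (0, 0, 0)).2.2 ≤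
        (ps.getD i (0, 0, 0)).2.2 + (BM - 1 - i) * muN)
    (hB : BM * (as.getD (AM - BM) (0, 0, 0)).2.2 ≤ eB + BM * muN) :
    Cert D ((muN : ℝ) / Q) := by
  set T := tab Q BM eB ps as (List.replicate BM 0) with hT
  set v : ℕ → ℕ → ℕ := fun a b => (T.getD (AM - a) []).getD (BM - b) 0 with hv
  set ra : ℕ → ℕ → ℕ := fun a _ => (as.getD (AM - a) (0, 0, 0)).2.1 with hra
  set rb : ℕ → ℕ → ℕ := fun a b => if b = BM then 0 else
    (ps.getD (BM - 1 - b) (0, 0, 0)).2.1 + (a - b) with hrb
  have hQ' : (0 : ℝ) < Q := by exact_mod_cast hQ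
  have hlx : (List.replicate BM 0).length = ps.length + 1 := by simp [hlp]
  -- the limits
  have hlim : ∀ b, 1 ≤ b → b ≤ BM → v b 1 ≤ (as.getD (AM - b) (0, 0, 0)).2.2 := by
    intro b hb1 hb2
    have h3 := chk_spec Q BM eB ps as _ hchk (AM - b) (by omega)
    rw [lastD_eq] at h3
    have h4 : (T.getD (AM - b) []).length = BM := by
      rw [hT, tab_getD _ _ _ _ _ _ _ (by omega), rowOf_length, hlp]
      exact tab_len _ _ _ _ _ _ _ hlx (by omega)
    rw [← hT, h4] at h3
    obtain ⟨k, hk⟩ : ∃ k, BM = k + 1 := ⟨BM - 1, by omega⟩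
    simp only [hv]
    have h5 : BM - 1 = k := by omega
    rw [h5]
    have h6 : (0 :: T.getD (AM - b) []).getD BM 0 = (T.getD (AM - b) []).getD k 0 := by
      rw [hk, List.getD_cons_succ]
    rw [← h6]
    exact h3
  refine ⟨AM, BM, fun a b => (v a b : ℝ) / Q, ra, rb, h1, h2, fun a b => by positivity, ?_⟩
  intro a b ha hb1 hb2
  obtain ⟨hA1, hA2, hA3⟩ := hA (AM - a) (by omega)
  have haa : AM - (AM - a) = a := by omega
  rw [haa] at hA1 hA2
  have hrow := tab_getD Q BM eB ps as (List.replicate BM 0) (AM - a) (by omega)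
  rw [← hT, hA1] at hrow
  have hpl : (prev Q BM eB ps as (List.replicate BM 0) (AM - a)).length = ps.length + 1 :=
    tab_len _ _ _ _ _ _ _ hlx (by omega)
  -- the previous row
  have hprev : a < AM → ∀ i, (prev Q BM eB ps as (List.replicate BM 0) (AM - a)).getD i 0 =
      (T.getD (AM - (a + 1)) []).getD i 0 := by
    intro haM i
    obtain ⟨k, hk⟩ : ∃ k, AM - a = k + 1 := ⟨AM - a - 1, by omega⟩
    have hk' : AM - (a + 1) = k := by omega
    rw [hk, hk']
    simp only [prev, List.getD_cons_succ]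
    rw [← hT]
  have key : ∃ x e : ℕ, (ra a b * x = ra a b * v (a + 1) b) ∧ (b * v b 1 ≤ e + b * muN) ∧
      Q + ra a b * x + rb a b * v a (b + 1) + e ≤ (ra a b + rb a b + b) * v a b := by
    have hx : ∀ i, (as.getD (AM - a) (0, 0, 0)).2.1 *
        (prev Q BM eB ps as (List.replicate BM 0) (AM - a)).getD i 0 =
        (as.getD (AM - a) (0, 0, 0)).2.1 * (T.getD (AM - (a + 1)) []).getD i 0 := by
      intro i
      rcases Nat.lt_or_ge a AM with h | h
      · rw [hprev h]
      · rw [hA3 (by omega)]; simp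
    rcases Nat.lt_or_ge b BM with h | h
    · -- `b < BM`
      obtain ⟨hP1, hP2, hP3⟩ := hP (BM - 1 - b) (by omega)
      have hbb : BM - 1 - (BM - 1 - b) = b := by omega
      rw [hbb] at hP1 hP2 hP3
      refine ⟨(prev Q BM eB ps as (List.replicate BM 0) (AM - a)).getD (BM - b) 0,
        (ps.getD (BM - 1 - b) (0, 0, 0)).2.2, hx _, ?_, ?_⟩
      · exact (Nat.mul_le_mul_left b (hlim b hb1 hb2)).trans hP3
      · have h3 := rowOf_succ (Q := Q) (BM := BM) (eB := eB) (a := a)
          (ra := (as.getD (AM - a) (0, 0, 0)).2.1) hpl (i := BM - 1 - b) (by omega)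
        rw [← hrow, hP1] at h3
        have e1 : BM - 1 - b + 1 = BM - b := by omega
        rw [e1] at h3
        have e2 : BM - (b + 1) = BM - 1 - b := by omega
        simp only [hv, hra, hrb, if_neg (show b ≠ BM by omega)]
        rw [e2]
        have h4 := cell_spec (Q := Q) (ra := (as.getD (AM - a) (0, 0, 0)).2.1)
          (rb := (ps.getD (BM - 1 - b) (0, 0, 0)).2.1 + (a - b)) (b := b)
          (e := (ps.getD (BM - 1 - b) (0, 0, 0)).2.2)
          (x := (prev Q BM eB ps as (List.replicate BM 0) (AM - a)).getD (BM - b) 0)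
          (c := (T.getD (AM - a) []).getD (BM - 1 - b) 0) hb1
        rw [← h3] at h4
        exact h4
    · -- `b = BM`
      have hbB : b = BM := by omega
      subst hbB
      refine ⟨(prev Q b eB ps as (List.replicate b 0) (AM - a)).getD 0 0, eB, ?_, ?_, ?_⟩
      · simp only [hv, hra, Nat.sub_self]
        exact hx 0
      · exact (Nat.mul_le_mul_left b (hlim b hb1 hb2)).trans hB
      · have h3 := rowOf_zero (Q := Q) (BM := b) (eB := eB) (a := a)
          (ra := (as.getD (AM - a) (0, 0, 0)).2.1) hpl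
        rw [← hrow] at h3
        simp only [hv, hra, hrb, if_true, Nat.sub_self]
        have h4 := cell_spec (Q := Q) (ra := (as.getD (AM - a) (0, 0, 0)).2.1)
          (rb := 0) (b := b) (e := eB)
          (x := (prev Q b eB ps as (List.replicate b 0) (AM - a)).getD 0 0) (c := 0) hb1
        rw [← h3] at h4
        simpa using h4
  refine ⟨hA2, ?_, fun h => hA3 (by omega), fun h => by simp only [hrb, if_pos h], ?_⟩
  · simp only [hrb]
    split_ifs with h
    · obtain ⟨_, h3, _⟩ := hA (AM - b) (by omega)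
      have : AM - (AM - b) = b := by omega
      rw [this] at h3
      omega
    · obtain ⟨_, h3, _⟩ := hP (BM - 1 - b) (by omega)
      have : BM - 1 - (BM - 1 - b) = b := by omega
      rw [this] at h3
      omega
  · obtain ⟨x, e, hx1, he, hmain⟩ := key
    rw [hx1] at hmain
    have hmain' : (Q : ℝ) + ra a b * v (a + 1) b + rb a b * v a (b + 1) + e ≤
        (ra a b + rb a b + b) * v a b := by exact_mod_cast hmain
    have he' : (b : ℝ) * v b 1 ≤ e + b * muN := by exact_mod_cast he
    have e1 : 1 + (ra a b : ℝ) * ((v (a + 1) b : ℝ) / Q) + rb a b * ((v a (b + 1) : ℝ) / Q) +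
        b * ((v b 1 : ℝ) / Q - muN / Q) =
        (Q + ra a b * v (a + 1) b + rb a b * v a (b + 1) + (b * v b 1 - b * muN)) / Q := by
      field_simp
    have e2 : ((ra a b : ℝ) + rb a b + b) * ((v a b : ℝ) / Q) =
        ((ra a b + rb a b + b) * v a b) / Q := by ring
    rw [e1, e2]
    gcongr
    linarith

end PkgNUM

end Pool.Agent.T2H92.FP
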