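import Pool.Agent.T2H92.FP.Stm

/-!
# Project FP, package STEP (helper18): one step of the exploration, pointwise
-/

set_option autoImplicit false

open MeasureTheory ProbabilityTheory Filter Topology
open scoped ENNReal

namespace Pool.Agent.T2H92.FP

noncomputable section

namespace PkgSTEP

variable {V : Type} {G : SimpleGraph V} {f : V → ℝ≥0∞} {w : Sym2 V → ℝ}

lemma Ph_le_walk {u t : V} (p : G.Walk u t) :
    Ph G f w u ≤ (p.edges.map fun e => ENNReal.ofReal (w e)).sum + f t :=
  iInf_le_of_le t (iInf_le_of_le p le_rfl)

lemma Ph_le_nil (u : V) : Ph G f w u ≤ f u := by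
  have h := Ph_le_walk (f := f) (w := w) (SimpleGraph.Walk.nil : G.Walk u u)
  simpa using h

lemma Ph_le_cons {u u' : V} (h : G.Adj u u') :
    Ph G f w u ≤ ENNReal.ofReal (w s(u, u')) + Ph G f w u' := by
  rw [← tsub_le_iff_left]
  refine le_iInf fun t => le_iInf fun p => ?_
  rw [tsub_le_iff_left, ← add_assoc]
  have h2 := Ph_le_walk (f := f) (w := w) (SimpleGraph.Walk.cons h p)
  simpa using h2

lemma PhS_le {S : Finset V} {u : V} (h : u ∈ S) : PhS G f w S ≤ Ph G f w u :=
  iInf_le_of_le u (iInf_le_of_le h le_rfl)

end PkgSTEP

open PkgSTEP in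
/-- package STEP -/
theorem pSTEP : S_STEP := by
  intro V _ G f S A q m x y hq hA hm hx hy hxq hxA hxy
  obtain ⟨hs, hv, hadj⟩ := hA q hq
  have claim : ∀ (u t : V) (p : G.Walk u t),
      PhS G f x S ≤ ENNReal.ofReal m + ((p.edges.map fun e => ENNReal.ofReal (y e)).sum + f t) ∨
      (u ∉ insert q.2 S ∧
        Ph G f x u ≤ (p.edges.map fun e => ENNReal.ofReal (y e)).sum + f t) := by
    intro u t p
    induction p with
    | @nil u =>
      rw [SimpleGraph.Walk.edges_nil, List.map_nil, List.sum_nil, zero_add]
      by_cases hu : u ∈ insert q.2 S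
      · left
        rcases Finset.mem_insert.1 hu with h | h
        · subst h
          calc PhS G f x S ≤ Ph G f x q.1 := PhS_le hs
            _ ≤ ENNReal.ofReal (x s(q.1, q.2)) + Ph G f x q.2 := Ph_le_cons hadj
            _ ≤ _ := by rw [hxq]; exact add_le_add_right (Ph_le_nil _) _
        · calc PhS G f x S ≤ Ph G f x u := PhS_le h
            _ ≤ f u := Ph_le_nil _
            _ ≤ _ := le_add_self
      · exact Or.inr ⟨hu, Ph_le_nil _⟩
    | @cons u u' t h p ih =>
      rw [SimpleGraph.Walk.edges_cons, List.map_cons, List.sum_cons, add_assoc]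
      rcases ih with ih | ⟨hu', ih⟩
      · left
        exact ih.trans (add_le_add_right le_add_self _)
      · have hu'S : u' ∉ S := fun h => hu' (Finset.mem_insert_of_mem h)
        have hu'v : u' ≠ q.2 := fun h => hu' (h ▸ Finset.mem_insert_self _ _)
        by_cases hu : u ∈ S
        · left
          have hle : x s(u, u') ≤ m + y s(u, u') := by
            by_cases hex : ∃ p ∈ A, s(u, u') = s(p.1, p.2)
            · obtain ⟨p', hp', he⟩ := hex
              rw [he]
              refine (hxA p' hp' ?_).le
              rintro rfl
              rw [Sym2.eq_iff] at he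
              rcases he with ⟨h1, h2⟩ | ⟨h1, h2⟩
              · exact hu'v h2
              · exact hu'S (h2 ▸ hs)
            · push Not at hex
              rw [hxy _ hex]
              linarith
          calc PhS G f x S ≤ Ph G f x u := PhS_le hu
            _ ≤ ENNReal.ofReal (x s(u, u')) + Ph G f x u' := Ph_le_cons h
            _ ≤ ENNReal.ofReal (m + y s(u, u')) + Ph G f x u' :=
              add_le_add_left (ENNReal.ofReal_le_ofReal hle) _
            _ = ENNReal.ofReal m + (ENNReal.ofReal (y s(u, u')) + Ph G f x u') := by
              rw [ENNReal.ofReal_add hm (hy _), add_assoc]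
            _ ≤ _ := add_le_add_right (add_le_add_right ih _) _
        · have hxye : x s(u, u') = y s(u, u') := by
            refine hxy _ fun p' hp' he => ?_
            have h1 := (hA p' hp').1
            rw [Sym2.eq_iff] at he
            rcases he with ⟨h2, h3⟩ | ⟨h2, h3⟩
            · exact hu (h2 ▸ h1)
            · exact hu'S (h3 ▸ h1)
          have hPh : Ph G f x u ≤ ENNReal.ofReal (y s(u, u')) +
              ((p.edges.map fun e => ENNReal.ofReal (y e)).sum + f t) := by
            rw [← hxye]
            exact (Ph_le_cons h).trans (add_le_add_right ih _)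
          by_cases huv : u = q.2
          · left
            subst huv
            calc PhS G f x S ≤ Ph G f x q.1 := PhS_le hs
              _ ≤ ENNReal.ofReal (x s(q.1, q.2)) + Ph G f x q.2 := Ph_le_cons hadj
              _ ≤ _ := by rw [hxq]; exact add_le_add_right hPh _
          · right
            refine ⟨fun h' => ?_, hPh⟩
            rcases Finset.mem_insert.1 h' with h' | h'
            · exact huv h'
            · exact hu h'
  rw [← tsub_le_iff_left]
  refine le_iInf fun u => le_iInf fun hu => le_iInf fun t => le_iInf fun p => ?_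
  rw [tsub_le_iff_left]
  rcases claim u t p with h | h
  · exact h
  · exact absurd hu h.1

end

end Pool.Agent.T2H92.FP
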