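import Mathlib

set_option autoImplicit false

/-!
# Project FP (helper92), MP_edae2b_pr

The limit shape of first passage percolation on `ℤ^d` with exponential weights (Eden model) is not a
Euclidean ball for `15 ≤ d ≤ 34` (known: `d ≥ 35`; open: `2 ≤ d ≤ 34`).

Proof. If it is a ball, `T(0, n x) / n → c |x|` for all `x`.
* (DIAG) first moment bound, direction `(1, ..., 1)`: `s ≤ c √d` with `s = 0.34`.
* (AX) direction `e₁`: `c ≤ μ`, `μ` from an exploration of two consecutive hyperplanes with the worst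
  case of the edge isoperimetric inequality (a Markov chain on pairs `(a, b)` of cluster sizes).
* `μ √d < s` for `15 ≤ d ≤ 34`.

Package `X` proves `theorem pX : S_X` (with the other statements used as hypotheses, in the order given in the
docstring, e.g. `theorem pONE (hMEM : S_MEM) (hSTEP : S_STEP) : S_ONE`) in the file `Pool/Agent/T2H92/FP/X.lean`
(import this file, namespace `Pool.Agent.T2H92.FP`, auxiliary lemmas in the sub-namespace `PkgX`).
Statements must not be changed; if one is false or awkward, tell helper92 at once.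
-/

open MeasureTheory ProbabilityTheory Filter Topology
open scoped ENNReal

namespace Pool.Agent.T2H92.FP

noncomputable section

/-! ### passage functionals -/

/-- the law of independent `Exp(1)` weights -/
def nu (E : Type) : Measure (E → ℝ) := Measure.infinitePi fun _ : E => expMeasure 1

/-- passage functional: infimum over the walks from `u` to any `v` of passage time plus terminal cost `f v` -/
def Ph {V : Type} (G : SimpleGraph V) (f : V → ℝ≥0∞) (w : Sym2 V → ℝ) (u : V) : ℝ≥0∞ :=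
  ⨅ (v : V) (p : G.Walk u v), (p.edges.map fun e => ENNReal.ofReal (w e)).sum + f v

/-- the same from a set of vertices -/
def PhS {V : Type} (G : SimpleGraph V) (f : V → ℝ≥0∞) (w : Sym2 V → ℝ) (S : Finset V) : ℝ≥0∞ :=
  ⨅ u ∈ S, Ph G f w u

open Classical in
/-- the weights `x` on the edges in `P`, `y` on the other ones -/
def mix {E : Type} (P : Set E) (x y : E → ℝ) : E → ℝ := fun e => if e ∈ P then x e else y e

/-- RES. `nu E` is the law of `mix P x y` for independent `x`, `y`.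
Proof: the map `(x, y) ↦ mix P x y` is measurable; it sends `(nu E).prod (nu E)` to `nu E` by
`Measure.eq_infinitePi` (a box `Set.pi s t` has as preimage the product of the boxes `Set.pi (s ∩ P) t` and
`Set.pi (s \ P) t`; `Measure.infinitePi_pi`, `Finset.prod_filter_mul_prod_filter_not`); then `lintegral_map` and
`lintegral_prod_symm`/`lintegral_lintegral_swap`. (`isProbabilityMeasure_expMeasure` gives the instance.) -/
def S_RES : Prop := ∀ (E : Type) [Countable E] (P : Set E) (Θ : (E → ℝ) → ℝ≥0∞), Measurable Θ →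
  ∫⁻ w, Θ w ∂(nu E) = ∫⁻ y, ∫⁻ x, Θ (mix P x y) ∂(nu E) ∂(nu E)

/-- MEAS. Countable infimum (`Measurable.iInf`) of finite sums of coordinate functions; the type of walks is
countable: `p ↦ p.support` is injective into `List V` (or by induction on the length). -/
def S_MEAS : Prop := ∀ (V : Type) [Countable V] (G : SimpleGraph V) (f : V → ℝ≥0∞) (u : V),
  Measurable fun w : Sym2 V → ℝ => Ph G f w u

/-- INV. Relabelling the vertices. Proof: the law `nu` is invariant under the relabelling `w ↦ w ∘ Sym2.map σ`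
(`Measure.eq_infinitePi` or `infinitePi_map_piCongrLeft` or `map_infinitePi_infinitePi_of_inj`), and
`Ph G f (w ∘ Sym2.map σ) u = Ph (G.map σ.toEmbedding) (f ∘ σ.symm) w (σ u)` (walks are mapped by `σ`), stated for any
graph `G'` with `G'.Adj (σ a) (σ b) ↔ G.Adj a b`. -/
def S_INV : Prop := ∀ (V : Type) [Countable V] (σ : V ≃ V) (G G' : SimpleGraph V),
  (∀ a b, G'.Adj (σ a) (σ b) ↔ G.Adj a b) →
  (∀ (f : V → ℝ≥0∞) (w : Sym2 V → ℝ) (u : V),
    Ph G' (f ∘ σ.symm) w (σ u) = Ph G f (fun e => w (Sym2.map σ e)) u) ∧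
  (∀ Θ : (Sym2 V → ℝ) → ℝ≥0∞, Measurable Θ →
    ∫⁻ w, Θ (fun e => w (Sym2.map σ e)) ∂(nu (Sym2 V)) = ∫⁻ w, Θ w ∂(nu (Sym2 V)))

/-! ### exploration with memoryless clocks -/

/-- MEM1. **The memoryless property, finite form.** Pointwise (a.e. `x ≥ 0`) `1 ≤ ∑ a, 1[x a ≤ x b for all b]`. For fixed `a`
use `measurePreserving_piFinSuccAbove` to split `x = insertNth a m x'` and, for `m ≥ 0`,
`∫_{x' b ≥ m ∀ b} F(x') = e^(-n m) ∫ F(m + y') dy'` (as measures: `(expMeasure 1).restrict (Ici m)` is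
`ofReal (e^(-m)) •` the image of `expMeasure 1` under `m + ·`; products of such measures). So with a further independent
coordinate `y a`: `∫ 1[x a ≤ x b ∀ b] Θ ≤ ∫_m e^(-m) e^(-n m) (m + ∫ Θ' a)`
`= 1 / (n+1)^2 + (∫ Θ' a) / (n+1)`. Sum over `a`. -/
def S_MEM1 : Prop := ∀ (n : ℕ) (Θ : (Fin (n + 1) → ℝ) → ℝ≥0∞)
  (Θ' : Fin (n + 1) → (Fin (n + 1) → ℝ) → ℝ≥0∞), Measurable Θ → (∀ a, Measurable (Θ' a)) →
  (∀ (a : Fin (n + 1)) (m : ℝ) (x y : Fin (n + 1) → ℝ), 0 ≤ m → (∀ e, 0 ≤ x e) → (∀ e, 0 ≤ y e) →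
    x a = m → (∀ b, b ≠ a → x b = m + y b) → Θ x ≤ ENNReal.ofReal m + Θ' a y) →
  ∫⁻ x, Θ x ∂(Measure.pi fun _ => expMeasure 1) ≤
    (1 + ∑ a, ∫⁻ y, Θ' a y ∂(Measure.pi fun _ => expMeasure 1)) / ((n : ℝ≥0∞) + 1)

/-- MEM (uses RES, MEM1). The same for a finite set `A` of coordinates of a countable family. By RES with `P = A`,
`∫ Θ = ∫_y ∫_x Θ (mix A x y)`; for fixed `y ≥ 0` (a.e. `y`, `y e ≥ 0` for all `e`, `Countable E`) the inner integral is an
integral over `Measure.pi` on `Fin (n + 1) ≃ A` (`infinitePi_map_restrict`, `infinitePi_eq_pi`,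
`measurePreserving_piCongrLeft` or `map_infinitePi_infinitePi_of_inj`), and MEM1 applies with
`Θ_y x = Θ (mix A x y)`, `Θ'_y a x = Θ' a (mix A x y)`. -/
def S_MEM : Prop := ∀ (E : Type) [Countable E] (A : Finset E), A.Nonempty →
  ∀ (Θ : (E → ℝ) → ℝ≥0∞) (Θ' : E → (E → ℝ) → ℝ≥0∞), Measurable Θ → (∀ a ∈ A, Measurable (Θ' a)) →
  (∀ a ∈ A, ∀ (m : ℝ) (x y : E → ℝ), 0 ≤ m → (∀ e, 0 ≤ x e) → (∀ e, 0 ≤ y e) →
    x a = m → (∀ b ∈ A, b ≠ a → x b = m + y b) → (∀ e, e ∉ A → x e = y e) →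
    Θ x ≤ ENNReal.ofReal m + Θ' a y) →
  ∫⁻ x, Θ x ∂(nu E) ≤ (1 + ∑ a ∈ A, ∫⁻ y, Θ' a y ∂(nu E)) / A.card

/-- STEP. One step of the exploration, pointwise. `A` is a set of boundary edges of `S` (pairs: inner, outer end),
`q = (s, v) ∈ A` has the least weight `m`, and `y` are the weights after the time `m` (the value of `y` at `q` is arbitrary).
Proof: `PhS G f x S ≤ Ph G f x u` for `u ∈ S`. Let `S' = insert v S`. Claim, for every walk `p : G.Walk u t`, by induction on `p`, with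
`c p = ∑ y e + f t`: `PhS G f x S ≤ m + c p`, or (`u ∉ S'` and `Ph G f x u ≤ c p`).
* `nil` at `u`: `u ∉ S'`: second. `u ∈ S`: first. `u = v`: first, by the edge `s(s, v)` of weight `m`.
* `cons`, first edge `s(u, u')`: if the first alternative holds for the tail it holds. Otherwise `u' ∉ S'`. If `u ∉ S'`, the edge has no
  end in `S`, so it is not in `A` and `x = y` there: second. If `u ∈ S`: `x ≤ m + y` on the edge (it is not `s(s, v)`, as `u' ≠ v`):
  first. If `u = v`: again `x = y` on the edge, and `Ph x s ≤ m + Ph x v`: first.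
For a walk from `u ∈ S'` only the first alternative is possible. -/
def S_STEP : Prop := ∀ (V : Type) [DecidableEq V] (G : SimpleGraph V) (f : V → ℝ≥0∞) (S : Finset V)
  (A : Finset (V × V)) (q : V × V) (m : ℝ) (x y : Sym2 V → ℝ), q ∈ A →
  (∀ p ∈ A, p.1 ∈ S ∧ p.2 ∉ S ∧ G.Adj p.1 p.2) → 0 ≤ m → (∀ e, 0 ≤ x e) → (∀ e, 0 ≤ y e) →
  x s(q.1, q.2) = m → (∀ p ∈ A, p ≠ q → x s(p.1, p.2) = m + y s(p.1, p.2)) →
  (∀ e, (∀ p ∈ A, e ≠ s(p.1, p.2)) → x e = y e) →
  PhS G f x S ≤ ENNReal.ofReal m + PhS G f y (insert q.2 S)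

/-- ONE (uses MEAS, MEM, STEP). MEM for `E = Sym2 V` and the image of `A` under `p ↦ s(p.1, p.2)` (injective on `A`, as
`p.1 ∈ S`, `p.2 ∉ S`), `Θ w = PhS G f w S`, `Θ' e w = PhS G f w (insert p.2 S)` for `e = s(p.1, p.2)`. -/
def S_ONE : Prop := ∀ (V : Type) [Countable V] [DecidableEq V] (G : SimpleGraph V) (f : V → ℝ≥0∞)
  (S : Finset V) (A : Finset (V × V)), A.Nonempty →
  (∀ p ∈ A, p.1 ∈ S ∧ p.2 ∉ S ∧ G.Adj p.1 p.2) →
  ∫⁻ w, PhS G f w S ∂(nu (Sym2 V)) ≤
    (1 + ∑ p ∈ A, ∫⁻ w, PhS G f w (insert p.2 S) ∂(nu (Sym2 V))) / A.card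

/-! ### the lattice -/

/-- the lattice (as in the frozen statement) -/
def Lat (d : ℕ) : SimpleGraph (Fin d → ℤ) :=
  SimpleGraph.fromRel (fun y z : Fin d → ℤ => ∑ i, |y i - z i| = 1)

/-- edges whose lower layer (coordinate `0`) satisfies `Q` -/
def LG (D : ℕ) (Q : ℤ → Prop) : SimpleGraph (Fin (D + 1) → ℤ) where
  Adj u v := (Lat (D + 1)).Adj u v ∧ Q (min (u 0) (v 0))
  symm := ⟨fun u v h => ⟨h.1.symm, by rw [min_comm]; exact h.2⟩⟩
  loopless := ⟨fun u h => h.1.ne rfl⟩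

/-- terminal cost of a point -/
def pt {V : Type} (z : V) : V → ℝ≥0∞ := fun v => by classical exact if v = z then 0 else ⊤

/-- terminal cost of a box of radius `R` in the layer `N` -/
def term (D : ℕ) (N R : ℕ) : (Fin (D + 1) → ℤ) → ℝ≥0∞ := fun v => by
  classical exact if v 0 = N ∧ ∀ i : Fin D, |v i.succ| ≤ R then 0 else ⊤

/-- the slab of the first `N` layers -/
def Slab (D N : ℕ) : SimpleGraph (Fin (D + 1) → ℤ) := LG D fun k => 0 ≤ k ∧ k < N

/-- the half space of the layers `≥ N` -/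
def Half (D : ℕ) (N : ℕ) : SimpleGraph (Fin (D + 1) → ℤ) := LG D fun k => (N : ℤ) ≤ k

/-- maximal number of edges of a graph on `n` vertices of the lattice (edge isoperimetry) -/
def ef (n : ℕ) : ℕ := ∑ i ∈ Finset.range n, (Nat.digits 2 i).sum

/-- neighbours -/
def nbr {D : ℕ} (v : Fin D → ℤ) : Finset (Fin D → ℤ) :=
  (Finset.univ : Finset (Fin D × Bool)).image fun p =>
    Function.update v p.1 (v p.1 + if p.2 then 1 else -1)

/-- boundary edges -/
def bp {D : ℕ} (B : Finset (Fin D → ℤ)) : Finset ((Fin D → ℤ) × (Fin D → ℤ)) :=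
  (B ×ˢ B.biUnion nbr).filter fun p => p.2 ∈ nbr p.1 ∧ p.2 ∉ B

/-- ISO. **Edge isoperimetric inequality.** `nbr v` has `2 D` elements, so it is enough that the number `I B` of ordered pairs
`(s, v) ∈ B × B`, `v ∈ nbr s`, is at most `2 * ef #B`. (1) `ef (2 n) = 2 ef n + n`, `ef (2 n + 1) = ef n + ef (n + 1) + n`, and
`ef a + ef b + min a b ≤ ef (a + b)` by strong induction on `a + b` in the four parity cases (e.g. `a = 2 p + 1`, `b = 2 q + 1`,
`p ≤ q`: add the cases `(p, q + 1)` and `(p + 1, q)`). (2) Strong induction on `#B`: for `#B ≥ 2` there are a coordinate `i` and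
`c ∈ ℤ` such that `B₁ = {v ∈ B | v i ≤ c}` and `B₂ = B \ B₁` are both non-empty; an edge between them changes the coordinate `i` from
`c` to `c + 1`, so every vertex has at most one such edge, `I B ≤ I B₁ + I B₂ + 2 min #B₁ #B₂`. -/
def S_ISO : Prop := ∀ (D : ℕ) (B : Finset (Fin D → ℤ)),
  2 * D * B.card ≤ 2 * ef B.card + (bp B).card

/-- the certificate: a potential `h` of the chain of the pairs `(a, b)`, `a` = number of explored vertices in the last but one layer,
`b` = number in the last one. `ra`, `rb` are the numbers of used edges that lead to a new vertex of these layers, and `b` edges lead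
to the next layer. -/
def Cert (D : ℕ) (mu : ℝ) : Prop := ∃ (AM BM : ℕ) (h : ℕ → ℕ → ℝ) (ra rb : ℕ → ℕ → ℕ),
  1 ≤ BM ∧ BM ≤ AM ∧ (∀ a b, 0 ≤ h a b) ∧
  ∀ a b, a ≤ AM → 1 ≤ b → b ≤ BM →
    ra a b + 2 * ef a ≤ 2 * D * a ∧ rb a b + 2 * ef b ≤ 2 * D * b + (a - b) ∧
    (a = AM → ra a b = 0) ∧ (b = BM → rb a b = 0) ∧
    1 + ra a b * h (a + 1) b + rb a b * h a (b + 1) + b * (h b 1 - mu) ≤
      ((ra a b : ℝ) + rb a b + b) * h a b

/-- EXPL (uses ISO, ONE). Exploration of the slab, `C = h 0 1`, `R = N (AM + BM + 1) + AM + BM`.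
Claim, for every finite `S` with: `v 0 ≤ t` (`0 ≤ v 0`) for `v ∈ S`, where `0 ≤ t ≤ N`; `a = #{v ∈ S | v 0 = t - 1} ≤ AM`,
`b = #{v ∈ S | v 0 = t}`, `1 ≤ b ≤ BM`; `|v i| + ms ≤ R` for all `v ∈ S` and `i ≠ 0`, where
`ms = (N - t) (AM + BM + 1) + (AM - a) + (BM - b)`:
`∫⁻ PhS (Slab D N) (term D N R) w S ≤ ofReal (mu (N - t) + h a b)` (`mu ≥ 0`).
Induction on `ms`. `t = N`: the constant walk at a vertex of the layer `N`. `t < N`: choose `A` of size `ra + rb + b`: `ra` in-plane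
boundary edges of the layer `t - 1` (ISO for the image of the layer in `Fin D → ℤ`, `Fin.tail`; for `t = 0`, `a = 0` and `ra = 0`), `rb` in-plane
boundary edges of the layer `t` or edges `(v, v + e₀)`, `v 0 = t - 1`, `v + e₀ ∉ S` (at least `a - b`), and the `b` edges `(v, v + e₀)`, `v 0 = t`.
`Finset.exists_subset_card_eq`. ONE and the induction hypothesis for `(a+1, b)`, `(a, b+1)`, `(b, 1)` (with `t + 1`), then `Cert`. -/
def S_EXPL : Prop := ∀ (D : ℕ) (mu : ℝ), 0 ≤ mu → Cert D mu → ∃ C : ℝ, 0 ≤ C ∧ ∀ N : ℕ, 1 ≤ N →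
  ∃ R : ℕ, ∫⁻ w, Ph (Slab D N) (term D N R) w 0 ∂(nu (Sym2 (Fin (D + 1) → ℤ))) ≤
    ENNReal.ofReal (mu * N + C)

/-! ### from point-to-plane to point-to-point -/

/-- expected passage time in the half space from `0` to the point `z'` of the layer `N` -/
def bb (D N : ℕ) (z' : Fin D → ℤ) : ℝ≥0∞ :=
  ∫⁻ w, Ph (Half D 0) (pt (Fin.cons (N : ℤ) z')) w 0 ∂(nu (Sym2 (Fin (D + 1) → ℤ)))

/-- PI (uses MEAS, RES, INV). **One block.** `T y w = Ph (Slab D N) (pt (cons N y)) w 0`, `y` in the box `Y` of radius `R`;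
`τ w = Ph (Slab D N) (term D N R) w 0 = min over y ∈ Y of T y w`; `p y w = 1 / #{y' ∈ Y | T y' w = τ w}` if `T y w = τ w`, else `0`:
`∑ p = 1`; `π y = ∫ p y dν`. Symmetric: INV with the reflection of the coordinates `≠ 0`. Pointwise, by joining walks,
`Ph (Half D 0) (pt (cons (N+N') z')) w 0 ≤ τ w + ∑ y ∈ Y, p y w * Ph (Half D N) (pt (cons (N+N') z')) w (cons N y)`
(for every `y` with `T y w = τ w`: `Ph ≤ T y w + Ph (Half D N) ... (cons N y)`). `p y` depends only on the edges with lower layer in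
`[0, N)`, `Ph (Half D N) ..` only on those with lower layer `≥ N`; by RES the integral of the product is the product of the integrals.
By INV with the translation by `cons N y`, `∫ Ph (Half D N) (pt (cons (N+N') z')) w (cons N y) = bb D N' (z' - y)`. -/
def S_PI : Prop := ∀ (D N R : ℕ), 1 ≤ N →
  ∃ π : (Fin D → ℤ) → ℝ≥0∞, (∀ y, π (-y) = π y) ∧
    (∑ y ∈ Fintype.piFinset fun _ : Fin D => Finset.Icc (-(R : ℤ)) R, π y = 1) ∧
    ∀ (N' : ℕ) (z' : Fin D → ℤ), bb D (N + N') z' ≤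
      ∫⁻ w, Ph (Slab D N) (term D N R) w 0 ∂(nu (Sym2 (Fin (D + 1) → ℤ))) +
      ∑ y ∈ Fintype.piFinset fun _ : Fin D => Finset.Icc (-(R : ℤ)) R, π y * bb D N' (z' - y)

/-- B0. A walk of `∑ |z' i|` edges from `0` to `cons 0 z'` in the layer `0` (by induction on `∑ |z' i|`), every edge has mean `1`. -/
def S_B0 : Prop := ∀ (D : ℕ) (z' : Fin D → ℤ), bb D 0 z' ≤ ENNReal.ofReal (∑ i, |(z' i : ℝ)|)

/-- BLK (uses PI, B0). By induction on `M`, with `K = D R²`: for every `η > 0`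
`bb D (M * N) z' ≤ ofReal (M (B + η K) + D / η + η ∑ (z' i)²)`. `M = 0`: B0 and `|t| ≤ 1 / η + η t²`. Step: PI, and
`∑ π y ∑_i (z' i - y i)² ≤ ∑ (z' i)² + K` as `∑ π y * y i = 0` by symmetry. Take `η` with `η K ≤ ε`, and `z' = 0`. -/
def S_BLK : Prop := ∀ (D N R : ℕ) (B : ℝ), 1 ≤ N → 0 ≤ B →
  ∫⁻ w, Ph (Slab D N) (term D N R) w 0 ∂(nu (Sym2 (Fin (D + 1) → ℤ))) ≤ ENNReal.ofReal B →
  ∀ ε : ℝ, 0 < ε → ∃ C : ℝ, 0 ≤ C ∧ ∀ M : ℕ, bb D (M * N) 0 ≤ ENNReal.ofReal (M * (B + ε) + C)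

/-! ### the theorem about the weights of the problem -/

/-- passage time (as in the frozen statement) -/
def TT {d : ℕ} {Ω : Type} (ω : Sym2 (Fin d → ℤ) → Ω → ℝ) (x : Fin d → ℤ) (t : Ω) : ℝ :=
  ⨅ p : (SimpleGraph.fromRel (fun y z : Fin d → ℤ => ∑ i, |y i - z i| = 1)).Walk 0 x,
    (p.edges.map (fun e => ω e t)).sum

/-- AX (uses MEAS, EXPL, BLK). `c ≤ mu`, where `c` is the limit in the direction `e₁`. The law of `t ↦ (e ↦ ω e t)` is `nu`
(`iIndepFun.map_fun_eq_infinitePi_map`). A.s. all weights are `≥ 0`, and then `ofReal (TT ω x t) ≤ Ph (Half D 0) (pt x) (ω · t) 0` (every walk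
of the half space is a walk of the lattice; real infimum bounded below by `0`). Take `x = n • e₁`, `n = M * N`; Fatou
(`lintegral_liminf_le`): `ofReal c ≤ liminf ∫ ofReal (TT / n) ≤ liminf bb D (M N) 0 / (M N) ≤ (B + ε) / N`, with `B = mu N + C` from
EXPL, so `c ≤ mu + (C + ε) / N` for all `N`. -/
def S_AX : Prop := ∀ (D : ℕ) (mu : ℝ), 0 ≤ mu → Cert D mu → ∀ (Ω : Type) [MeasurableSpace Ω] (P : Measure Ω)
  [IsProbabilityMeasure P] (ω : Sym2 (Fin (D + 1) → ℤ) → Ω → ℝ), iIndepFun ω P →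
  (∀ e, Measurable (ω e) ∧ P.map (ω e) = expMeasure 1) → ∀ c : ℝ,
  (∀ᵐ t ∂P, Tendsto (fun n : ℕ => TT ω (n • (Pi.single 0 1 : Fin (D + 1) → ℤ)) t / n) atTop (𝓝 c)) →
  c ≤ mu

/-- condition for the convergence of the sum over non-backtracking walks (`g = e^λ`) -/
def NB (d : ℕ) (g z : ℝ) : Prop := ∃ φ₁ φ₂ ρ : ℝ, 0 < φ₁ ∧ 0 < φ₂ ∧ ρ < 1 ∧
  z * (d * g * φ₁ + (d - 1) * g⁻¹ * φ₂) ≤ ρ * φ₁ ∧ z * ((d - 1) * g * φ₁ + d * g⁻¹ * φ₂) ≤ ρ * φ₂

/-- COUNT. Weighted sum over paths. For a walk `p : u → x` let the type of its first step be `(i, ±)`. Claim, by induction on `m`: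
for a vertex `u`, a forbidden direction `(i, σ)`, and a finite set `F` of walks from `u` to `x` of length at most `m` without
immediate reversals (every two consecutive steps `s, s'` have `s' ≠ -s`) whose first step is not `(i, σ)`,
`∑_{p ∈ F} z^(length p) ≤ K g^(E u - E x) ψ`, `E u = ∑ u i`, `ψ = φ₁` if `σ = -` (the previous step was `+`), `φ₂` if `σ = +`, with
`K = 1 / ((1 - ρ) min φ₁ φ₂)`: the constant walk contributes at most `1` (for `u = x`, where `1 ≤ (1 - ρ) K ψ`), and the walks with the first step `s'`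
give `z` times the same sum for `u + s'`, so in total `K z (d g φ₁ + (d - 1) g⁻¹ φ₂) g^(E u - E x) ≤ ρ K φ₁ g^(E u - E x)`, the
forbidden step omitted (for `σ = -`; the other case is the same with the second inequality). In the same way without forbidden direction, one more step.
(It may be easier to count lists of steps; a path has no immediate reversals. Without the improvement, i.e. with
`z 2 d (g + g⁻¹) / 2 < 1` instead of `NB`, the statement is the weaker `S_COUNT0`, which is also useful: prove it if COUNT is too long.) -/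
def S_COUNT : Prop := ∀ (d : ℕ) (g z : ℝ), 1 ≤ d → 1 < g → 0 < z → NB d g z → ∃ K : ℝ, 0 ≤ K ∧
  ∀ (x : Fin d → ℤ) (F : Finset ((Lat d).Walk 0 x)), (∀ p ∈ F, p.IsPath) →
    ∑ p ∈ F, z ^ p.length ≤ K * g ^ (-∑ i, x i)

/-- fallback for COUNT: plain walks -/
def S_COUNT0 : Prop := ∀ (d : ℕ) (g z : ℝ), 1 ≤ d → 1 < g → 0 < z → z * (d * (g + g⁻¹)) < 1 →
  ∃ K : ℝ, 0 ≤ K ∧ ∀ (x : Fin d → ℤ) (F : Finset ((Lat d).Walk 0 x)), (∀ p ∈ F, p.IsPath) →
    ∑ p ∈ F, z ^ p.length ≤ K * g ^ (-∑ i, x i)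

/-- LAP. Laplace transform of the passage time of a path: `p.edges.Nodup`, independence (`iIndepFun.mgf_sum` or
`iIndepFun.lintegral_prod`...), and `∫ e^(-θ x) d(expMeasure 1) = 1 / (1 + θ)`; then Markov's inequality. -/
def S_LAP : Prop := ∀ (V : Type) (G : SimpleGraph V) (Ω : Type) [MeasurableSpace Ω] (P : Measure Ω)
  [IsProbabilityMeasure P] (ω : Sym2 V → Ω → ℝ), iIndepFun ω P →
  (∀ e, Measurable (ω e) ∧ P.map (ω e) = expMeasure 1) → ∀ (u v : V) (p : G.Walk u v), p.IsPath →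
  ∀ (θ a : ℝ), 0 < θ →
    P {t | (p.edges.map (fun e => ω e t)).sum ≤ a} ≤
      ENNReal.ofReal (Real.exp (θ * a) * (1 / (1 + θ)) ^ p.length)

/-- DIAG (uses COUNT, LAP). With `x = n • 1`, `E x = n d`: a.s. all weights are `≥ 0`, and then `TT ω x t < s n` implies that some path `p`
from `0` to `x` has passage time `≤ s n` (a walk contains a path with a subset of its edges: `Walk.bypass`). By the union bound over the (countably many)
paths, LAP and COUNT with `z = 1 / (1 + θ)` the probability is at most `K exp (θ s n - n d log g) → 0`. If `TT / n → L` a.s. and `L < s`, then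
`P (TT < s n) → 1`, contradiction. -/
def S_DIAG : Prop := ∀ (d : ℕ) (g θ s : ℝ), 1 ≤ d → 1 < g → 0 < θ → NB d g (1 / (1 + θ)) →
  θ * s < d * Real.log g → ∀ (Ω : Type) [MeasurableSpace Ω] (P : Measure Ω)
  [IsProbabilityMeasure P] (ω : Sym2 (Fin d → ℤ) → Ω → ℝ), iIndepFun ω P →
  (∀ e, Measurable (ω e) ∧ P.map (ω e) = expMeasure 1) → ∀ L : ℝ,
  (∀ᵐ t ∂P, Tendsto (fun n : ℕ => TT ω (n • (1 : Fin d → ℤ)) t / n) atTop (𝓝 L)) → s ≤ L

end

end Pool.Agent.T2H92.FP
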